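import Pool.Agent.Helper27.BI.StG
import Pool.Agent.Helper18.BI.M_CI
import Pool.Agent.Helper18.BI.M_IMP

/-!
# Project BI, part (C): implantations and germs, elementary facts
-/

set_option autoImplicit false
set_option linter.unusedSectionVars false
set_option linter.unusedVariables false

open scoped Manifold ContDiff Topology ComplexConjugate
open Set Pool.Agent.Helper65.Barb Pool.Agent.Helper18.BI

namespace Pool.Agent.Helper27.BI

section
variable {M : Type*} {F F' : R4 → M} {K K' : Set R4} {T T' : R4 → R4}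

theorem imp_image (hF : InjOn F K) {p : R4} (hp : p ∈ K) : imp F K T (F p) = F (T p) := by
  have h : ∃ q ∈ K, F q = F p := ⟨p, hp, rfl⟩
  have h1 := h.choose_spec
  have h2 : h.choose = p := hF h1.1 hp h1.2
  unfold imp
  rw [dif_pos h, h2]

theorem imp_off {y : M} (hy : y ∉ F '' K) : imp F K T y = y := by
  unfold imp
  rw [dif_neg]
  rintro ⟨q, hq, hqy⟩
  exact hy ⟨q, hq, hqy⟩

/-- comparison of two implantations -/
theorem imp_eq_of (hF : InjOn F K) (hF' : InjOn F' K')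
    (h1 : ∀ p ∈ K', ∃ q ∈ K, F q = F' p ∧ F (T q) = F' (T' p))
    (h2 : ∀ q ∈ K, (∃ p ∈ K', F' p = F q) ∨ F (T q) = F q) : imp F K T = imp F' K' T' := by
  funext y
  by_cases hy : y ∈ F' '' K'
  · obtain ⟨p, hp, rfl⟩ := hy
    obtain ⟨q, hq, e1, e2⟩ := h1 p hp
    rw [imp_image hF' hp, ← e1, imp_image hF hq, e2]
  · rw [imp_off hy]
    by_cases hy' : y ∈ F '' K
    · obtain ⟨q, hq, rfl⟩ := hy'
      rw [imp_image hF hq]
      rcases h2 q hq with ⟨p, hp, e⟩ | e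
      · exact absurd ⟨p, hp, e⟩ hy
      · exact e
    · rw [imp_off hy']

/-- enlarging the support -/
theorem imp_mono (hF : InjOn F K) (hK : K' ⊆ K) (hT : ∀ p, p ∉ K' → T p = p) :
    imp F K T = imp F K' T := by
  apply imp_eq_of hF (hF.mono hK) (fun p hp => ⟨p, hK hp, rfl, rfl⟩)
  intro q hq
  by_cases h : q ∈ K'
  · exact Or.inl ⟨q, h, rfl⟩
  · exact Or.inr (by rw [hT q h])

theorem imp_comp {S : R4 → R4} (hF : InjOn F K) (hT : MapsTo T K K) (y : M) :
    imp F K (fun p => S (T p)) y = imp F K S (imp F K T y) := by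
  by_cases hy : y ∈ F '' K
  · obtain ⟨p, hp, rfl⟩ := hy
    rw [imp_image hF hp, imp_image hF hp, imp_image hF (hT hp)]
  · rw [imp_off hy, imp_off hy, imp_off hy]

theorem imp_congr (hF : InjOn F K) (h : EqOn F F' K) (hT : MapsTo T K K) :
    imp F K T = imp F' K T := by
  have hF' : InjOn F' K := fun p hp q hq e => hF hp hq (by rw [h hp, h hq, e])
  exact imp_eq_of hF hF' (fun p hp => ⟨p, hp, h hp, h (hT hp)⟩)
    (fun q hq => Or.inl ⟨q, hq, (h hq).symm⟩)

end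

section
variable {E : Type} [NormedAddCommGroup E] [NormedSpace ℝ E] {H : Type} [TopologicalSpace H]
  {I : ModelWithCorners ℝ E H} {M : Type} [TopologicalSpace M] [ChartedSpace H M]

theorem EmbOn.mono {F : R4 → M} {K L : Set R4} (h : EmbOn I F L) (hK : K ⊆ L) : EmbOn I F K :=
  ⟨fun p hp => h.1 p (hK hp), h.2.mono hK⟩

theorem EmbOn.comp {F : R4 → M} {k : R4 → R4} {K L : Set R4} (h : EmbOn I F L)
    (hk : EmbOn 𝓘(ℝ, R4) k K) (hm : MapsTo k K L) : EmbOn I (F ∘ k) K :=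
  ⟨fun p hp => IsLocalDiffeomorphAt.comp (hf := hk.1 p hp) (hg := h.1 _ (hm hp)),
    fun p hp q hq e => hk.2 hp hq (h.2 (hm hp) (hm hq) e)⟩

/-! ### the algebra of compactly supported isotopy -/

theorem ci_refl : CIsot I (fun x : M => x) (fun x => x) := (m_CI E H I M).1

theorem CIsot.symm' {φ ψ : M → M} (h : CIsot I φ ψ) : CIsot I ψ φ := (m_CI E H I M).2.1 _ _ h

theorem CIsot.left' {φ ψ : M → M} (h : CIsot I φ ψ) : CIsot I φ φ := (m_CI E H I M).2.2.1 _ _ h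

theorem CIsot.trans' {φ ψ χ : M → M} (h : CIsot I φ ψ) (h' : CIsot I ψ χ) : CIsot I φ χ :=
  (m_CI E H I M).2.2.2.1 _ _ _ h h'

theorem CIsot.comp' {φ ψ φ' ψ' : M → M} (h : CIsot I φ ψ) (h' : CIsot I φ' ψ') :
    CIsot I (fun x => φ (φ' x)) (fun x => ψ (ψ' x)) :=
  (m_CI E H I M).2.2.2.2.1 _ _ _ _ h h'

theorem CIsot.inv' {φ ψ φ' ψ' : M → M} (h : CIsot I φ ψ) (h1 : ∀ x, φ (φ' x) = x)
    (h2 : ∀ x, ψ (ψ' x) = x) : CIsot I φ' ψ' :=
  (m_CI E H I M).2.2.2.2.2.1 _ _ _ _ h h1 h2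

/-- the push-forward of an isotopy -/
theorem imp_isot (hA1 : StA1) [T2Space M] {F : R4 → M} {L : Set R4} (Φ : DFam 𝓘(ℝ, R4) R4)
    (hL : IsCompact L) (hF : EmbOn I F L) (hs : ∀ t p, p ∉ L → Φ.f (t, p) = p) :
    CIsot I (imp F L (fun p => Φ.f (0, p))) (imp F L (fun p => Φ.f (1, p))) :=
  m_Push hA1 E H I M F L Φ hL hF hs

end

end Pool.Agent.Helper27.BI
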