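import Pool.Agent.Helper27.BI.StM1

/-!
# Project BI, module CH: chains of displacements (helper86)
-/

set_option autoImplicit false

open scoped Manifold ContDiff Topology ComplexConjugate
open Set Pool.Agent.Helper65.Barb Pool.Agent.Helper18.BI

namespace Pool.Agent.Helper27.BI

namespace CH

noncomputable section

theorem nsq_eq (x : R3) : nsq x = x.1 ^ 2 + ‖x.2‖ ^ 2 := by
  unfold nsq
  rw [← Complex.normSq_eq_norm_sq, Complex.normSq_apply]; ring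

theorem contDiff_nsq : ContDiff ℝ ∞ (fun x : R3 => nsq x) := by
  have h : (fun x : R3 => nsq x) = fun x : R3 => x.1 ^ 2 + ‖x.2‖ ^ 2 := funext nsq_eq
  rw [h]
  exact (contDiff_fst.pow 2).add (contDiff_snd.norm_sq ℝ)

theorem continuous_nsq : Continuous (fun x : R3 => nsq x) := contDiff_nsq.continuous

theorem isCompact_nsq (R : ℝ) : IsCompact {y : R3 | nsq y ≤ R} := by
  apply Metric.isCompact_of_isClosed_isBounded (isClosed_le continuous_nsq continuous_const)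
  rw [isBounded_iff_forall_norm_le]
  refine ⟨R + 1, fun y hy => ?_⟩
  have hy' : y.1 ^ 2 + ‖y.2‖ ^ 2 ≤ R := by rw [← nsq_eq]; exact hy
  rw [Prod.norm_def]
  apply max_le
  · rw [Real.norm_eq_abs, abs_le]
    constructor <;> nlinarith [sq_nonneg (y.1 + 1 / 2), sq_nonneg (y.1 - 1 / 2), sq_nonneg ‖y.2‖]
  · nlinarith [sq_nonneg (‖y.2‖ - 1 / 2), sq_nonneg y.1]

/-- the cut-off in three-space -/
def cf (ρ : ℝ) (x : R3) : ℝ := cut (nsq x / ρ ^ 2)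

theorem cf_one {ρ : ℝ} (hρ : 0 < ρ) {x : R3} (h : nsq x ≤ ρ ^ 2) : cf ρ x = 1 :=
  cut_of_le (by rw [div_le_one (by positivity)]; exact h)

theorem cf_zero {ρ : ℝ} (hρ : 0 < ρ) {x : R3} (h : (2 * ρ) ^ 2 ≤ nsq x) : cf ρ x = 0 :=
  cut_of_ge (by rw [le_div_iff₀ (by positivity)]; nlinarith)

theorem contDiff_cf (ρ : ℝ) : ContDiff ℝ ∞ (cf ρ) :=
  contDiff_cut.comp (contDiff_nsq.div_const _)

theorem exists_lip {ρ : ℝ} (hρ : 0 < ρ) :
    ∃ C : ℝ, 0 < C ∧ ∀ x y : R3, |cf ρ x - cf ρ y| ≤ C * ‖x - y‖ := by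
  have hc : HasCompactSupport (cf ρ) := by
    apply HasCompactSupport.intro (isCompact_nsq ((2 * ρ) ^ 2))
    intro x hx
    exact cf_zero hρ (not_le.1 hx).le
  obtain ⟨C, hC⟩ := (contDiff_cf ρ).lipschitzWith_of_hasCompactSupport hc (by simp)
  refine ⟨C + 1, by positivity, fun x y => ?_⟩
  have h := hC.dist_le_mul x y
  rw [dist_eq_norm, dist_eq_norm, Real.norm_eq_abs] at h
  nlinarith [norm_nonneg (x - y)]

section
variable {ι : Type} [Fintype ι]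

/-- the displacement -/
def dsp (ρ : ℝ) (p v : ι → R3) (x : R3) : R3 := ∑ i, cf ρ (x - p i) • v i

theorem dsp_lip {ρ C δ : ℝ} (hC : ∀ x y : R3, |cf ρ x - cf ρ y| ≤ C * ‖x - y‖) (hC0 : 0 < C)
    (p v : ι → R3) (hv : ∀ i, ‖v i‖ ≤ δ) (x y : R3) :
    ‖dsp ρ p v x - dsp ρ p v y‖ ≤ Fintype.card ι * (C * δ) * ‖x - y‖ := by
  unfold dsp
  rw [← Finset.sum_sub_distrib]
  calc ‖∑ i, (cf ρ (x - p i) • v i - cf ρ (y - p i) • v i)‖
      ≤ ∑ i, ‖cf ρ (x - p i) • v i - cf ρ (y - p i) • v i‖ := norm_sum_le _ _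
    _ ≤ ∑ _i : ι, C * δ * ‖x - y‖ := by
        apply Finset.sum_le_sum
        intro i _
        rw [← sub_smul, norm_smul, Real.norm_eq_abs]
        have h1 := hC (x - p i) (y - p i)
        rw [sub_sub_sub_cancel_right] at h1
        calc |cf ρ (x - p i) - cf ρ (y - p i)| * ‖v i‖ ≤ (C * ‖x - y‖) * δ :=
              mul_le_mul h1 (hv i) (norm_nonneg _) (by positivity)
          _ = C * δ * ‖x - y‖ := by ring
    _ = Fintype.card ι * (C * δ) * ‖x - y‖ := by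
        rw [Finset.sum_const, Finset.card_univ, nsmul_eq_mul]; ring

theorem dsp_zero {ρ : ℝ} {p v : ι → R3} (h : ∀ i, v i = 0) (x : R3) : dsp ρ p v x = 0 := by
  unfold dsp
  apply Finset.sum_eq_zero
  intro i _
  rw [h i, smul_zero]

theorem dsp_far {ρ : ℝ} (hρ : 0 < ρ) {p v : ι → R3} {x : R3}
    (h : ∀ i, (2 * ρ) ^ 2 ≤ nsq (x - p i)) : dsp ρ p v x = 0 := by
  unfold dsp
  apply Finset.sum_eq_zero
  intro i _
  rw [cf_zero hρ (h i), zero_smul]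

theorem dsp_near {ρ : ℝ} (hρ : 0 < ρ) {p v : ι → R3} {x : R3} {i : ι}
    (h : nsq (x - p i) ≤ ρ ^ 2) (h' : ∀ j, j ≠ i → (2 * ρ) ^ 2 ≤ nsq (x - p j)) :
    dsp ρ p v x = v i := by
  unfold dsp
  rw [Finset.sum_eq_single i, cf_one hρ h, one_smul]
  · intro j _ hj
    rw [cf_zero hρ (h' j hj), zero_smul]
  · intro hi
    exact absurd (Finset.mem_univ i) hi

theorem nsq_far {ρ : ℝ} {z y : R3} (hz : (4 * ρ) ^ 2 ≤ nsq z) (hy : nsq y ≤ ρ ^ 2) :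
    (2 * ρ) ^ 2 ≤ nsq (z + y) := by
  unfold nsq at *
  have e1 : (z + y).1 = z.1 + y.1 := rfl
  have e2 : (z + y).2 = z.2 + y.2 := rfl
  rw [e1, e2, Complex.add_re, Complex.add_im]
  nlinarith [sq_nonneg (z.1 + 2 * y.1), sq_nonneg (z.2.re + 2 * y.2.re),
    sq_nonneg (z.2.im + 2 * y.2.im), sq_nonneg ρ]

/-- the points of the segment -/
def ip (N : ℕ) (a b : ℝ × ℝ) (k : ℕ) : ℝ × ℝ :=
  (a.1 + (k / N : ℝ) * (b.1 - a.1), a.2 + (k / N : ℝ) * (b.2 - a.2))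

/-- one step -/
def ds (ρ : ℝ) (Γ : ι → ℝ → ℝ → ℝ → R3) (c c' : ℝ × ℝ) (p : R4) : R4 :=
  (p.1, p.2 + dsp ρ (fun i => Γ i c.1 c.2 p.1)
    (fun i => Γ i c'.1 c'.2 p.1 - Γ i c.1 c.2 p.1) p.2)

/-- the chain -/
def Q (ρ : ℝ) (Γ : ι → ℝ → ℝ → ℝ → R3) (N : ℕ) (a b : ℝ × ℝ) : ℕ → R4 → R4
  | 0, x => x
  | k + 1, x => ds ρ Γ (ip N a b k) (ip N a b (k + 1)) (Q ρ Γ N a b k x)

theorem ds_fix {ρ : ℝ} (hρ : 0 < ρ) {Γ : ι → ℝ → ℝ → ℝ → R3} {c c' : ℝ × ℝ} {s : ℝ} {x : R3}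
    (h : (∀ i, Γ i c'.1 c'.2 s = Γ i c.1 c.2 s) ∨
      ∀ i, (2 * ρ) ^ 2 ≤ nsq (x - Γ i c.1 c.2 s)) : ds ρ Γ c c' (s, x) = (s, x) := by
  have h0 : dsp ρ (fun i => Γ i c.1 c.2 s) (fun i => Γ i c'.1 c'.2 s - Γ i c.1 c.2 s) x = 0 := by
    rcases h with h | h
    · exact dsp_zero (fun i => sub_eq_zero.2 (h i)) x
    · exact dsp_far hρ h
  show (s, x + dsp ρ (fun i => Γ i c.1 c.2 s) (fun i => Γ i c'.1 c'.2 s - Γ i c.1 c.2 s) x) = _
  rw [h0, add_zero]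

theorem Q_fix {ρ : ℝ} (hρ : 0 < ρ) {Γ : ι → ℝ → ℝ → ℝ → R3} {N : ℕ} {a b : ℝ × ℝ} {s : ℝ} {x : R3}
    (k : ℕ) (hk : k ≤ N)
    (h : (∀ i, ∀ m, Γ i (ip N a b (m + 1)).1 (ip N a b (m + 1)).2 s =
        Γ i (ip N a b m).1 (ip N a b m).2 s) ∨
      ∀ i, ∀ m ≤ N, (2 * ρ) ^ 2 ≤ nsq (x - Γ i (ip N a b m).1 (ip N a b m).2 s)) :
    Q ρ Γ N a b k (s, x) = (s, x) := by
  induction k with
  | zero => rfl
  | succ k ih =>
    show ds ρ Γ (ip N a b k) (ip N a b (k + 1)) (Q ρ Γ N a b k (s, x)) = (s, x)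
    rw [ih (by omega)]
    apply ds_fix hρ
    rcases h with h | h
    · exact Or.inl fun i => h i k
    · exact Or.inr fun i => h i k (by omega)

theorem Q_tube {O : Set R4} {ρ : ℝ} (hρ : 0 < ρ) {Γ : ι → ℝ → ℝ → ℝ → R3} (hΓ : SqOk O ρ Γ)
    {N : ℕ} {a b : ℝ × ℝ} (hsq : ∀ m ≤ N, ip N a b m ∈ Icc (0 : ℝ) 1 ×ˢ Icc (0 : ℝ) 1)
    {s : ℝ} (i : ι) {y : R3} (hy : nsq y ≤ ρ ^ 2) (k : ℕ) (hk : k ≤ N) :
    Q ρ Γ N a b k (s, Γ i (ip N a b 0).1 (ip N a b 0).2 s + y) =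
      (s, Γ i (ip N a b k).1 (ip N a b k).2 s + y) := by
  induction k with
  | zero => rfl
  | succ k ih =>
    show ds ρ Γ (ip N a b k) (ip N a b (k + 1)) (Q ρ Γ N a b k _) = _
    rw [ih (by omega)]
    by_cases hs : s ≤ 0 ∨ 1 ≤ s
    · have h1 : ∀ j, Γ j (ip N a b (k + 1)).1 (ip N a b (k + 1)).2 s =
          Γ j (ip N a b k).1 (ip N a b k).2 s := by
        intro j
        obtain ⟨z, hz⟩ := hΓ.ends j
        rw [hz _ _ _ hs, hz _ _ _ hs]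
      rw [ds_fix hρ (Or.inl h1), h1 i]
    · push Not at hs
      have hs' : s ∈ Icc (0 : ℝ) 1 := ⟨hs.1.le, hs.2.le⟩
      have hc := hsq k (by omega)
      have h0 : dsp ρ (fun j => Γ j (ip N a b k).1 (ip N a b k).2 s)
          (fun j => Γ j (ip N a b (k + 1)).1 (ip N a b (k + 1)).2 s -
            Γ j (ip N a b k).1 (ip N a b k).2 s) (Γ i (ip N a b k).1 (ip N a b k).2 s + y) =
          Γ i (ip N a b (k + 1)).1 (ip N a b (k + 1)).2 s -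
            Γ i (ip N a b k).1 (ip N a b k).2 s := by
        apply dsp_near (i := i) hρ
        · rw [add_sub_cancel_left]; exact hy
        · intro j hj
          have e : Γ i (ip N a b k).1 (ip N a b k).2 s + y -
              Γ j (ip N a b k).1 (ip N a b k).2 s =
              (Γ i (ip N a b k).1 (ip N a b k).2 s - Γ j (ip N a b k).1 (ip N a b k).2 s) + y := by
            abel
          rw [e]
          exact nsq_far (hΓ.sep i j (Ne.symm hj) _ hc.1 _ hc.2 s hs') hy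
      show (s, Γ i (ip N a b k).1 (ip N a b k).2 s + y + dsp ρ _ _ _) = _
      rw [h0]
      congr 1
      abel

theorem exists_dfam (pert : StPert) {O : Set R4} {ρ C δ : ℝ} {Γ : ι → ℝ → ℝ → ℝ → R3}
    (hΓ : SqOk O ρ Γ) (hC : ∀ x y : R3, |cf ρ x - cf ρ y| ≤ C * ‖x - y‖) (hC0 : 0 < C)
    (hδ : Fintype.card ι * (C * δ) ≤ 1 / 2) {c c' : ℝ → ℝ × ℝ} (hc : ContDiff ℝ ∞ c)
    (hc' : ContDiff ℝ ∞ c')
    (hv : ∀ t s i, ‖Γ i (c' t).1 (c' t).2 s - Γ i (c t).1 (c t).2 s‖ ≤ δ) :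
    ∃ F : DFam 𝓘(ℝ, R4) R4, ∀ t x, F.f (t, x) = ds ρ Γ (c t) (c' t) x := by
  have hG : ∀ i (c : ℝ → ℝ × ℝ), ContDiff ℝ ∞ c →
      ContDiff ℝ ∞ (fun p : ℝ × R4 => Γ i (c p.1).1 (c p.1).2 p.2.1) := by
    intro i c hc
    have h1 : ContDiff ℝ ∞ (fun p : ℝ × R4 => c p.1) := hc.comp contDiff_fst
    have h2 : ContDiff ℝ ∞ (fun p : ℝ × R4 => ((c p.1).1, (c p.1).2, p.2.1)) :=
      h1.fst.prodMk (h1.snd.prodMk (contDiff_snd.fst))
    exact (hΓ.smooth i).comp h2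
  obtain ⟨F, hF⟩ := pert (fun p => dsp ρ (fun i => Γ i (c p.1).1 (c p.1).2 p.2.1)
    (fun i => Γ i (c' p.1).1 (c' p.1).2 p.2.1 - Γ i (c p.1).1 (c p.1).2 p.2.1) p.2.2) (by
      unfold dsp
      apply ContDiff.sum
      intro i _
      have f1 : ContDiff ℝ ∞ (fun p : ℝ × R4 => cf ρ (p.2.2 - Γ i (c p.1).1 (c p.1).2 p.2.1)) :=
        (contDiff_cf ρ).comp ((contDiff_snd.snd).sub (hG i c hc))
      have f2 : ContDiff ℝ ∞ (fun p : ℝ × R4 =>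
          Γ i (c' p.1).1 (c' p.1).2 p.2.1 - Γ i (c p.1).1 (c p.1).2 p.2.1) :=
        (hG i c' hc').sub (hG i c hc)
      exact ContDiff.smul f1 f2) (by
      intro t s x y
      exact (dsp_lip hC hC0 _ _ (fun i => hv t s i) x y).trans
        (mul_le_mul_of_nonneg_right hδ (norm_nonneg _)))
  refine ⟨F, ?_⟩
  rintro t ⟨s, x⟩
  exact hF t s x

theorem exists_Q (pert : StPert) {O : Set R4} {ρ C δ : ℝ} {Γ : ι → ℝ → ℝ → ℝ → R3}
    (hΓ : SqOk O ρ Γ) (hC : ∀ x y : R3, |cf ρ x - cf ρ y| ≤ C * ‖x - y‖) (hC0 : 0 < C)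
    (hδ : Fintype.card ι * (C * δ) ≤ 1 / 2) {N : ℕ} {a b : ℝ → ℝ × ℝ} (ha : ContDiff ℝ ∞ a)
    (hb : ContDiff ℝ ∞ b)
    (hv : ∀ t s i, ∀ k < N, ‖Γ i (ip N (a t) (b t) (k + 1)).1 (ip N (a t) (b t) (k + 1)).2 s -
      Γ i (ip N (a t) (b t) k).1 (ip N (a t) (b t) k).2 s‖ ≤ δ) (k : ℕ) (hk : k ≤ N) :
    ∃ F : DFam 𝓘(ℝ, R4) R4, ∀ t x, F.f (t, x) = Q ρ Γ N (a t) (b t) k x := by
  induction k with
  | zero => exact ⟨DFam.one, fun t x => rfl⟩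
  | succ k ih =>
    obtain ⟨F, hF⟩ := ih (by omega)
    have hi : ∀ k : ℕ, ContDiff ℝ ∞ (fun t => ip N (a t) (b t) k) := by
      intro k
      unfold ip
      exact (ha.fst.add (contDiff_const.mul (hb.fst.sub ha.fst))).prodMk
        (ha.snd.add (contDiff_const.mul (hb.snd.sub ha.snd)))
    obtain ⟨G, hG⟩ := exists_dfam pert hΓ hC hC0 hδ (hi k) (hi (k + 1))
      (fun t s i => hv t s i k (by omega))
    refine ⟨G.comp F, fun t x => ?_⟩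
    change G.f (t, F.f (t, x)) = _
    rw [hF, hG]
    rfl

theorem ip_mem {a b : ℝ × ℝ} (ha : a ∈ Icc (0 : ℝ) 1 ×ˢ Icc (0 : ℝ) 1)
    (hb : b ∈ Icc (0 : ℝ) 1 ×ˢ Icc (0 : ℝ) 1) {τ : ℝ} (hτ : τ ∈ Icc (0 : ℝ) 1) :
    (a.1 + τ * (b.1 - a.1) ∈ Icc (0 : ℝ) 1) ∧ (a.2 + τ * (b.2 - a.2) ∈ Icc (0 : ℝ) 1) := by
  obtain ⟨⟨a1, a2⟩, a3, a4⟩ := ha
  obtain ⟨⟨b1, b2⟩, b3, b4⟩ := hb
  obtain ⟨t1, t2⟩ := hτ
  refine ⟨⟨?_, ?_⟩, ⟨?_, ?_⟩⟩
  · nlinarith [mul_nonneg t1 b1, mul_nonneg (sub_nonneg.2 t2) a1]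
  · nlinarith [mul_nonneg t1 (sub_nonneg.2 b2), mul_nonneg (sub_nonneg.2 t2) (sub_nonneg.2 a2)]
  · nlinarith [mul_nonneg t1 b3, mul_nonneg (sub_nonneg.2 t2) a3]
  · nlinarith [mul_nonneg t1 (sub_nonneg.2 b4), mul_nonneg (sub_nonneg.2 t2) (sub_nonneg.2 a4)]

theorem div_mem {N k : ℕ} (hk : k ≤ N) : (k / N : ℝ) ∈ Icc (0 : ℝ) 1 := by
  refine ⟨by positivity, ?_⟩
  apply div_le_one_of_le₀ _ (by positivity)
  exact_mod_cast hk

/-- the choice of the number of steps -/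
theorem exists_N {O : Set R4} {ρ δ : ℝ} {Γ : ι → ℝ → ℝ → ℝ → R3} (hΓ : SqOk O ρ Γ) (hδ : 0 < δ) :
    ∃ N : ℕ, 0 < N ∧ ∀ a ∈ Icc (0 : ℝ) 1 ×ˢ Icc (0 : ℝ) 1, ∀ b ∈ Icc (0 : ℝ) 1 ×ˢ Icc (0 : ℝ) 1,
      ∀ s i, ∀ k < N, ‖Γ i (ip N a b (k + 1)).1 (ip N a b (k + 1)).2 s -
      Γ i (ip N a b k).1 (ip N a b k).2 s‖ ≤ δ := by
  have hcomp : IsCompact (Icc (0 : ℝ) 1 ×ˢ (Icc (0 : ℝ) 1 ×ˢ Icc (0 : ℝ) 1)) :=
    isCompact_Icc.prod (isCompact_Icc.prod isCompact_Icc)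
  have hcont : Continuous (fun p : ℝ × ℝ × ℝ => fun i => Γ i p.1 p.2.1 p.2.2) :=
    continuous_pi fun i => (hΓ.smooth i).continuous
  have huc := hcomp.uniformContinuousOn_of_continuous hcont.continuousOn
  rw [Metric.uniformContinuousOn_iff] at huc
  obtain ⟨η, hη, h⟩ := huc δ hδ
  obtain ⟨N, hN⟩ := exists_nat_gt (1 / η)
  have hN0 : (0 : ℝ) < N := lt_trans (by positivity) hN
  have hN1 : 1 / (N : ℝ) < η := by
    rw [div_lt_iff₀ hN0]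
    rw [div_lt_iff₀ hη] at hN
    linarith
  refine ⟨N, by exact_mod_cast hN0, ?_⟩
  intro a ha b hb s i k hk
  by_cases hs : s ≤ 0 ∨ 1 ≤ s
  · obtain ⟨z, hz⟩ := hΓ.ends i
    rw [hz _ _ _ hs, hz _ _ _ hs, sub_self, norm_zero]
    exact hδ.le
  push Not at hs
  have hs' : s ∈ Icc (0 : ℝ) 1 := ⟨hs.1.le, hs.2.le⟩
  have hd1 := div_mem (N := N) (k := k + 1) (by omega)
  have hd0 := div_mem (N := N) (k := k) (by omega)
  have m1 := ip_mem ha hb hd1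
  have m0 := ip_mem ha hb hd0
  have h1 := h ((ip N a b (k + 1)).1, (ip N a b (k + 1)).2, s) ⟨m1.1, m1.2, hs'⟩
    ((ip N a b k).1, (ip N a b k).2, s) ⟨m0.1, m0.2, hs'⟩ (by
      have g : ∀ x y : ℝ, x ∈ Icc (0 : ℝ) 1 → y ∈ Icc (0 : ℝ) 1 →
          dist (x + (((k + 1 : ℕ) : ℝ) / N) * (y - x)) (x + ((k : ℝ) / N) * (y - x)) < η := by
        intro x y hx hy
        rw [Real.dist_eq]
        have e : x + (((k + 1 : ℕ) : ℝ) / N) * (y - x) - (x + ((k : ℝ) / N) * (y - x)) =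
            (y - x) * (1 / N) := by
          push_cast; ring
        rw [e, abs_mul, abs_of_pos (show (0 : ℝ) < 1 / N by positivity)]
        have : |y - x| ≤ 1 := by rw [abs_le]; constructor <;> linarith [hx.1, hx.2, hy.1, hy.2]
        have h2 : |y - x| * (1 / N) ≤ 1 * (1 / N) :=
          mul_le_mul_of_nonneg_right this (by positivity)
        linarith
      rw [Prod.dist_eq, Prod.dist_eq, dist_self]
      exact max_lt (g _ _ ha.1 hb.1) (max_lt (g _ _ ha.2 hb.2) hη))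
  rw [dist_eq_norm] at h1
  exact (norm_le_pi_norm (_ : ι → R3) i).trans h1.le

end

end

end CH

open CH in
/-- **CH.** -/
theorem m_CH (pert : StPert) : StCh := by
  intro ι _ O ρ Γ hρ hΓ
  obtain ⟨C, hC0, hC⟩ := exists_lip hρ
  set δ : ℝ := 1 / (2 * C * (Fintype.card ι + 1)) with hδdef
  have hδ0 : 0 < δ := by positivity
  have hδ : Fintype.card ι * (C * δ) ≤ 1 / 2 := by
    have h1 : (Fintype.card ι + 1 : ℝ) * (C * δ) = 1 / 2 := by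
      rw [hδdef]; field_simp
    have h2 : 0 < C * δ := by positivity
    nlinarith
  obtain ⟨N, hN, hstep⟩ := exists_N hΓ hδ0
  have hN' : (N : ℝ) ≠ 0 := by exact_mod_cast hN.ne'
  refine ⟨fun a b => Q ρ Γ N a b N, ?_, ?_⟩
  · rintro q ⟨s, x⟩
    apply Q_fix hρ N le_rfl (Or.inl ?_)
    intro i m
    have : ∀ m, ip N q q m = q := by
      intro m
      unfold ip
      simp
    rw [this, this]
  intro a b ha hb ha' hb'
  obtain ⟨F, hF⟩ := exists_Q pert hΓ hC hC0 hδ ha hb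
    (fun t s i k hk => hstep (a t) (ha' t) (b t) (hb' t) s i k hk) N le_rfl
  have hout : ∀ t s x, (s ≤ 0 ∨ 1 ≤ s) → F.f (t, (s, x)) = (s, x) := by
    intro t s x hs
    rw [hF]
    apply Q_fix hρ N le_rfl (Or.inl ?_)
    intro i m
    obtain ⟨z, hz⟩ := hΓ.ends i
    rw [hz _ _ _ hs, hz _ _ _ hs]
  have hfix : ∀ t s x, (∀ i, ∀ τ ∈ Icc (0 : ℝ) 1, (2 * ρ) ^ 2 ≤
      nsq (x - Γ i ((a t).1 + τ * ((b t).1 - (a t).1))
        ((a t).2 + τ * ((b t).2 - (a t).2)) s)) → F.f (t, (s, x)) = (s, x) := by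
    intro t s x h
    rw [hF]
    apply Q_fix hρ N le_rfl (Or.inr ?_)
    intro i m hm
    exact h i _ (div_mem hm)
  refine ⟨F, hF, ?_, ?_, ?_, hfix⟩
  · refine ⟨⋃ i, (fun z : (ℝ × ℝ × ℝ) × R3 => ((z.1.2.2, Γ i z.1.1 z.1.2.1 z.1.2.2 + z.2) : R4)) ''
      ((Icc (0 : ℝ) 1 ×ˢ (Icc (0 : ℝ) 1 ×ˢ Icc (0 : ℝ) 1)) ×ˢ {y : R3 | nsq y ≤ (2 * ρ) ^ 2}),
      ?_, ?_, ?_⟩
    · apply isCompact_iUnion
      intro i
      apply IsCompact.image
      · exact (isCompact_Icc.prod (isCompact_Icc.prod isCompact_Icc)).prod (isCompact_nsq _)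
      · have h1 : Continuous (fun z : (ℝ × ℝ × ℝ) × R3 => Γ i z.1.1 z.1.2.1 z.1.2.2) :=
          (hΓ.smooth i).continuous.comp continuous_fst
        exact (continuous_fst.snd.snd).prodMk (h1.add continuous_snd)
    · rintro p hp
      obtain ⟨i, ⟨⟨u, q, s⟩, y⟩, ⟨⟨hu, hq, hs⟩, hy⟩, rfl⟩ := mem_iUnion.1 hp
      have hopen : IsOpen {p : R4 | -1 < p.1 ∧ p.1 < 2 ∧ rsq 0 p < (9 / 2) ^ 2} := by
        apply IsOpen.inter (isOpen_lt continuous_const continuous_fst)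
        apply IsOpen.inter (isOpen_lt continuous_fst continuous_const)
        exact isOpen_lt (continuous_rsq 0) continuous_const
      have hsub : {p : R4 | -1 < p.1 ∧ p.1 < 2 ∧ rsq 0 p < (9 / 2) ^ 2} ⊆ ball4 :=
        fun p hp => ⟨hp.1.le, hp.2.1.le, hp.2.2.le⟩
      apply interior_maximal hsub hopen
      have h1 := hΓ.inside i u hu q hq s hs (Γ i u q s + y) (by
        rw [add_sub_cancel_left]; exact hy)
      refine ⟨?_, ?_, ?_⟩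
      · show -1 < s
        linarith [hs.1]
      · show s < 2
        linarith [hs.2]
      · show nsq ((Γ i u q s + y).1 - 0, (Γ i u q s + y).2) < _
        rw [sub_zero]
        exact h1
    · rintro t ⟨s, x⟩ hx
      by_cases hs : s ≤ 0 ∨ 1 ≤ s
      · exact hout t s x hs
      push Not at hs
      have hs' : s ∈ Icc (0 : ℝ) 1 := ⟨hs.1.le, hs.2.le⟩
      apply hfix
      intro i τ hτ
      by_contra hlt
      push Not at hlt
      apply hx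
      have hm := ip_mem (ha' t) (hb' t) hτ
      refine mem_iUnion.2 ⟨i, ⟨⟨⟨(a t).1 + τ * ((b t).1 - (a t).1),
        (a t).2 + τ * ((b t).2 - (a t).2), s⟩, x - Γ i ((a t).1 + τ * ((b t).1 - (a t).1))
        ((a t).2 + τ * ((b t).2 - (a t).2)) s⟩, ⟨⟨hm.1, hm.2, hs'⟩, hlt.le⟩, ?_⟩⟩
      show (s, _ + (x - _)) = (s, x)
      rw [add_sub_cancel]
  · rintro t ⟨s, x⟩ hx
    by_cases hs : s ≤ 0 ∨ 1 ≤ s
    · exact hout t s x hs
    push Not at hs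
    have hs' : s ∈ Icc (0 : ℝ) 1 := ⟨hs.1.le, hs.2.le⟩
    apply hfix
    intro i τ hτ
    have hm := ip_mem (ha' t) (hb' t) hτ
    exact hΓ.off i _ hm.1 _ hm.2 s hs' x hx
  · intro t i s y hy
    rw [hF]
    have h1 := Q_tube hρ hΓ (N := N) (a := a t) (b := b t)
      (fun m hm => ip_mem (ha' t) (hb' t) (div_mem hm)) (s := s) i hy N le_rfl
    have e0 : ip N (a t) (b t) 0 = a t := by
      unfold ip; simp
    have e1 : ip N (a t) (b t) N = b t := by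
      unfold ip
      rw [div_self hN']; simp
    rw [e0, e1] at h1
    exact h1

end Pool.Agent.Helper27.BI
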