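import Pool.Agent.Helper27.BI.StM1

/-!
# Project BI, module PERT: perturbation of the identity
-/

set_option autoImplicit false

open scoped Manifold ContDiff Topology ComplexConjugate
open Set Pool.Agent.Helper65.Barb Pool.Agent.Helper18.BI

namespace Pool.Agent.Helper27.BI

namespace PERT

/-- the level preserving map -/
def mp (g : ℝ × R4 → R3) (p : ℝ × R4) : ℝ × R4 := (p.1, (p.2.1, p.2.2 + g p))

theorem exists_pre (g : ℝ × R4 → R3)
    (hg : ∀ t s x y, ‖g (t, (s, x)) - g (t, (s, y))‖ ≤ 1 / 2 * ‖x - y‖) (t s : ℝ) (y : R3) :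
    ∃ x : R3, x + g (t, (s, x)) = y := by
  have hl : LipschitzWith (1 / 2) (fun x : R3 => y - g (t, (s, x))) := by
    refine LipschitzWith.of_dist_le_mul fun a b => ?_
    rw [dist_eq_norm, dist_eq_norm]
    have e : y - g (t, (s, a)) - (y - g (t, (s, b))) = g (t, (s, b)) - g (t, (s, a)) := by abel
    rw [e]
    have := hg t s b a
    rw [norm_sub_rev b a] at this
    simpa using this
  have hc : ContractingWith (1 / 2) (fun x : R3 => y - g (t, (s, x))) := ⟨by norm_num, hl⟩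
  refine ⟨hc.fixedPoint, ?_⟩
  have h := hc.fixedPoint_isFixedPt
  have h2 : y - g (t, (s, hc.fixedPoint)) = hc.fixedPoint := h
  calc hc.fixedPoint + g (t, (s, hc.fixedPoint)) =
      (y - g (t, (s, hc.fixedPoint))) + g (t, (s, hc.fixedPoint)) := by rw [h2]
    _ = y := by abel

theorem key (g : ℝ × R4 → R3)
    (hg : ∀ t s x y, ‖g (t, (s, x)) - g (t, (s, y))‖ ≤ 1 / 2 * ‖x - y‖) (t s : ℝ) (x x' : R3) :
    ‖x - x'‖ ≤ 2 * ‖(x + g (t, (s, x))) - (x' + g (t, (s, x')))‖ := by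
  have h1 := hg t s x x'
  have h2 : ‖x - x'‖ ≤ ‖(x + g (t, (s, x))) - (x' + g (t, (s, x')))‖ +
      ‖g (t, (s, x)) - g (t, (s, x'))‖ := by
    have e : x - x' = ((x + g (t, (s, x))) - (x' + g (t, (s, x')))) -
        (g (t, (s, x)) - g (t, (s, x'))) := by abel
    calc ‖x - x'‖ = ‖((x + g (t, (s, x))) - (x' + g (t, (s, x')))) -
        (g (t, (s, x)) - g (t, (s, x')))‖ := by rw [← e]
      _ ≤ _ := norm_sub_le _ _
  linarith

/-- the inverse -/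
noncomputable def iv (g : ℝ × R4 → R3)
    (hg : ∀ t s x y, ‖g (t, (s, x)) - g (t, (s, y))‖ ≤ 1 / 2 * ‖x - y‖) (q : ℝ × R4) : R3 :=
  (exists_pre g hg q.1 q.2.1 q.2.2).choose

theorem iv_spec (g : ℝ × R4 → R3)
    (hg : ∀ t s x y, ‖g (t, (s, x)) - g (t, (s, y))‖ ≤ 1 / 2 * ‖x - y‖) (q : ℝ × R4) :
    iv g hg q + g (q.1, (q.2.1, iv g hg q)) = q.2.2 :=
  (exists_pre g hg q.1 q.2.1 q.2.2).choose_spec

theorem iv_mp (g : ℝ × R4 → R3)
    (hg : ∀ t s x y, ‖g (t, (s, x)) - g (t, (s, y))‖ ≤ 1 / 2 * ‖x - y‖) (p : ℝ × R4) :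
    iv g hg (mp g p) = p.2.2 := by
  have h := iv_spec g hg (mp g p)
  have h2 := key g hg p.1 p.2.1 (iv g hg (mp g p)) p.2.2
  have h3 : iv g hg (mp g p) + g (p.1, (p.2.1, iv g hg (mp g p))) = p.2.2 + g (p.1, (p.2.1, p.2.2)) := h
  rw [h3, sub_self, norm_zero, mul_zero] at h2
  exact sub_eq_zero.1 (norm_le_zero_iff.1 h2)

theorem iv_cont (g : ℝ × R4 → R3) (hc : Continuous g)
    (hg : ∀ t s x y, ‖g (t, (s, x)) - g (t, (s, y))‖ ≤ 1 / 2 * ‖x - y‖) : Continuous (iv g hg) := by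
  rw [continuous_iff_continuousAt]
  intro q₀
  set x₀ := iv g hg q₀ with hx₀
  have h0 : x₀ + g (q₀.1, (q₀.2.1, x₀)) = q₀.2.2 := iv_spec g hg q₀
  have h1 : ∀ q, ‖iv g hg q - x₀‖ ≤ 2 * ‖q.2.2 - (x₀ + g (q.1, (q.2.1, x₀)))‖ := by
    intro q
    have := key g hg q.1 q.2.1 (iv g hg q) x₀
    rwa [iv_spec g hg q] at this
  have h2 : Filter.Tendsto (fun q : ℝ × R4 => 2 * ‖q.2.2 - (x₀ + g (q.1, (q.2.1, x₀)))‖) (𝓝 q₀)
      (𝓝 0) := by
    have hcont : Continuous (fun q : ℝ × R4 => 2 * ‖q.2.2 - (x₀ + g (q.1, (q.2.1, x₀)))‖) := by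
      fun_prop
    have h3 := hcont.tendsto q₀
    rw [h0, sub_self, norm_zero, mul_zero] at h3
    exact h3
  rw [ContinuousAt, tendsto_iff_norm_sub_tendsto_zero]
  exact squeeze_zero (fun _ => norm_nonneg _) h1 h2

/-- the homeomorphism -/
noncomputable def hm (g : ℝ × R4 → R3) (hc : Continuous g)
    (hg : ∀ t s x y, ‖g (t, (s, x)) - g (t, (s, y))‖ ≤ 1 / 2 * ‖x - y‖) :
    (ℝ × R4) ≃ₜ (ℝ × R4) where
  toFun := mp g
  invFun q := (q.1, (q.2.1, iv g hg q))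
  left_inv p := by
    show (p.1, (p.2.1, iv g hg (mp g p))) = p
    rw [iv_mp]
  right_inv q := by
    show (q.1, (q.2.1, iv g hg q + g (q.1, (q.2.1, iv g hg q)))) = q
    rw [iv_spec]
  continuous_toFun := by
    unfold mp
    fun_prop
  continuous_invFun := by
    have := iv_cont g hc hg
    fun_prop

theorem fderiv_small (g : ℝ × R4 → R3) (hs : ContDiff ℝ ∞ g)
    (hg : ∀ t s x y, ‖g (t, (s, x)) - g (t, (s, y))‖ ≤ 1 / 2 * ‖x - y‖) (p : ℝ × R4) (ξ : R3) :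
    ‖fderiv ℝ g p (0, (0, ξ))‖ ≤ 1 / 2 * ‖ξ‖ := by
  have h1 : HasFDerivAt g (fderiv ℝ g p) p :=
    (hs.differentiable (by simp) p).hasFDerivAt
  let e : R3 →L[ℝ] ℝ × R4 := (ContinuousLinearMap.inr ℝ ℝ R4).comp (ContinuousLinearMap.inr ℝ ℝ R3)
  have h2 : HasFDerivAt (fun x : R3 => ((p.1, (p.2.1, x)) : ℝ × R4)) e p.2.2 := by
    have h3 : HasFDerivAt (fun x : R3 => e x + ((p.1, (p.2.1, 0)) : ℝ × R4)) e p.2.2 :=
      e.hasFDerivAt.add_const _
    refine h3.congr_of_eventuallyEq (Filter.Eventually.of_forall fun x => ?_)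
    show ((p.1, (p.2.1, x)) : ℝ × R4) = (0, (0, x)) + (p.1, (p.2.1, 0))
    simp
  have h4 : HasFDerivAt (fun x : R3 => g (p.1, (p.2.1, x))) ((fderiv ℝ g p).comp e) p.2.2 := by
    exact HasFDerivAt.comp p.2.2 h1 h2
  have hl : LipschitzWith (1 / 2) (fun x : R3 => g (p.1, (p.2.1, x))) := by
    refine LipschitzWith.of_dist_le_mul fun a b => ?_
    rw [dist_eq_norm, dist_eq_norm]
    simpa using hg p.1 p.2.1 a b
  have h5 := h4.le_of_lipschitz hl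
  have h6 := ContinuousLinearMap.le_opNorm ((fderiv ℝ g p).comp e) ξ
  have h7 : ((fderiv ℝ g p).comp e) ξ = fderiv ℝ g p (0, (0, ξ)) := rfl
  rw [h7] at h6
  refine h6.trans (mul_le_mul_of_nonneg_right ?_ (norm_nonneg _))
  simpa using h5

theorem exists_equiv (g : ℝ × R4 → R3) (hs : ContDiff ℝ ∞ g)
    (hg : ∀ t s x y, ‖g (t, (s, x)) - g (t, (s, y))‖ ≤ 1 / 2 * ‖x - y‖) (p : ℝ × R4) :
    ∃ L : (ℝ × R4) ≃L[ℝ] (ℝ × R4), HasFDerivAt (mp g) (L : (ℝ × R4) →L[ℝ] (ℝ × R4)) p := by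
  have h1 : HasFDerivAt g (fderiv ℝ g p) p :=
    (hs.differentiable (by simp) p).hasFDerivAt
  let A : (ℝ × R4) →L[ℝ] R3 :=
    (ContinuousLinearMap.snd ℝ ℝ R3).comp (ContinuousLinearMap.snd ℝ ℝ R4) + fderiv ℝ g p
  let D : (ℝ × R4) →L[ℝ] (ℝ × R4) :=
    (ContinuousLinearMap.fst ℝ ℝ R4).prod
      (((ContinuousLinearMap.fst ℝ ℝ R3).comp (ContinuousLinearMap.snd ℝ ℝ R4)).prod A)
  have hD : HasFDerivAt (mp g) D p := by
    have a1 : HasFDerivAt (fun q : ℝ × R4 => q.1) (ContinuousLinearMap.fst ℝ ℝ R4) p :=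
      (ContinuousLinearMap.fst ℝ ℝ R4).hasFDerivAt
    have a2 : HasFDerivAt (fun q : ℝ × R4 => q.2.1)
        ((ContinuousLinearMap.fst ℝ ℝ R3).comp (ContinuousLinearMap.snd ℝ ℝ R4)) p :=
      ((ContinuousLinearMap.fst ℝ ℝ R3).comp (ContinuousLinearMap.snd ℝ ℝ R4)).hasFDerivAt
    have a3 : HasFDerivAt (fun q : ℝ × R4 => q.2.2)
        ((ContinuousLinearMap.snd ℝ ℝ R3).comp (ContinuousLinearMap.snd ℝ ℝ R4)) p :=
      ((ContinuousLinearMap.snd ℝ ℝ R3).comp (ContinuousLinearMap.snd ℝ ℝ R4)).hasFDerivAt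
    exact a1.prodMk (a2.prodMk (a3.add h1))
  have hinj : Function.Injective D := by
    rw [injective_iff_map_eq_zero]
    rintro ⟨τ, σ, ξ⟩ h
    have b1 : τ = 0 := congrArg Prod.fst h
    have b2 : σ = 0 := congrArg (fun q : ℝ × R4 => q.2.1) h
    have b3 : ξ + fderiv ℝ g p (τ, (σ, ξ)) = 0 := congrArg (fun q : ℝ × R4 => q.2.2) h
    subst b1 b2
    have b4 := fderiv_small g hs hg p ξ
    have b5 : fderiv ℝ g p (0, (0, ξ)) = -ξ := by
      rw [← add_eq_zero_iff_eq_neg']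
      exact b3
    rw [b5, norm_neg] at b4
    have b6 : ‖ξ‖ ≤ 0 := by linarith [norm_nonneg ξ]
    rw [norm_le_zero_iff.1 b6]
    rfl
  refine ⟨(LinearEquiv.ofInjectiveEndo (D : (ℝ × R4) →ₗ[ℝ] (ℝ × R4)) hinj).toContinuousLinearEquiv, ?_⟩
  have hcoe : ((LinearEquiv.ofInjectiveEndo (D : (ℝ × R4) →ₗ[ℝ] (ℝ × R4))
      hinj).toContinuousLinearEquiv : (ℝ × R4) →L[ℝ] (ℝ × R4)) = D := by
    refine ContinuousLinearMap.ext fun v => ?_
    rfl
  rw [hcoe]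
  exact hD

end PERT

open PERT in
theorem m_PERT : StPert := by
  intro g hs hg
  have hc := hs.continuous
  choose L hL using exists_equiv g hs hg
  have hmp : ContDiff ℝ ∞ (mp g) := by
    unfold mp
    fun_prop
  have hinv : ContDiff ℝ ∞ (hm g hc hg).symm :=
    (hm g hc hg).contDiff_symm (f₀' := L) hL hmp
  refine ⟨⟨fun p => (p.2.1, p.2.2 + g p), fun q => (q.2.1, iv g hg q), ?_, ?_, ?_, ?_⟩, ?_⟩
  · have h : ContDiff ℝ ∞ (fun p : ℝ × R4 => ((p.2.1, p.2.2 + g p) : R4)) := by fun_prop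
    have := h.contMDiff
    rwa [modelWithCornersSelf_prod, ← chartedSpaceSelf_prod] at this
  · have h : ContDiff ℝ ∞ (fun q : ℝ × R4 => ((q.2.1, iv g hg q) : R4)) := hinv.snd
    have := h.contMDiff
    rwa [modelWithCornersSelf_prod, ← chartedSpaceSelf_prod] at this
  · rintro t ⟨s, x⟩
    show (s, iv g hg (t, (s, x)) + g (t, (s, iv g hg (t, (s, x))))) = (s, x)
    have := iv_spec g hg (t, (s, x))
    rw [this]
  · rintro t ⟨s, x⟩
    show (s, iv g hg (mp g (t, (s, x)))) = (s, x)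
    rw [iv_mp]
  · intro t s x
    rfl

end Pool.Agent.Helper27.BI
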