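import Pool.Agent.Helper27.BI.StM2

/-!
# Project BI, part (C): the motion of the second arc in coordinates
-/

set_option autoImplicit false

open scoped Manifold ContDiff Topology ComplexConjugate
open Set Pool.Agent.Helper65.Barb Pool.Agent.Helper18.BI

namespace Pool.Agent.Helper27.BI

namespace SPIN

private theorem eta_re (s : ℝ) : (eta s).re = Real.cos (phi s) := by
  rw [eta, Complex.exp_ofReal_mul_I_re, phi]

private theorem eta_im (s : ℝ) : (eta s).im = Real.sin (phi s) := by
  rw [eta, Complex.exp_ofReal_mul_I_im, phi]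

private theorem dbl (P : ℝ) : Real.sin (Real.pi * P) =
    2 * Real.sin (Real.pi / 2 * P) * Real.cos (Real.pi / 2 * P) := by
  rw [← Real.sin_two_mul]; congr 1; ring

private theorem dblc (P : ℝ) : Real.cos (Real.pi * P) =
    Real.cos (Real.pi / 2 * P) ^ 2 - Real.sin (Real.pi / 2 * P) ^ 2 := by
  rw [← Real.cos_two_mul']; congr 1; ring

private theorem quad (P : ℝ) : Real.sin (2 * Real.pi * P) =
    2 * Real.sin (Real.pi * P) * Real.cos (Real.pi * P) := by
  rw [← Real.sin_two_mul]; congr 1; ring

private theorem quadc (P : ℝ) : Real.cos (2 * Real.pi * P) =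
    1 - 2 * Real.sin (Real.pi * P) ^ 2 := by
  have h1 : Real.cos (2 * Real.pi * P) = Real.cos (2 * (Real.pi * P)) := by congr 1; ring
  rw [h1, Real.cos_two_mul]
  have h := Real.sin_sq_add_cos_sq (Real.pi * P)
  linear_combination 2 * h

end SPIN

open SPIN in
theorem m_SPIN : StSpin := by
  intro s P
  set C := Real.cos (Real.pi / 2 * P) with hC
  set S := Real.sin (Real.pi / 2 * P) with hS
  set c := Real.cos (phi s) with hc
  set d := Real.sin (phi s) with hd
  have e1 : S ^ 2 + C ^ 2 = 1 := Real.sin_sq_add_cos_sq _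
  have e2 : d ^ 2 + c ^ 2 = 1 := Real.sin_sq_add_cos_sq _
  have ar : (qa s P).re = C ^ 2 + S ^ 2 * c := by
    simp [qa, ← hC, ← hS, eta_re, ← hc, Complex.add_re, Complex.mul_re, ← Complex.ofReal_pow]
  have ai : (qa s P).im = S ^ 2 * d := by
    simp [qa, ← hC, ← hS, eta_im, ← hd, Complex.add_im, Complex.mul_im, ← Complex.ofReal_pow]
  have br : (qb s P).re = S * C * (c - 1) := by
    simp only [qb, ← hC, ← hS, Complex.re_ofReal_mul, Complex.sub_re, Complex.conj_re, eta_re,
      Complex.one_re]
    rfl
  have bi : (qb s P).im = - (S * C * d) := by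
    simp only [qb, ← hC, ← hS, Complex.im_ofReal_mul, Complex.sub_im, Complex.conj_im, eta_im,
      Complex.one_im]
    ring
  have q1 := dbl P
  have q2 := dblc P
  have q3 := quad P
  have q4 := quadc P
  rw [q1, q2] at q3
  rw [q1] at q4
  rw [spin, rot, zarc]
  refine Prod.ext ?_ (Complex.ext ?_ ?_)
  · simp only [Complex.normSq_apply, ar, ai, br, bi, mul_zero, Complex.zero_im, add_zero, one_mul,
      chi, ← hc, q4, ← hS, ← hC]
    linear_combination (S ^ 4 - S ^ 2 * C ^ 2) * e2 + (S ^ 2 + C ^ 2 + 1) * e1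
  · simp only [q1, ← hd, mul_zero, map_zero, zero_add, Complex.ofReal_one, mul_one,
      Complex.sub_re, Complex.zero_re, Complex.mul_re, Complex.mul_im, Complex.re_ofNat,
      Complex.im_ofNat, Complex.I_re, Complex.I_im, ar, ai, br, bi, ← hS, ← hC]
    linear_combination (-2 * S * C * d) * e1
  · simp only [q3, chi, ← hc, mul_zero, map_zero, zero_add, Complex.ofReal_one, mul_one,
      Complex.sub_im, Complex.zero_im, Complex.mul_re, Complex.mul_im, Complex.re_ofNat,
      Complex.im_ofNat, Complex.I_re, Complex.I_im, ar, ai, br, bi, ← hS, ← hC]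
    linear_combination (-2 * S ^ 3 * C) * e2

end Pool.Agent.Helper27.BI
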