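import Pool.Agent.Helper27.BI.GRef
import Pool.Agent.Helper27.BI.M_CH
import Pool.Agent.Helper27.BI.M_SPIN
import Pool.Agent.Helper27.BI.M_PERT
import Pool.Agent.Helper27.BI.M_KAPPA
import Pool.Agent.Helper18.BI.AsmA

/-!
# Project BI, part (C): the results, unconditionally
-/

set_option autoImplicit false

open scoped Manifold ContDiff Topology ComplexConjugate
open Set Pool.Agent.Helper65.Barb Pool.Agent.Helper18.BI

namespace Pool.Agent.Helper27.BI

theorem hSpin : StSpin := m_SPIN
theorem hCh : StCh := m_CH m_PERT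
theorem hAddM : StAddM := m_ADDM hCh hSpin
theorem hVan : StVan := m_VAN hCh hSpin
theorem hR1h : StR1h := m_R1H hCh hSpin
theorem hR1s : StR1s := m_R1S hCh hSpin
theorem hR2 : StR2 := m_R2 hCh hSpin
theorem hKap : StKap := m_Kap m_KAPPA
theorem hAddG : StAddG := m_AddG hAddM
theorem hADD2 : StADD2 := m_ADD2 hAddG hKap
theorem hRefH : StRefH := m_RefH hT6 hS4 hR1h hSpin
theorem hRefS : StRefS := m_RefS hT6 hS4 hR1s hSpin
theorem hR2sw : StR2sw := m_R2sw hT6 hS4 hR2
theorem hVanT : StVanT := m_VanT hT6 hS4 hVan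

end Pool.Agent.Helper27.BI
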