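import Pool.Agent.Helper27.BI.StM2

set_option autoImplicit false

open scoped Manifold ContDiff Topology ComplexConjugate
open Set Pool.Agent.Helper65.Barb Pool.Agent.Helper18.BI

namespace Pool.Agent.Helper27.BI

theorem m_ZNSQ : StZnsq := by
  intro A q s
  have h1 : Real.cos (2 * Real.pi * q) = 1 - 2 * Real.sin (Real.pi * q) ^ 2 := by
    rw [mul_assoc, Real.cos_two_mul, Real.cos_sq']; ring
  have h2 : Real.sin (2 * Real.pi * q) ^ 2 =
      4 * Real.sin (Real.pi * q) ^ 2 * (1 - Real.sin (Real.pi * q) ^ 2) := by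
    rw [mul_assoc, Real.sin_two_mul, mul_pow, mul_pow, Real.cos_sq']; ring
  have h3 : Real.sin (phi s) ^ 2 = 1 - Real.cos (phi s) ^ 2 := Real.sin_sq _
  unfold zarc nsq chi
  dsimp only
  rw [h1]
  generalize Real.sin (Real.pi * q) ^ 2 = S at *
  linear_combination ((1 - Real.cos (phi s)) / 2) ^ 2 * h2 + S * h3
end Pool.Agent.Helper27.BI
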