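import Pool.Agent.Helper27.BI.AddM

/-!
# Project BI, part (C): additivity in the model
-/

set_option autoImplicit false
set_option linter.unusedSectionVars false
set_option linter.unusedVariables false

open scoped Manifold ContDiff Topology ComplexConjugate
open Set Pool.Agent.Helper65.Barb Pool.Agent.Helper18.BI

namespace Pool.Agent.Helper27.BI

/-- the lifted arc -/
noncomputable def lft : Unit → ℝ → R3 := fun _ s => zarc 1 0 0 s

section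
variable {O : Set R4} {ρ : ℝ}

/-- change of speed, as an isotopy of pushes -/
theorem speed (hCh : StCh) (hρ : 0 < ρ) (hρ' : ρ ≤ 3 / 20) {c : ℝ → ℝ} (hc : ContDiff ℝ ∞ c)
    (hc01 : ∀ s, c s ∈ Icc (0 : ℝ) 1) (hce : ∀ s, (s ≤ 0 ∨ 1 ≤ s) → c s = 0)
    (hO : Near O ρ (fun s => (99 / 100 ≤ chi s ∧ c s = 1) ∨ (chi s ≤ 1 / 100 ∧ c s = 0)))
    {ΘT Θc : R4 → R4} (hT : IsPush O ρ (fun (_ : Unit) q s => zarc 1 (chi s) q s) ΘT)
    (hΘ : IsPush O ρ (fun (_ : Unit) q s => zarc 1 (c s) q s) Θc) :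
    TIso O ρ lft lft ΘT Θc := by
  have h := square hCh hρ (sqOk_two hρ hρ' hc hc01 hce hO) (Θ1 := ΘT) (Θ2 := fun x => x)
    (Θ3 := fun x => x) (Θ4 := Θc)
    (hT.congr (by intro i q hq s; simp))
    ((IsPush.const lft).congr (by intro i q hq s; simp [lft, zarc_one, zarc_zero]))
    ((IsPush.const lft).congr (by intro i q hq s; simp [lft, zarc_zero]))
    (hΘ.congr (by intro i q hq s; simp))
  exact h.congr (by intro i s; simp [lft, zarc_zero]) (by intro i s; simp [lft, zarc_zero, zarc_one])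
    (fun _ => rfl) (fun _ => rfl)

/-- the opening of the barbell path, as an isotopy of pushes -/
theorem opening (hCh : StCh) (hspin : StSpin) (hρ : 0 < ρ) (hρ' : ρ ≤ 3 / 20)
    (hO : ∀ s x, (s, x) ∈ O → rsq 0 (s, x) ≤ (3 / 20) ^ 2)
    {ΘT ΘL : R4 → R4} (hT : IsPush O ρ (fun (_ : Unit) q s => zarc 1 (chi s) q s) ΘT)
    (hL : IsPush O ρ (fun (_ : Unit) u s => zarc u 0 0 s) ΘL) :
    TIso O ρ (fun _ _ => e1) lft (fun x => ΘL (barMap x)) (fun x => ΘT (ΘL x)) := by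
  have hB : IsPush O ρ barPath barMap :=
    (isPush_barMap hspin).mono (fun p hp => (hO p.1 p.2 hp).trans (by norm_num)) hρ.le
      (hρ'.trans (by norm_num))
  have h := square hCh hρ (sqOk_one hρ hρ' hO) (Θ1 := barMap) (Θ2 := ΘL)
    (Θ3 := ΘL) (Θ4 := ΘT)
    (hB.congr (by intro i q hq s; simp [barPath]))
    (hL.congr (by intro i q hq s; simp [zarc_one, zarc_zero]))
    (hL.congr (by intro i q hq s; simp [zarc_zero]))
    (hT.congr (by intro i q hq s; simp))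
  exact h.congr (by intro i s; simp [e1, zarc_zero]; rfl)
    (by intro i s; simp [lft, zarc_zero, zarc_one]) (fun _ => rfl) (fun _ => rfl)

/-- the splitting, as an isotopy of pushes -/
theorem splitting (hCh : StCh) (hρ : 0 < ρ) (hρ' : ρ ≤ 3 / 20) {c1 c2 : ℝ → ℝ}
    (hc1 : ContDiff ℝ ∞ c1) (hc2 : ContDiff ℝ ∞ c2) (hm1 : ∀ s, c1 s ∈ Icc (0 : ℝ) 1)
    (hm2 : ∀ s, c2 s ∈ Icc (0 : ℝ) 1) (he1 : ∀ s, (s ≤ 0 ∨ 1 ≤ s) → c1 s = 0)
    (he2 : ∀ s, (s ≤ 0 ∨ 1 ≤ s) → c2 s = 0) (h12 : ∀ s, c1 s = 0 ∨ c2 s = 0)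
    (hO : Near O ρ (fun s => (c1 s = 0 ∨ c1 s = 1) ∧ (c2 s = 0 ∨ c2 s = 1)))
    {Θ1 Θ2 Θ12 : R4 → R4} (h1 : IsPush O ρ (fun (_ : Unit) q s => zarc 1 (c1 s) q s) Θ1)
    (h2 : IsPush O ρ (fun (_ : Unit) q s => zarc 1 (c2 s) q s) Θ2)
    (h3 : IsPush O ρ (fun (_ : Unit) q s => zarc 1 (c1 s + c2 s) q s) Θ12) :
    TIso O ρ lft lft (fun x => Θ2 (Θ1 x)) Θ12 := by
  have h := square hCh hρ (sqOk_three hρ hρ' hc1 hc2 hm1 hm2 he1 he2 h12 hO) (Θ1 := Θ1)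
    (Θ2 := Θ2) (Θ3 := fun x => x) (Θ4 := Θ12)
    (h1.congr (by intro i q hq s; simp [zarc2_zero_right]))
    (h2.congr (by intro i q hq s; simp [zarc2_one_left]))
    ((IsPush.const lft).congr (by intro i q hq s; simp [lft, zarc2_zero_zero]))
    (h3.congr (by intro i q hq s; simp [zarc2_same]))
  exact h.congr (by intro i s; simp [lft, zarc2_zero_zero])
    (by intro i s; simp [lft, zarc2_same, zarc_zero, zarc_one]) (fun _ => rfl) (fun _ => rfl)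

end

theorem m_ADDM (hCh : StCh) (hspin : StSpin) : StAddM := by
  intro x1 x2 hx1 hx2 hne g ρ hg hρg
  have hg0 : 0 < g := by rw [hg]; exact abs_pos.2 (sub_ne_zero.2 hne)
  have hX1 : |x1.2.re| ≤ 7 / 50 := abs_re_le (by norm_num) hx1.le
  have hX2 : |x2.2.re| ≤ 7 / 50 := abs_re_le (by norm_num) hx2.le
  have hg1 : g ≤ 7 / 25 := by
    rw [hg]; have := abs_sub x1.2.re x2.2.re; linarith
  have hρ : 0 < ρ := by rw [hρg]; positivity
  have hρ1 : ρ ≤ 1 / 100 := by rw [hρg]; linarith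
  have hρ' : ρ ≤ 3 / 20 := by linarith
  have hin : ∀ x₀ x : R3, nsq x₀ < (7 / 50) ^ 2 → nsq (x - x₀) ≤ ρ ^ 2 →
      ∀ s : ℝ, rsq 0 (s, x) ≤ (3 / 20) ^ 2 := by
    intro x₀ x h1 h2 s
    have h3 : nsq (x - x₀ + x₀) ≤ (ρ + 7 / 50) ^ 2 := nsq_add_le hρ.le (by norm_num) h2 h1.le
    rw [sub_add_cancel] at h3
    have h4 : rsq 0 (s, x) = nsq x := by simp [rsq]
    rw [h4]
    nlinarith
  have hO : ∀ s x, (s, x) ∈ ctube x1 ρ ∪ ctube x2 ρ → rsq 0 (s, x) ≤ (3 / 20) ^ 2 := by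
    rintro s x (h | h)
    · exact hin x1 x hx1 h s
    · exact hin x2 x hx2 h s
  -- the two speed functions
  set c1 : ℝ → ℝ := fun s => cloc g x1.2.re s with hc1
  set c2 : ℝ → ℝ := fun s => cloc g x2.2.re s with hc2
  have hs1 : ContDiff ℝ ∞ c1 := contDiff_cloc _ _
  have hs2 : ContDiff ℝ ∞ c2 := contDiff_cloc _ _
  have hm1 : ∀ s, c1 s ∈ Icc (0 : ℝ) 1 := cloc_mem _ _
  have hm2 : ∀ s, c2 s ∈ Icc (0 : ℝ) 1 := cloc_mem _ _
  have he1 : ∀ s, (s ≤ 0 ∨ 1 ≤ s) → c1 s = 0 := fun s hs => cloc_end _ _ hs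
  have he2 : ∀ s, (s ≤ 0 ∨ 1 ≤ s) → c2 s = 0 := fun s hs => cloc_end _ _ hs
  have h12 : ∀ s, c1 s = 0 ∨ c2 s = 0 := cloc_mul_cloc hg0 hg
  have hs12 : ContDiff ℝ ∞ (fun s => c1 s + c2 s) := hs1.add hs2
  have hm12 : ∀ s, c1 s + c2 s ∈ Icc (0 : ℝ) 1 := by
    intro s
    rcases h12 s with h | h
    · rw [h, zero_add]; exact hm2 s
    · rw [h, add_zero]; exact hm1 s
  have he12 : ∀ s, (s ≤ 0 ∨ 1 ≤ s) → c1 s + c2 s = 0 := by
    intro s hs; rw [he1 s hs, he2 s hs, add_zero]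
  -- behaviour near the strands
  have near : ∀ X : ℝ, |X| ≤ 7 / 50 → ∀ s, |-Real.sin (phi s) - X| < 3 * ρ →
      (99 / 100 ≤ chi s ∧ cloc g X s = 1) ∨
        (chi s ≤ 1 / 100 ∧ 0 ≤ Real.cos (phi s)) := by
    intro X hX s h
    have h' : |-Real.sin (phi s) - X| < g / 8 := by rw [hρg] at h; linarith
    rcases near_strand hg1 hX h' with ⟨ha, hb⟩ | ⟨ha, hb⟩
    · exact Or.inl ⟨hb, cloc_near hg0 h'.le (by linarith)⟩
    · exact Or.inr ⟨hb, by linarith⟩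
  have N1 : ∀ s, |-Real.sin (phi s) - x1.2.re| < 3 * ρ →
      (99 / 100 ≤ chi s ∧ c1 s = 1 ∧ c2 s = 0) ∨ (chi s ≤ 1 / 100 ∧ c1 s = 0 ∧ c2 s = 0) := by
    intro s h
    rcases near _ hX1 s h with ⟨ha, hb⟩ | ⟨ha, hb⟩
    · refine Or.inl ⟨ha, hb, (h12 s).resolve_left ?_⟩
      intro h0
      have : (1 : ℝ) = 0 := hb.symm.trans h0
      norm_num at this
    · exact Or.inr ⟨ha, cloc_front hb, cloc_front hb⟩
  have N2 : ∀ s, |-Real.sin (phi s) - x2.2.re| < 3 * ρ →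
      (99 / 100 ≤ chi s ∧ c1 s = 0 ∧ c2 s = 1) ∨ (chi s ≤ 1 / 100 ∧ c1 s = 0 ∧ c2 s = 0) := by
    intro s h
    rcases near _ hX2 s h with ⟨ha, hb⟩ | ⟨ha, hb⟩
    · refine Or.inl ⟨ha, (h12 s).resolve_right ?_, hb⟩
      intro h0
      have : (1 : ℝ) = 0 := hb.symm.trans h0
      norm_num at this
    · exact Or.inr ⟨ha, cloc_front hb, cloc_front hb⟩
  have near12 : ∀ P : ℝ → Prop,
      (∀ s, |-Real.sin (phi s) - x1.2.re| < 3 * ρ → P s) →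
      (∀ s, |-Real.sin (phi s) - x2.2.re| < 3 * ρ → P s) →
      Near (ctube x1 ρ ∪ ctube x2 ρ) ρ P := by
    rintro P h1 h2 s x (h | h)
    · refine ⟨x1, hx1, h, ?_⟩
      rcases le_or_gt (3 * ρ) |-Real.sin (phi s) - x1.2.re| with h' | h'
      · exact Or.inl h'
      · exact Or.inr (h1 s h')
    · refine ⟨x2, hx2, h, ?_⟩
      rcases le_or_gt (3 * ρ) |-Real.sin (phi s) - x2.2.re| with h' | h'
      · exact Or.inl h'
      · exact Or.inr (h2 s h')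
  have nearx : ∀ x₀ : R3, nsq x₀ < (7 / 50) ^ 2 → ∀ P : ℝ → Prop,
      (∀ s, |-Real.sin (phi s) - x₀.2.re| < 3 * ρ → P s) → Near (ctube x₀ ρ) ρ P := by
    intro x₀ hx₀ P h1 s x h
    refine ⟨x₀, hx₀, h, ?_⟩
    rcases le_or_gt (3 * ρ) |-Real.sin (phi s) - x₀.2.re| with h' | h'
    · exact Or.inl h'
    · exact Or.inr (h1 s h')
  have hN12 : Near (ctube x1 ρ ∪ ctube x2 ρ) ρ (fun s =>
      (99 / 100 ≤ chi s ∧ c1 s + c2 s = 1) ∨ (chi s ≤ 1 / 100 ∧ c1 s + c2 s = 0)) := by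
    apply near12
    · intro s h
      rcases N1 s h with ⟨a, b, c⟩ | ⟨a, b, c⟩
      · left; rw [b, c]; exact ⟨a, by norm_num⟩
      · right; rw [b, c]; exact ⟨a, by norm_num⟩
    · intro s h
      rcases N2 s h with ⟨a, b, c⟩ | ⟨a, b, c⟩
      · left; rw [b, c]; exact ⟨a, by norm_num⟩
      · right; rw [b, c]; exact ⟨a, by norm_num⟩
  have hN3 : Near (ctube x1 ρ ∪ ctube x2 ρ) ρ (fun s =>
      (c1 s = 0 ∨ c1 s = 1) ∧ (c2 s = 0 ∨ c2 s = 1)) := by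
    apply near12
    · intro s h
      rcases N1 s h with ⟨a, b, c⟩ | ⟨a, b, c⟩
      · exact ⟨Or.inr b, Or.inl c⟩
      · exact ⟨Or.inl b, Or.inl c⟩
    · intro s h
      rcases N2 s h with ⟨a, b, c⟩ | ⟨a, b, c⟩
      · exact ⟨Or.inl b, Or.inr c⟩
      · exact ⟨Or.inl b, Or.inl c⟩
  have hNx1 : Near (ctube x1 ρ) ρ (fun s =>
      (99 / 100 ≤ chi s ∧ c1 s = 1) ∨ (chi s ≤ 1 / 100 ∧ c1 s = 0)) := by
    apply nearx x1 hx1
    intro s h
    rcases N1 s h with ⟨a, b, c⟩ | ⟨a, b, c⟩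
    · exact Or.inl ⟨a, b⟩
    · exact Or.inr ⟨a, b⟩
  have hNx2 : Near (ctube x2 ρ) ρ (fun s =>
      (99 / 100 ≤ chi s ∧ c2 s = 1) ∨ (chi s ≤ 1 / 100 ∧ c2 s = 0)) := by
    apply nearx x2 hx2
    intro s h
    rcases N2 s h with ⟨a, b, c⟩ | ⟨a, b, c⟩
    · exact Or.inl ⟨a, c⟩
    · exact Or.inr ⟨a, c⟩
  -- the pushes
  have h01 : (0 : ℝ) ∈ Icc (0 : ℝ) 1 := by simp
  have h11 : (1 : ℝ) ∈ Icc (0 : ℝ) 1 := by simp
  have S3 := sqOk_three (O := ctube x1 ρ ∪ ctube x2 ρ) hρ hρ' hs1 hs2 hm1 hm2 he1 he2 h12 hN3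
  obtain ⟨ΘL, hL, sL⟩ := exists_push hCh hρ (sqOk_lift hρ hρ' hO)
  obtain ⟨ΘT, hT', -⟩ := exists_push hCh hρ ((sqOk_one hρ hρ' hO).fixU h11)
  obtain ⟨Θ1, hΘ1', sΘ1⟩ := exists_push hCh hρ (S3.fixU h01)
  obtain ⟨Θ2, hΘ2', sΘ2⟩ := exists_push hCh hρ (S3.fixQ h11)
  obtain ⟨Θ12, hΘ12', -⟩ := exists_push hCh hρ (S3.fixU h11)
  have hT : IsPush (ctube x1 ρ ∪ ctube x2 ρ) ρ (fun (_ : Unit) q s => zarc 1 (chi s) q s) ΘT :=
    hT'.congr (by intro i q hq s; simp)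
  have hΘ1 : IsPush (ctube x1 ρ ∪ ctube x2 ρ) ρ (fun (_ : Unit) q s => zarc 1 (c1 s) q s) Θ1 :=
    hΘ1'.congr (by intro i q hq s; simp [zarc2_zero_right])
  have hΘ2 : IsPush (ctube x1 ρ ∪ ctube x2 ρ) ρ (fun (_ : Unit) q s => zarc 1 (c2 s) q s) Θ2 :=
    hΘ2'.congr (by intro i q hq s; simp [zarc2_one_left])
  have hΘ12 : IsPush (ctube x1 ρ ∪ ctube x2 ρ) ρ
      (fun (_ : Unit) q s => zarc 1 (c1 s + c2 s) q s) Θ12 :=
    hΘ12'.congr (by intro i q hq s; simp [zarc2_same])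
  -- the isotopies
  have IO := opening hCh hspin hρ hρ' hO hT hL
  have I12 := speed hCh hρ hρ' hs12 hm12 he12 hN12 hT hΘ12
  have I3 := splitting hCh hρ hρ' hs1 hs2 hm1 hm2 he1 he2 h12 hN3 hΘ1 hΘ2 hΘ12
  have sub1 : ctube x1 ρ ⊆ ctube x1 ρ ∪ ctube x2 ρ := subset_union_left
  have sub2 : ctube x2 ρ ⊆ ctube x1 ρ ∪ ctube x2 ρ := subset_union_right
  have I1 := speed hCh hρ hρ' hs1 hm1 he1 hNx1 (hT.mono sub1 hρ.le le_rfl)
    (hΘ1.mono sub1 hρ.le le_rfl)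
  have I2 := speed hCh hρ hρ' hs2 hm2 he2 hNx2 (hT.mono sub2 hρ.le le_rfl)
    (hΘ2.mono sub2 hρ.le le_rfl)
  have tL : TIso (ctube x1 ρ ∪ ctube x2 ρ) ρ (fun (_ : Unit) _ => e1) lft ΘL ΘL :=
    hL.tIso.congr (by intro i s; simp [zarc_zero, e1]; rfl) (by intro i s; simp [lft])
      (fun _ => rfl) (fun _ => rfl)
  obtain ⟨ΘL', tL', hLL', hL'L⟩ := tL.exists_inv
  have tΘ : ∀ {c : ℝ → ℝ} {Θ : R4 → R4}, IsPush (ctube x1 ρ ∪ ctube x2 ρ) ρ
      (fun (_ : Unit) q s => zarc 1 (c s) q s) Θ →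
      TIso (ctube x1 ρ ∪ ctube x2 ρ) ρ lft lft Θ Θ := by
    intro c Θ h
    exact h.tIso.congr (by intro i s; simp [lft, zarc_zero])
      (by intro i s; simp [lft, zarc_zero, zarc_one]) (fun _ => rfl) (fun _ => rfl)
  -- the conjugate of a map by the lifting
  have hbar : TIso (ctube x1 ρ ∪ ctube x2 ρ) ρ (fun (_ : Unit) _ => e1) (fun _ _ => e1)
      barMap (fun x => ΘL' (ΘT (ΘL x))) :=
    (tL'.comp IO).congr (fun _ _ => rfl) (fun _ _ => rfl) (fun x => hL'L _) (fun _ => rfl)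
  have b1 : TIso (ctube x1 ρ ∪ ctube x2 ρ) ρ (fun (_ : Unit) _ => e1) (fun _ _ => e1)
      (fun x => ΘL' (Θ1 (ΘL x))) (fun x => ΘL' (Θ1 (ΘL x))) := tL'.comp ((tΘ hΘ1).comp tL)
  have b2 : TIso (ctube x1 ρ ∪ ctube x2 ρ) ρ (fun (_ : Unit) _ => e1) (fun _ _ => e1)
      (fun x => ΘL' (Θ2 (ΘL x))) (fun x => ΘL' (Θ2 (ΘL x))) := tL'.comp ((tΘ hΘ2).comp tL)
  -- supports
  have supL : ∀ s a w, (2 * ρ) ^ 2 ≤ (a - 1) ^ 2 + w.im ^ 2 → ΘL (s, (a, w)) = (s, (a, w)) := by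
    intro s a w h
    apply sL
    rintro ⟨⟩ q hq
    rw [zarc_zero]
    unfold nsq
    simp only [Prod.fst_sub, Prod.snd_sub, Complex.sub_re, Complex.sub_im, sub_zero]
    nlinarith [sq_nonneg (w.re - -q * Real.sin (phi s))]
  have supL' : ∀ s a w, (2 * ρ) ^ 2 ≤ (a - 1) ^ 2 + w.im ^ 2 →
      ΘL' (s, (a, w)) = (s, (a, w)) := by
    intro s a w h
    have := hL'L (s, (a, w))
    rwa [supL s a w h] at this
  have supk : ∀ (X : ℝ) (s q a : ℝ) (w : ℂ), (2 * ρ) ^ 2 ≤ (a - 1) ^ 2 + w.im ^ 2 →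
      g / 4 + 2 * ρ ≤ |w.re - X| →
      (2 * ρ) ^ 2 ≤ nsq ((a, w) - zarc 1 (cloc g X s) q s) := by
    intro X s q a w h1 h2
    by_cases h0 : cloc g X s = 0
    · rw [h0]
      have e : zarc 1 0 q s = (1, ⟨-Real.sin (phi s), 0⟩) := by simp [zarc]
      rw [e]
      unfold nsq
      simp only [Prod.fst_sub, Prod.snd_sub, Complex.sub_re, Complex.sub_im, sub_zero]
      nlinarith [sq_nonneg (w.re - -Real.sin (phi s))]
    · have h3 : |-Real.sin (phi s) - X| < g / 4 := by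
        by_contra h'
        exact h0 (cloc_far hg0 (not_lt.1 h'))
      have h4 : 2 * ρ ≤ |w.re - -Real.sin (phi s)| := by
        have e : w.re - X = (w.re - -Real.sin (phi s)) + (-Real.sin (phi s) - X) := by ring
        rw [e] at h2
        have := abs_add_le (w.re - -Real.sin (phi s)) (-Real.sin (phi s) - X)
        linarith
      have h5 : (2 * ρ) ^ 2 ≤ (w.re - -Real.sin (phi s)) ^ 2 := by
        rw [← sq_abs (w.re - -Real.sin (phi s))]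
        exact pow_le_pow_left₀ (by positivity) h4 2
      have e : ((a, w) - zarc 1 (cloc g X s) q s : R3).2.re = w.re - -Real.sin (phi s) := by
        simp [zarc]
      have := re_sq_le ((a, w) - zarc 1 (cloc g X s) q s)
      rw [e] at this
      linarith
  refine ⟨fun x => ΘL' (Θ1 (ΘL x)), fun x => ΘL' (Θ2 (ΘL x)), ?_, b1, b2, ?_, ?_, ?_, ?_⟩
  · have k1 : TIso (ctube x1 ρ ∪ ctube x2 ρ) ρ lft lft ΘT (fun x => Θ2 (Θ1 x)) :=
      I12.trans I3.symm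
    have k2 := tL'.comp (k1.comp tL)
    exact (hbar.trans k2).congr (fun _ _ => rfl) (fun _ _ => rfl) (fun _ => rfl)
      (fun x => by simp only [hLL'])
  · have k := (tL'.mono sub1 hρ.le le_rfl).comp (I1.comp (tL.mono sub1 hρ.le le_rfl))
    exact ((hbar.mono sub1 hρ.le le_rfl).trans k).symm
  · have k := (tL'.mono sub2 hρ.le le_rfl).comp (I2.comp (tL.mono sub2 hρ.le le_rfl))
    exact ((hbar.mono sub2 hρ.le le_rfl).trans k).symm
  · intro s a w h1 h2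
    have e : Θ1 (s, (a, w)) = (s, (a, w)) := by
      apply sΘ1
      rintro ⟨⟩ q hq
      rw [zero_mul, zarc2_zero_right]
      exact supk _ s q a w h1 h2
    simp only [supL s a w h1, e, supL' s a w h1]
  · intro s a w h1 h2
    have e : Θ2 (s, (a, w)) = (s, (a, w)) := by
      apply sΘ2
      rintro ⟨⟩ q hq
      rw [mul_one, zarc2_one_left]
      exact supk _ s q a w h1 h2
    simp only [supL s a w h1, e, supL' s a w h1]

end Pool.Agent.Helper27.BI
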