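import Pool.Agent.Helper27.BI.StM1

/-!
# Project BI, part (C): existence of pushes and the square lemma
-/

set_option autoImplicit false
set_option linter.unusedSectionVars false
set_option linter.unusedVariables false

open scoped Manifold ContDiff Topology ComplexConjugate
open Set Pool.Agent.Helper65.Barb Pool.Agent.Helper18.BI

namespace Pool.Agent.Helper27.BI

section
variable {ι : Type} {O : Set R4} {ρ : ℝ}

/-- Existence of pushes, with control of the support. -/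
theorem exists_push (hCh : StCh) [inst : Fintype ι] {γ : ι → ℝ → ℝ → R3} (hρ : 0 < ρ)
    (h : SqOk O ρ (fun i _ q s => γ i q s)) :
    ∃ Θ, IsPush O ρ γ Θ ∧ ∀ s x, (∀ i, ∀ q ∈ Icc (0 : ℝ) 1, (2 * ρ) ^ 2 ≤ nsq (x - γ i q s)) →
      Θ (s, x) = (s, x) := by
  obtain ⟨P, hP, h1⟩ := hCh ι inst O ρ _ hρ h
  obtain ⟨F, hF, hs, hf, ht, hx⟩ := h1 (fun _ => (0, 0)) (fun t => (0, step t)) contDiff_const
    (contDiff_const.prodMk contDiff_step) (fun t => by simp)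
    (fun t => ⟨by simp, step_mem t⟩)
  refine ⟨fun x => F.f (1, x), ⟨F, fun x => ?_, fun x => rfl, hs, fun t _ x hx => hf t x hx,
    fun t _ i s y hy => ht t i s y hy⟩, fun s x hh => hx 1 s x ?_⟩
  · rw [hF]
    simp only [step_zero]
    exact hP _ _
  · intro i τ hτ
    apply hh i
    simp only [sub_zero, zero_add, step_one, mul_one]
    exact hτ

/-- The square lemma: the two ways around an admissible square of systems of arcs give isotopic
pushes. -/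
theorem square (hCh : StCh) [inst : Fintype ι] {Γ : ι → ℝ → ℝ → ℝ → R3} (hρ : 0 < ρ)
    (h : SqOk O ρ Γ) {Θ1 Θ2 Θ3 Θ4 : R4 → R4}
    (h1 : IsPush O ρ (fun i q => Γ i 0 q) Θ1) (h2 : IsPush O ρ (fun i u => Γ i u 1) Θ2)
    (h3 : IsPush O ρ (fun i u => Γ i u 0) Θ3) (h4 : IsPush O ρ (fun i q => Γ i 1 q) Θ4) :
    TIso O ρ (fun i => Γ i 0 0) (fun i => Γ i 1 1) (fun x => Θ2 (Θ1 x)) (fun x => Θ4 (Θ3 x)) := by
  obtain ⟨P, hP, hPF⟩ := hCh ι inst O ρ _ hρ h
  have h01 : (0 : ℝ) ∈ Icc (0 : ℝ) 1 := by simp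
  have h11 : (1 : ℝ) ∈ Icc (0 : ℝ) 1 := by simp
  -- edges
  have edge : ∀ (a b : ℝ × ℝ), a ∈ Icc (0 : ℝ) 1 ×ˢ Icc (0 : ℝ) 1 →
      b ∈ Icc (0 : ℝ) 1 ×ˢ Icc (0 : ℝ) 1 → ∀ Θ : R4 → R4,
      IsPush O ρ (fun i τ s => Γ i (a.1 + τ * (b.1 - a.1)) (a.2 + τ * (b.2 - a.2)) s) Θ →
      TIso O ρ (fun i => Γ i a.1 a.2) (fun i => Γ i b.1 b.2) Θ (P a b) := by
    intro a b ha hb Θ hΘ
    have hc : ∀ t, (a.1 + step t * (b.1 - a.1), a.2 + step t * (b.2 - a.2)) ∈
        Icc (0 : ℝ) 1 ×ˢ Icc (0 : ℝ) 1 := by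
      intro t
      obtain ⟨⟨a1, a2⟩, a3, a4⟩ := ha
      obtain ⟨⟨b1, b2⟩, b3, b4⟩ := hb
      obtain ⟨s1, s2⟩ := step_mem t
      refine ⟨⟨?_, ?_⟩, ?_, ?_⟩ <;> simp only <;> nlinarith
    have hcs : ContDiff ℝ ∞ (fun t : ℝ =>
        ((a.1 + step t * (b.1 - a.1), a.2 + step t * (b.2 - a.2)) : ℝ × ℝ)) :=
      (contDiff_const.add (contDiff_step.mul contDiff_const)).prodMk
        (contDiff_const.add (contDiff_step.mul contDiff_const))
    obtain ⟨F, hF, hs, hf, ht, -⟩ := hPF (fun t => a) (fun t =>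
      (a.1 + step t * (b.1 - a.1), a.2 + step t * (b.2 - a.2))) contDiff_const hcs
      (fun t => ha) hc
    have hpush : IsPush O ρ
        (fun i τ s => Γ i (a.1 + τ * (b.1 - a.1)) (a.2 + τ * (b.2 - a.2)) s) (P a b) := by
      refine ⟨F, fun x => ?_, fun x => ?_, hs, fun t _ x hx => hf t x hx,
        fun t _ i s y hy => ?_⟩
      · rw [hF]
        simp only [step_zero, zero_mul, add_zero, Prod.mk.eta]
        exact hP _ _
      · rw [hF]
        simp only [step_one, one_mul, add_sub_cancel, Prod.mk.eta]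
      · have e := ht t i s y hy
        simp only [zero_mul, add_zero]
        exact e
    have e := hΘ.unique hpush
    simp only [zero_mul, add_zero, one_mul, add_sub_cancel] at e
    exact e
  -- composition along two segments
  have tri : ∀ (a b c : ℝ × ℝ), a ∈ Icc (0 : ℝ) 1 ×ˢ Icc (0 : ℝ) 1 →
      b ∈ Icc (0 : ℝ) 1 ×ˢ Icc (0 : ℝ) 1 → c ∈ Icc (0 : ℝ) 1 ×ˢ Icc (0 : ℝ) 1 →
      TIso O ρ (fun i => Γ i a.1 a.2) (fun i => Γ i c.1 c.2)
        (fun x => P b c (P a b x)) (P a c) := by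
    intro a b c ha hb hc
    have hm : ∀ t, (b.1 + step t * (a.1 - b.1), b.2 + step t * (a.2 - b.2)) ∈
        Icc (0 : ℝ) 1 ×ˢ Icc (0 : ℝ) 1 := by
      intro t
      obtain ⟨⟨a1, a2⟩, a3, a4⟩ := ha
      obtain ⟨⟨b1, b2⟩, b3, b4⟩ := hb
      obtain ⟨s1, s2⟩ := step_mem t
      refine ⟨⟨?_, ?_⟩, ?_, ?_⟩ <;> simp only <;> nlinarith
    have hms : ContDiff ℝ ∞ (fun t : ℝ =>
        ((b.1 + step t * (a.1 - b.1), b.2 + step t * (a.2 - b.2)) : ℝ × ℝ)) :=
      (contDiff_const.add (contDiff_step.mul contDiff_const)).prodMk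
        (contDiff_const.add (contDiff_step.mul contDiff_const))
    obtain ⟨F, hF, hs, hf, ht, -⟩ := hPF (fun t => a) (fun t =>
      (b.1 + step t * (a.1 - b.1), b.2 + step t * (a.2 - b.2))) contDiff_const hms
      (fun t => ha) hm
    obtain ⟨G, hG, gs, gf, gt, -⟩ := hPF (fun t =>
      (b.1 + step t * (a.1 - b.1), b.2 + step t * (a.2 - b.2))) (fun t => c) hms contDiff_const
      hm (fun t => hc)
    refine ⟨G.comp F, fun x => ?_, fun x => ?_, gs.comp hs, fun t x hx => ?_,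
      fun t i s y hy => ?_⟩
    · change G.f (0, F.f (0, x)) = _
      rw [hF, hG]
      simp only [step_zero, zero_mul, add_zero, Prod.mk.eta]
    · change G.f (1, F.f (1, x)) = _
      rw [hF, hG]
      simp only [step_one, one_mul, add_sub_cancel, Prod.mk.eta]
      rw [hP]
    · change G.f (t, F.f (t, x)) = _
      rw [hf t x hx, gf t x hx]
    · change G.f (t, F.f (t, _)) = _
      rw [ht t i s y hy, gt t i s y hy]
  have e1 := edge (0, 0) (0, 1) ⟨h01, h01⟩ ⟨h01, h11⟩ Θ1 (h1.congr (by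
    intro i q hq s; simp))
  have e2 := edge (0, 1) (1, 1) ⟨h01, h11⟩ ⟨h11, h11⟩ Θ2 (h2.congr (by
    intro i q hq s; simp))
  have e3 := edge (0, 0) (1, 0) ⟨h01, h01⟩ ⟨h11, h01⟩ Θ3 (h3.congr (by
    intro i q hq s; simp))
  have e4 := edge (1, 0) (1, 1) ⟨h11, h01⟩ ⟨h11, h11⟩ Θ4 (h4.congr (by
    intro i q hq s; simp))
  have t1 := tri (0, 0) (0, 1) (1, 1) ⟨h01, h01⟩ ⟨h01, h11⟩ ⟨h11, h11⟩
  have t2 := tri (0, 0) (1, 0) (1, 1) ⟨h01, h01⟩ ⟨h11, h01⟩ ⟨h11, h11⟩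
  exact ((e2.comp e1).trans t1).trans (((e4.comp e3).trans t2).symm)

end

end Pool.Agent.Helper27.BI
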