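import Pool.Agent.Helper27.BI.StM2
import Pool.Agent.Helper27.BI.Square

/-!
# Project BI, part (C): elementary geometry of the arcs
-/

set_option autoImplicit false
set_option linter.unusedSectionVars false
set_option linter.unusedVariables false

open scoped Manifold ContDiff Topology ComplexConjugate
open Set Pool.Agent.Helper65.Barb Pool.Agent.Helper18.BI

namespace Pool.Agent.Helper27.BI

/-! ### the Euclidean norm of three-space -/

theorem nsq_nonneg (x : R3) : 0 ≤ nsq x := by unfold nsq; positivity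

theorem nsq_neg (x : R3) : nsq (-x) = nsq x := by simp [nsq]

theorem nsq_sub_comm (x y : R3) : nsq (x - y) = nsq (y - x) := by
  rw [← neg_sub, nsq_neg]

/-- the inner product -/
noncomputable def ip (x y : R3) : ℝ := x.1 * y.1 + x.2.re * y.2.re + x.2.im * y.2.im

theorem ip_sq_le (x y : R3) : ip x y ^ 2 ≤ nsq x * nsq y := by
  unfold ip nsq
  nlinarith [sq_nonneg (x.1 * y.2.re - x.2.re * y.1), sq_nonneg (x.1 * y.2.im - x.2.im * y.1),
    sq_nonneg (x.2.re * y.2.im - x.2.im * y.2.re)]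

theorem nsq_add_eq (x y : R3) : nsq (x + y) = nsq x + 2 * ip x y + nsq y := by
  simp only [nsq, ip, Prod.fst_add, Prod.snd_add, Complex.add_re, Complex.add_im]; ring

/-- triangle inequality in squared form -/
theorem nsq_add_le {x y : R3} {r t : ℝ} (hr : 0 ≤ r) (ht : 0 ≤ t) (hx : nsq x ≤ r ^ 2)
    (hy : nsq y ≤ t ^ 2) : nsq (x + y) ≤ (r + t) ^ 2 := by
  have h1 : ip x y ≤ r * t := by
    have h2 : ip x y ^ 2 ≤ (r * t) ^ 2 := by
      calc ip x y ^ 2 ≤ nsq x * nsq y := ip_sq_le x y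
        _ ≤ r ^ 2 * t ^ 2 := mul_le_mul hx hy (nsq_nonneg _) (by positivity)
        _ = (r * t) ^ 2 := by ring
    exact le_of_sq_le_sq h2 (by positivity) |>.trans le_rfl
  rw [nsq_add_eq]
  nlinarith
where
  le_of_sq_le_sq {a b : ℝ} (h : a ^ 2 ≤ b ^ 2) (hb : 0 ≤ b) : a ≤ b :=
    le_trans (le_abs_self a) (by
      have := abs_le_abs_of_sq_le_sq h
      rwa [abs_of_nonneg hb] at this)
  abs_le_abs_of_sq_le_sq {a b : ℝ} (h : a ^ 2 ≤ b ^ 2) : |a| ≤ |b| := sq_le_sq.1 h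

theorem nsq_sub_le {x y : R3} {r t : ℝ} (hr : 0 ≤ r) (ht : 0 ≤ t) (hx : nsq x ≤ r ^ 2)
    (hy : nsq y ≤ t ^ 2) : nsq (x - y) ≤ (r + t) ^ 2 := by
  rw [sub_eq_add_neg]
  exact nsq_add_le hr ht hx (by rwa [nsq_neg])

/-- separation: a point of the ball of radius `r` and a point off the ball of radius `R` -/
theorem nsq_sub_ge {x z : R3} {r R d : ℝ} (hr : 0 ≤ r) (hd : 0 ≤ d) (hR : r + d ≤ R)
    (hx : nsq x ≤ r ^ 2) (hz : R ^ 2 ≤ nsq z) : d ^ 2 ≤ nsq (x - z) := by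
  by_contra h
  push Not at h
  have h1 : nsq z < R ^ 2 := by
    obtain ⟨d', hd', hd'', h2⟩ : ∃ d', 0 ≤ d' ∧ d' < d ∧ nsq (x - z) ≤ d' ^ 2 := by
      refine ⟨√(nsq (x - z)), Real.sqrt_nonneg _, ?_, ?_⟩
      · exact (Real.sqrt_lt' (lt_of_le_of_ne hd (by
          rintro rfl
          have := nsq_nonneg (x - z)
          nlinarith))).2 h
      · rw [Real.sq_sqrt (nsq_nonneg _)]
    have h3 : nsq (x - (x - z)) ≤ (r + d') ^ 2 := nsq_sub_le hr hd' hx h2
    rw [sub_sub_cancel] at h3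
    nlinarith
  linarith

theorem re_sq_le (x : R3) : x.2.re ^ 2 ≤ nsq x := by
  unfold nsq; nlinarith [sq_nonneg x.1, sq_nonneg x.2.im]

theorem abs_re_le {x : R3} {r : ℝ} (hr : 0 ≤ r) (h : nsq x ≤ r ^ 2) : |x.2.re| ≤ r :=
  abs_le_of_sq_le_sq ((re_sq_le x).trans h) hr

/-! ### the angle -/

theorem contDiff_phi : ContDiff ℝ ∞ phi := contDiff_const.mul contDiff_step

theorem contDiff_chi : ContDiff ℝ ∞ chi :=
  (contDiff_const.sub (Real.contDiff_cos.comp contDiff_phi)).div_const 2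

theorem phi_of_nonpos {s : ℝ} (h : s ≤ 0) : phi s = 0 := by
  rw [phi, step_of_nonpos h, mul_zero]

theorem phi_of_one_le {s : ℝ} (h : 1 ≤ s) : phi s = 2 * Real.pi := by
  rw [phi, step_of_one_le h, mul_one]

theorem cos_phi_end {s : ℝ} (h : s ≤ 0 ∨ 1 ≤ s) : Real.cos (phi s) = 1 := by
  rcases h with h | h
  · rw [phi_of_nonpos h, Real.cos_zero]
  · rw [phi_of_one_le h, Real.cos_two_pi]

theorem sin_phi_end {s : ℝ} (h : s ≤ 0 ∨ 1 ≤ s) : Real.sin (phi s) = 0 := by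
  rcases h with h | h
  · rw [phi_of_nonpos h, Real.sin_zero]
  · rw [phi_of_one_le h, Real.sin_two_pi]

theorem chi_end {s : ℝ} (h : s ≤ 0 ∨ 1 ≤ s) : chi s = 0 := by
  rw [chi, cos_phi_end h]; norm_num

theorem chi_mem (s : ℝ) : chi s ∈ Icc (0 : ℝ) 1 := by
  unfold chi
  constructor <;> linarith [Real.neg_one_le_cos (phi s), Real.cos_le_one (phi s)]

/-! ### the arcs -/

theorem contDiff_zarc {F : Type*} [NormedAddCommGroup F] [NormedSpace ℝ F] {A c q s : F → ℝ}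
    (hA : ContDiff ℝ ∞ A) (hc : ContDiff ℝ ∞ c) (hq : ContDiff ℝ ∞ q) (hs : ContDiff ℝ ∞ s) :
    ContDiff ℝ ∞ (fun x => zarc (A x) (c x) (q x) (s x)) := by
  have h2 : ContDiff ℝ ∞ (fun x => 2 * Real.pi * q x) := contDiff_const.mul hq
  have h3 : ContDiff ℝ ∞ (fun x => Real.cos (2 * Real.pi * q x)) := Real.contDiff_cos.comp h2
  have h4 : ContDiff ℝ ∞ (fun x => Real.sin (2 * Real.pi * q x)) := Real.contDiff_sin.comp h2
  have h5 : ContDiff ℝ ∞ (fun x => Real.sin (phi (s x))) :=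
    Real.contDiff_sin.comp (contDiff_phi.comp hs)
  unfold zarc
  apply ContDiff.prodMk
  · exact contDiff_const.add (hc.mul (h3.sub contDiff_const))
  · have : (fun x => (⟨-A x * Real.sin (phi (s x)), c x * Real.sin (2 * Real.pi * q x)⟩ : ℂ)) =
        fun x => ((-A x * Real.sin (phi (s x)) : ℝ) : ℂ) +
          ((c x * Real.sin (2 * Real.pi * q x) : ℝ) : ℂ) * Complex.I := by
      funext x
      exact Complex.mk_eq_add_mul_I _ _
    rw [this]
    exact (Complex.ofRealCLM.contDiff.comp (hA.neg.mul h5)).add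
      ((Complex.ofRealCLM.contDiff.comp (hc.mul h4)).mul contDiff_const)

theorem zarc_end (A c q : ℝ) {s : ℝ} (h : s ≤ 0 ∨ 1 ≤ s) (hc : c = 0) : zarc A c q s = e1 := by
  simp [zarc, sin_phi_end h, hc, e1]
  rfl

theorem zarc_zero (A c s : ℝ) : zarc A c 0 s = (1, ⟨-A * Real.sin (phi s), 0⟩) := by
  simp [zarc]

theorem zarc_one (A c s : ℝ) : zarc A c 1 s = (1, ⟨-A * Real.sin (phi s), 0⟩) := by
  simp [zarc]

theorem nsq_zarc (A c q s : ℝ) : nsq (zarc A c q s) =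
    1 - 2 * c * (1 - c) * (1 - Real.cos (2 * Real.pi * q)) + A ^ 2 * Real.sin (phi s) ^ 2 := by
  have h := Real.sin_sq_add_cos_sq (2 * Real.pi * q)
  simp only [nsq, zarc]
  linear_combination c ^ 2 * h

theorem nsq_zarc_le {A c : ℝ} (q s : ℝ) (hc : c ∈ Icc (0 : ℝ) 1) (hA : A ∈ Icc (0 : ℝ) 1) :
    nsq (zarc A c q s) ≤ (3 / 2) ^ 2 := by
  rw [nsq_zarc]
  have h1 := Real.cos_le_one (2 * Real.pi * q)
  have h2 := Real.sin_sq_le_one (phi s)
  have h3 : 0 ≤ 2 * c * (1 - c) * (1 - Real.cos (2 * Real.pi * q)) :=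
    mul_nonneg (mul_nonneg (by linarith [hc.1]) (by linarith [hc.2])) (by linarith)
  have h4 : A ^ 2 * Real.sin (phi s) ^ 2 ≤ 1 := by
    have : A ^ 2 ≤ 1 := by nlinarith [hA.1, hA.2]
    nlinarith [sq_nonneg (Real.sin (phi s)), sq_nonneg A]
  linarith

theorem nsq_zarc_chi (A q s : ℝ) : nsq (zarc A (chi s) q s) =
    1 + Real.sin (phi s) ^ 2 * (A ^ 2 - Real.sin (Real.pi * q) ^ 2) := by
  rw [nsq_zarc, chi]
  have h1 : Real.cos (2 * Real.pi * q) = 1 - 2 * Real.sin (Real.pi * q) ^ 2 := by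
    have : 2 * Real.pi * q = 2 * (Real.pi * q) := by ring
    rw [this, Real.cos_two_mul]
    linarith [Real.sin_sq_add_cos_sq (Real.pi * q)]
  have h2 := Real.sin_sq_add_cos_sq (phi s)
  rw [h1]
  linear_combination (Real.sin (Real.pi * q) ^ 2) * h2

/-! ### the barbell map as a push -/

/-- the path of arcs of the barbell isotopy -/
noncomputable def barPath : Unit → ℝ → ℝ → R3 :=
  fun _ q s => zarc (Real.sin (Real.pi * q)) (chi s) q s

theorem barPath_zero (i : Unit) (s : ℝ) : barPath i 0 s = e1 := by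
  simp [barPath, zarc_zero, e1]
  rfl

theorem barPath_one (i : Unit) (s : ℝ) : barPath i 1 s = e1 := by
  simp [barPath, zarc_one, e1]
  rfl

theorem isPush_of_isBarbellMap (hspin : StSpin) {β : R4 → R4} (hβ : IsBarbellMap β) :
    IsPush {p | rsq 0 p ≤ (3 / 20) ^ 2} (3 / 20) barPath β := by
  obtain ⟨Φ, h0, h1, ⟨K, hK, hKi, hKs⟩, hz, ho⟩ := hβ
  refine ⟨Φ, h0, h1, ⟨K, hK, hKi, fun t x hx => hKs t x hx⟩, fun t ht x hx => hz t ht x hx, ?_⟩
  intro t ht i s y hy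
  rw [barPath_zero]
  have e := ho t ht s y hy
  rw [hspin] at e
  exact e

theorem bfam_zero (p : R4) : bfam.f (0, p) = p := by
  rw [bfam_apply]
  have h : ∀ (c r : ℝ) (q : R4), (twist c r).g (0, q) = q := by
    intro c r q
    have := (twist c r).gf 0 q
    rwa [twist_of_time le_rfl] at this
  rw [h, h, twist_of_time le_rfl]

theorem isPush_barMap (hspin : StSpin) :
    IsPush {p | rsq 0 p ≤ (1 / 5) ^ 2} (1 / 5) barPath barMap := by
  refine ⟨bfam, bfam_zero, fun _ => rfl, ⟨tsupp 0 2, isCompact_tsupp 0 2,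
    tsupp_subset_interior, fun t p hp => bfam_support t p hp⟩, fun t _ x hx =>
    bfam_near_zero t hx, ?_⟩
  intro t ht i s y hy
  rw [barPath_zero]
  have e := bfam_near_one t s y hy
  rw [hspin] at e
  exact e

end Pool.Agent.Helper27.BI
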