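import Pool.Agent.Helper27.BI.StM1

/-!
# Project BI, part (C): the statements about the barbell map in the model
-/

set_option autoImplicit false

open scoped Manifold ContDiff Topology ComplexConjugate
open Set Pool.Agent.Helper65.Barb Pool.Agent.Helper18.BI

namespace Pool.Agent.Helper27.BI

/-- MODULE SPIN.  The motion of the second arc under the barbell isotopy in coordinates.

Proof.  Direct computation from `spin`, `rot`, `qa`, `qb`, `eta`: with `C = cos (π P / 2)`,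
`S = sin (π P / 2)`, `η = exp (i φ)`, `α = C² + S² η`, `β = S C (η̄ - 1)`, one has
`rot α β (1, 0) = (|α|² - |β|², -2 i α β)`, `2 S C = sin π P`, `C² - S² = cos π P`,
`S² = (1 - cos π P) / 2`; both sides are polynomials in `cos φ, sin φ, S, C` (with
`cos (2 π P) = 1 - 8 S² C²`, `sin (2 π P) = 4 S C (C² - S²)`), use `sin² + cos² = 1` twice
(`linear_combination`). -/
def StSpin : Prop := ∀ s P : ℝ, spin s P (1, 0) = zarc (Real.sin (Real.pi * P)) (chi s) P s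

/-- MODULE ZNSQ.  `|Z|² = 1 + sin² φ (A² - sin² π q)`.

Proof. `cos 2πq = 1 - 2 sin² πq`, `sin² 2πq = 4 sin² πq cos² πq`, `4 χ (1 - χ) = sin² φ`. -/
def StZnsq : Prop := ∀ A q s : ℝ, nsq (zarc A (chi s) q s) =
  1 + Real.sin (phi s) ^ 2 * (A ^ 2 - Real.sin (Real.pi * q) ^ 2)

/-- the closed tube of radius `r` about the vertical line over `x₀` -/
def ctube (x₀ : R3) (r : ℝ) : Set R4 := {p | nsq (p.2 - x₀) ≤ r ^ 2}

/-- the function of the level which is `1` when the moving arc passes at the back (`φ` near `π`)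
with first transversal coordinate within `g / 8` of `X`, and `0` for distance `≥ g / 4` and at the
front -/
noncomputable def cloc (g X s : ℝ) : ℝ :=
  cut (64 * (-Real.sin (phi s) - X) ^ 2 / g ^ 2) * step (-(4 * Real.cos (phi s)))

/-- MODULE ADDM (additivity in the model).  Two strands `x1`, `x2` inside the first hole with
different coordinates `X = w.re`: the barbell map (relative to both strands) is the product of two
maps `β1`, `β2`, where `βk` is isotopic to the barbell map relative to the strand `xk` only and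
is the identity away from the slab `|X - Xk| ≤ g/4 + 2ρ` and the neighbourhood of `a + i h = 1`.

Proof (helper70's section 4; `g = |X1 - X2|`, `ρ = g / 40`, all arcs indexed by `Unit`, written
`Z(A, c, q) = zarc A (c s) q s`; the base arc is `e1`, and `ℓ = Z(1, c, 0) = (1, ⟨-sin φ, 0⟩)`).
Ingredients: `exists_push`, `square` (Square.lean), `StSpin`, `StZnsq`.
(0) `barMap` is a push along `q ↦ Z(sin πq, χ, q)` relative to `{rsq 0 p ≤ (1/5)²}`, radius `1/5`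
    (`bfam_near_zero`, `bfam_near_one`, `bfam_support`, `StSpin`); use `IsPush.mono`.
(1) `ΘL`: push along `u ↦ Z(u, ·, 0)` from `e1` to `ℓ` (`exists_push`).
    Square `Γ u q = Z((1-u) sin πq + u, χ, q)`: `|Γ|² ≥ 1` for `q ∈ [0,1]` by `StZnsq`
    (`A ≥ sin πq ≥ 0`), the strands are in `|x| < 3/20`; `|Γ|² ≤ 2`.  Left and right edges are
    `u ↦ Z(u, ·, 0)` (`cos 2π = 1`, `sin 2π = 0`), so `ΘL ∘ barMap ~ ΘT ∘ ΘL` for `ΘT` a push along
    `q ↦ Z(1, χ, q)` from `ℓ` to `ℓ`.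
(2) `ck = cloc g Xk`.  Square `Γ u q = Z(1, (1-u) χ + u (c1 + c2), q)` (left and right edge
    constant): admissible: if `|-sin φ - Xj| < g/8` then `|sin φ| < 0.175`, so `|cos φ| > 0.98`;
    if `cos φ < 0` then `χ ∈ [0.99, 1]`, `cj = 1`, the other `c` is `0`, so
    `|a + i h| ≥ 2 c - 1 ≥ 0.98` for `c = (1-u) χ + u`; if `cos φ > 0`, then `χ ≤ 0.01`,
    `c1 = c2 = 0`, so `|a + i h - 1| ≤ 0.02`; in both cases the distance to the tube of `xj` is
    `> 1/2 ≥ 2ρ`.  Otherwise the `X`-distance is `≥ g/8 ≥ 2ρ + ρ`.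
    So `ΘT ~ Θ12`, push along `q ↦ Z(1, c1 + c2, q)`.
(3) Square `Γ u q = (1 + c1 (cos 2πq - 1) + c2 (cos 2πuq - 1), ⟨-sin φ, c1 sin 2πq + c2 sin 2πuq⟩)`:
    bottom `Z(1, c1, ·)`, top (`q = 1`) `u ↦ Z(1, c2, u)`, left constant, right `Z(1, c1 + c2, ·)`:
    `Θ12 ~ Θ2 ∘ Θ1` (same admissibility: near `Xj` either `cj = 1` and `|a + i h| = 1` or both
    `c`'s are `0`).
(4) `βk = ΘL⁻¹ ∘ Θk ∘ ΘL`.  Then `barMap ~ ΘL⁻¹ ΘT ΘL ~ ΘL⁻¹ Θ2 Θ1 ΘL = β2 ∘ β1`.
(5) relative to `xk` only the square `Γ u q = Z(1, (1-u) χ + u ck, q)` is admissible, so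
    `Θk ~ ΘT` and `βk ~ ΘL⁻¹ ΘT ΘL ~ barMap`.
(6) Support (from `exists_push`): `ΘL` moves only points with `(a-1)² + h² < (2ρ)²`; `Θk` only
    points with `(a-1)² + h² < (2ρ)²` (levels with `ck = 0`) or with
    `|X - Xk| < g/4 + 2ρ` (levels with `ck ≠ 0`). -/
def StAddM : Prop :=
  ∀ x1 x2 : R3, nsq x1 < (7 / 50) ^ 2 → nsq x2 < (7 / 50) ^ 2 → x1.2.re ≠ x2.2.re →
    ∀ g ρ : ℝ, g = |x1.2.re - x2.2.re| → ρ = g / 40 →
    ∃ β1 β2 : R4 → R4,
      TIso (ctube x1 ρ ∪ ctube x2 ρ) ρ (fun (_ : Unit) _ => e1) (fun _ _ => e1)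
        barMap (fun p => β2 (β1 p)) ∧
      TIso (ctube x1 ρ ∪ ctube x2 ρ) ρ (fun (_ : Unit) _ => e1) (fun _ _ => e1) β1 β1 ∧
      TIso (ctube x1 ρ ∪ ctube x2 ρ) ρ (fun (_ : Unit) _ => e1) (fun _ _ => e1) β2 β2 ∧
      TIso (ctube x1 ρ) ρ (fun (_ : Unit) _ => e1) (fun _ _ => e1) β1 barMap ∧
      TIso (ctube x2 ρ) ρ (fun (_ : Unit) _ => e1) (fun _ _ => e1) β2 barMap ∧
      (∀ s a w, (2 * ρ) ^ 2 ≤ (a - 1) ^ 2 + w.im ^ 2 → g / 4 + 2 * ρ ≤ |w.re - x1.2.re| →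
        β1 (s, (a, w)) = (s, (a, w))) ∧
      ∀ s a w, (2 * ρ) ^ 2 ≤ (a - 1) ^ 2 + w.im ^ 2 → g / 4 + 2 * ρ ≤ |w.re - x2.2.re| →
        β2 (s, (a, w)) = (s, (a, w))

/-- MODULE KAPPA.  The map pushing everything away from the strand over `x₀ = (a₀, w₀)` in the
direction of increasing `a`, identity off the slab `‖w - w₀‖ < δ` and for `a ≥ a₀ + 1/50`.

Proof. `k (a, w) = (a + η w (p a - a), w)`, `η` a smooth bump of `w ∈ ℂ`, `1` for
`‖w - w₀‖ ≤ δ / 2`, `0` for `‖w - w₀‖ ≥ δ` (`ContDiffBump`), and `p : ℝ → ℝ` smooth with `p' > 0`,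
`p a = a` for `a ≥ a₀ + 1/50`, `p a ≥ a` for all `a`, `p a ≥ a₀ + r` for `a ≥ -5`:
e.g. `p a = a₀ + 1/50 - ∫_0^(a₀ + 1/50 - a) m`, `m t = 1` for `t ≤ 0`, `m` smooth,
`1/1000 ≤ m ≤ 1`, `m t = 1/1000` for `t ≥ 1/1000` (`a₀ + 1/50 + 5 ≤ 5.2`, so the integral is at
most `1/1000 + 5.2/1000 < 1/50 - 1/100`).  For fixed `w` the map is strictly increasing in `a` with
positive derivative `(1-η) + η p'`, so `k` is injective and a local diffeomorphism (derivative
block triangular).  `nsq (k x - x₀) ≥ r²`: if `‖w - w₀‖ ≥ δ / 2 ≥ r` clear, otherwise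
`(k x).1 = p a ≥ a₀ + r`.  If `k` moves `(a, w)` then `a < a₀ + 1/50`, `‖w - w₀‖ < δ` and
`a ≤ (k (a,w)).1 ≤ a₀ + 1/50` (as `p a ≤ a₀ + 1/50` there), so
`nsq (k x) ≤ max a² (|a₀| + 1/50)² + ‖w‖²`, which gives the last two claims
(`(|a₀| + 1/50)² + (‖w₀‖ + 1/25)² ≤ (7/50 + √5/50)² < 1/25`, by the triangle inequality for the
vectors `(|a₀|, ‖w₀‖)` and `(1/50, 1/25)`; and if `|(k x).1| ≤ |a|` then
`nsq (k x) ≤ nsq x`). -/
def StKappa : Prop :=
  ∀ x₀ : R3, nsq x₀ < (7 / 50) ^ 2 → ∀ δ r : ℝ, 0 < r → r ≤ δ / 2 → r ≤ 1 / 100 → δ ≤ 1 / 25 →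
    ∃ k : R3 → R3, ContDiff ℝ ∞ k ∧ Function.Injective k ∧
      (∀ x, Function.Bijective (fderiv ℝ k x)) ∧
      (∀ x, δ ≤ ‖x.2 - x₀.2‖ → k x = x) ∧ (∀ x, x₀.1 + 1 / 50 ≤ x.1 → k x = x) ∧
      (∀ x, (k x).2 = x.2 ∧ x.1 ≤ (k x).1) ∧
      (∀ x, -5 ≤ x.1 → r ^ 2 ≤ nsq (k x - x₀)) ∧
      (∀ x, nsq x ≤ (9 / 2) ^ 2 → nsq (k x) ≤ (9 / 2) ^ 2) ∧
      ∀ x, nsq x ≤ (1 / 5) ^ 2 → nsq (k x) ≤ (1 / 5) ^ 2

/-- MODULE VAN (vanishing).  Without a strand in the first hole the barbell map is trivial.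

Proof.  Square `Γ u q s = e1 + (1-u) (zarc (sin πq) (χ s) q s - e1)`, `O = ∅`: `|Γ|² ≤ 1`
(convexity of the unit ball, `StZnsq`), all edges except the bottom are constant. -/
def StVan : Prop :=
  TIso ∅ (1 / 5) (fun (_ : Unit) _ => e1) (fun _ _ => e1) barMap (fun p => p)

/-- the inverse of the standard barbell map -/
noncomputable def barInv (p : R4) : R4 := bfam.g (1, p)

/-- reflection `h ↦ -h` -/
def refh (p : R4) : R4 := (p.1, p.2.1, conj p.2.2)

/-- reversal of the levels -/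
def refs (p : R4) : R4 := (1 - p.1, p.2.1, p.2.2)

/-- exchange of the two arcs (rotation of three-space by `π`) -/
def swp (p : R4) : R4 := (p.1, 1 - p.2.1, conj p.2.2)

/-- the two tubes of the model -/
def arc2 : Bool → ℝ → R3 := fun b _ => if b then e1 else 0

/-- MODULE R1 (reflections). -/
def StR1h : Prop := TIso ∅ (1 / 5) arc2 arc2 (fun p => refh (barMap (refh p))) barInv

/-- MODULE R1 (reversal of the levels). -/
def StR1s : Prop := TIso ∅ (1 / 5) arc2 arc2 (fun p => refs (barMap (refs p))) barInv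

/-- MODULE R2 (exchange of the arcs).  (The barbell map is replaced by an isotopic one with smaller
support, such that the conjugate is supported in the 4-ball, too.) -/
def StR2 : Prop := ∃ β : R4 → R4, TIso ∅ (1 / 5) arc2 arc2 barMap β ∧
  TIso ∅ (1 / 5) arc2 arc2 (fun p => swp (β (swp p))) barInv

end Pool.Agent.Helper27.BI
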