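import Pool.Agent.Helper27.BI.Geo

/-!
# Project BI, part (C): additivity in the model
-/

set_option autoImplicit false
set_option linter.unusedSectionVars false
set_option linter.unusedVariables false

open scoped Manifold ContDiff Topology ComplexConjugate
open Set Pool.Agent.Helper65.Barb Pool.Agent.Helper18.BI

namespace Pool.Agent.Helper27.BI

/-! ### admissibility criteria -/

/-- the squared distance of the arc from the origin, from below -/
theorem nsq_zarc_ge (A q s : ℝ) {c : ℝ} (hc : c ∈ Icc (0 : ℝ) 1) :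
    1 - 4 * c * (1 - c) ≤ nsq (zarc A c q s) := by
  rw [nsq_zarc]
  have h1 := Real.neg_one_le_cos (2 * Real.pi * q)
  have h3 : 0 ≤ c * (1 - c) := mul_nonneg hc.1 (by linarith [hc.2])
  have h4 : 0 ≤ A ^ 2 * Real.sin (phi s) ^ 2 := by positivity
  nlinarith

/-- Admissibility of families of arcs which are levelwise of the form `zarc`. -/
theorem sqOk_of_zarc {O : Set R4} {ρ : ℝ} (hρ : 0 < ρ) (hρ' : ρ ≤ 1 / 5)
    (Γ : Unit → ℝ → ℝ → ℝ → R3)
    (hs : ContDiff ℝ ∞ (fun p : ℝ × ℝ × ℝ => Γ () p.1 p.2.1 p.2.2))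
    (he : ∀ u q s : ℝ, (s ≤ 0 ∨ 1 ≤ s) → Γ () u q s = e1)
    (hz : ∀ u ∈ Icc (0 : ℝ) 1, ∀ q ∈ Icc (0 : ℝ) 1, ∀ s, ∃ A ∈ Icc (0 : ℝ) 1,
      ∃ c ∈ Icc (0 : ℝ) 1, ∃ q', Γ () u q s = zarc A c q' s)
    (ho : ∀ u ∈ Icc (0 : ℝ) 1, ∀ q ∈ Icc (0 : ℝ) 1, ∀ s ∈ Icc (0 : ℝ) 1, ∀ x : R3,
      (s, x) ∈ O → (2 * ρ) ^ 2 ≤ nsq (x - Γ () u q s)) : SqOk O ρ Γ := by
  refine ⟨fun _ => hs, fun _ => ⟨e1, he⟩, ?_, ?_, fun _ => ho⟩
  · rintro ⟨⟩ u hu q hq s hs' x hx
    obtain ⟨A, hA, c, hc, q', e⟩ := hz u hu q hq s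
    have h1 : nsq (x - Γ () u q s + Γ () u q s) ≤ (2 * ρ + 3 / 2) ^ 2 :=
      nsq_add_le (by positivity) (by norm_num) hx (by rw [e]; exact nsq_zarc_le q' s hc hA)
    rw [sub_add_cancel] at h1
    nlinarith
  · rintro ⟨⟩ ⟨⟩ h
    exact absurd rfl h

/-- a tube around a vertical line inside the first hole is avoided where `X` is far or where the
arc is far from the origin -/
theorem off_ctube {ρ : ℝ} {x₀ z x : R3} (hρ : 0 < ρ) (hρ' : ρ ≤ 3 / 20)
    (hx₀ : nsq x₀ < (7 / 50) ^ 2) (hx : nsq (x - x₀) ≤ ρ ^ 2)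
    (hz : 3 * ρ ≤ |z.2.re - x₀.2.re| ∨ (3 / 4) ^ 2 ≤ nsq z) : (2 * ρ) ^ 2 ≤ nsq (x - z) := by
  rcases hz with hz | hz
  · by_contra hcon
    push Not at hcon
    have h1 : |(x - z).2.re| ≤ 2 * ρ := abs_re_le (by positivity) hcon.le
    have h2 : |(x - x₀).2.re| ≤ ρ := abs_re_le hρ.le hx
    have h1' : |(x - z).2.re| < 2 * ρ := by
      have := re_sq_le (x - z)
      exact abs_lt_of_sq_lt_sq (lt_of_le_of_lt this hcon) (by positivity)
    have h3 : z.2.re - x₀.2.re = (x - x₀).2.re - (x - z).2.re := by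
      simp [Prod.snd_sub, Complex.sub_re]
    rw [h3] at hz
    have h4 := abs_sub ((x - x₀).2.re) ((x - z).2.re)
    linarith
  · have h1 : nsq (x - x₀ + x₀) ≤ (ρ + 7 / 50) ^ 2 := nsq_add_le hρ.le (by norm_num) hx hx₀.le
    rw [sub_add_cancel] at h1
    refine nsq_sub_ge (r := ρ + 7 / 50) (R := 3 / 4) (by positivity) (by positivity) ?_ h1 hz
    linarith

theorem off_rsq {ρ s : ℝ} {z x : R3} (hρ : 0 < ρ) (hρ' : ρ ≤ 3 / 20)
    (hx : rsq 0 (s, x) ≤ (3 / 20) ^ 2) (hz : (3 / 4) ^ 2 ≤ nsq z) :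
    (2 * ρ) ^ 2 ≤ nsq (x - z) := by
  have h1 : nsq x ≤ (3 / 20) ^ 2 := by
    have : rsq 0 (s, x) = nsq x := by simp [rsq]
    rwa [this] at hx
  exact nsq_sub_ge (r := 3 / 20) (R := 3 / 4) (by positivity) (by positivity) (by linarith) h1 hz

/-! ### the localized speed functions -/

theorem contDiff_cloc (g X : ℝ) : ContDiff ℝ ∞ (cloc g X) := by
  have h1 : ContDiff ℝ ∞ (fun s => Real.sin (phi s)) := Real.contDiff_sin.comp contDiff_phi
  have h2 : ContDiff ℝ ∞ (fun s => Real.cos (phi s)) := Real.contDiff_cos.comp contDiff_phi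
  unfold cloc
  exact (contDiff_cut.comp ((contDiff_const.mul ((h1.neg.sub contDiff_const).pow 2)).div_const _)).mul
    (contDiff_step.comp ((contDiff_const.mul h2).neg))

theorem cut_mem (u : ℝ) : cut u ∈ Icc (0 : ℝ) 1 :=
  ⟨Real.smoothTransition.nonneg _, Real.smoothTransition.le_one _⟩

theorem cloc_mem (g X s : ℝ) : cloc g X s ∈ Icc (0 : ℝ) 1 := by
  obtain ⟨h1, h2⟩ := cut_mem (64 * (-Real.sin (phi s) - X) ^ 2 / g ^ 2)
  obtain ⟨h3, h4⟩ := step_mem (-(4 * Real.cos (phi s)))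
  exact ⟨mul_nonneg h1 h3, mul_le_one₀ h2 h3 h4⟩

theorem cloc_end (g X : ℝ) {s : ℝ} (h : s ≤ 0 ∨ 1 ≤ s) : cloc g X s = 0 := by
  rw [cloc, cos_phi_end h, step_of_nonpos (by norm_num), mul_zero]

theorem cloc_front {g X s : ℝ} (h : 0 ≤ Real.cos (phi s)) : cloc g X s = 0 := by
  rw [cloc, step_of_nonpos (by linarith), mul_zero]

theorem cloc_far {g X s : ℝ} (hg : 0 < g) (h : g / 4 ≤ |-Real.sin (phi s) - X|) :
    cloc g X s = 0 := by
  rw [cloc, cut_of_ge, zero_mul]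
  rw [le_div_iff₀ (by positivity)]
  have h1 : (g / 4) ^ 2 ≤ (-Real.sin (phi s) - X) ^ 2 := by
    rw [← sq_abs (-Real.sin (phi s) - X)]
    exact pow_le_pow_left₀ (by positivity) h 2
  nlinarith

theorem cloc_near {g X s : ℝ} (hg : 0 < g) (h : |-Real.sin (phi s) - X| ≤ g / 8)
    (hc : Real.cos (phi s) ≤ -(1 / 4)) : cloc g X s = 1 := by
  rw [cloc, cut_of_le, step_of_one_le (by linarith), mul_one]
  rw [div_le_iff₀ (by positivity)]
  have h1 : (-Real.sin (phi s) - X) ^ 2 ≤ (g / 8) ^ 2 := by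
    rw [← sq_abs (-Real.sin (phi s) - X)]
    exact pow_le_pow_left₀ (abs_nonneg _) h 2
  nlinarith

/-- The two functions have disjoint supports. -/
theorem cloc_mul_cloc {g x1 x2 : ℝ} (hg : 0 < g) (h : g = |x1 - x2|) (s : ℝ) :
    cloc g x1 s = 0 ∨ cloc g x2 s = 0 := by
  by_contra hcon
  push Not at hcon
  have h1 : |-Real.sin (phi s) - x1| < g / 4 := by
    by_contra h'
    exact hcon.1 (cloc_far hg (not_lt.1 h'))
  have h2 : |-Real.sin (phi s) - x2| < g / 4 := by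
    by_contra h'
    exact hcon.2 (cloc_far hg (not_lt.1 h'))
  have h3 : x1 - x2 = (-Real.sin (phi s) - x2) - (-Real.sin (phi s) - x1) := by ring
  have h4 := abs_sub (-Real.sin (phi s) - x2) (-Real.sin (phi s) - x1)
  rw [← h3, ← h] at h4
  linarith

/-- When the first coordinate passes near a strand, either we are at the front or at the back. -/
theorem near_strand {g X s : ℝ} (hg : g ≤ 7 / 25) (hX : |X| ≤ 7 / 50)
    (h : |-Real.sin (phi s) - X| < g / 8) :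
    (Real.cos (phi s) ≤ -(49 / 50) ∧ 99 / 100 ≤ chi s) ∨
      (49 / 50 ≤ Real.cos (phi s) ∧ chi s ≤ 1 / 100) := by
  have h1 : |Real.sin (phi s)| ≤ 7 / 40 := by
    have h2 : Real.sin (phi s) = -((-Real.sin (phi s) - X) + X) := by ring
    rw [h2, abs_neg]
    have := abs_add_le (-Real.sin (phi s) - X) X
    linarith
  have h2 : Real.sin (phi s) ^ 2 ≤ (7 / 40) ^ 2 := by
    rw [← sq_abs]; exact pow_le_pow_left₀ (abs_nonneg _) h1 2
  have h3 := Real.sin_sq_add_cos_sq (phi s)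
  have h4 : (49 / 50 : ℝ) ^ 2 ≤ Real.cos (phi s) ^ 2 := by norm_num at h2 ⊢; linarith
  rcases le_total 0 (Real.cos (phi s)) with h5 | h5
  · right
    have h6 : (49 / 50 : ℝ) ≤ Real.cos (phi s) := by
      have := abs_le_abs_of_sq h4
      rwa [abs_of_nonneg h5, abs_of_nonneg (by norm_num)] at this
    exact ⟨h6, by rw [chi]; linarith⟩
  · left
    have h6 : (49 / 50 : ℝ) ≤ -Real.cos (phi s) := by
      have := abs_le_abs_of_sq h4
      rwa [abs_of_nonpos h5, abs_of_nonneg (by norm_num)] at this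
    exact ⟨by linarith, by rw [chi]; linarith⟩
where
  abs_le_abs_of_sq {a b : ℝ} (h : a ^ 2 ≤ b ^ 2) : |a| ≤ |b| := sq_le_sq.1 h

end Pool.Agent.Helper27.BI
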