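import Pool.Agent.Helper27.BI.Add

/-!
# Project BI, part (C): additivity in the model (the squares)
-/

set_option autoImplicit false
set_option linter.unusedSectionVars false
set_option linter.unusedVariables false

open scoped Manifold ContDiff Topology ComplexConjugate
open Set Pool.Agent.Helper65.Barb Pool.Agent.Helper18.BI

namespace Pool.Agent.Helper27.BI

section
variable {ι : Type} {O : Set R4} {ρ : ℝ}

theorem SqOk.fixU {Γ : ι → ℝ → ℝ → ℝ → R3} (h : SqOk O ρ Γ) {u₀ : ℝ} (hu : u₀ ∈ Icc (0 : ℝ) 1) :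
    SqOk O ρ (fun i _ q s => Γ i u₀ q s) where
  smooth i := (h.smooth i).comp (contDiff_const.prodMk contDiff_snd)
  ends i := by
    obtain ⟨b, hb⟩ := h.ends i
    exact ⟨b, fun _ q s hs => hb u₀ q s hs⟩
  inside i u _ q hq s hs x hx := h.inside i u₀ hu q hq s hs x hx
  sep i j hij u _ q hq s hs := h.sep i j hij u₀ hu q hq s hs
  off i u _ q hq s hs x hx := h.off i u₀ hu q hq s hs x hx

theorem SqOk.fixQ {Γ : ι → ℝ → ℝ → ℝ → R3} (h : SqOk O ρ Γ) {q₀ : ℝ} (hu : q₀ ∈ Icc (0 : ℝ) 1) :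
    SqOk O ρ (fun i _ u s => Γ i u q₀ s) where
  smooth i := (h.smooth i).comp
    ((contDiff_fst.comp contDiff_snd).prodMk (contDiff_const.prodMk (contDiff_snd.comp contDiff_snd)))
  ends i := by
    obtain ⟨b, hb⟩ := h.ends i
    exact ⟨b, fun _ q s hs => hb q q₀ s hs⟩
  inside i u _ q hq s hs x hx := h.inside i q hq q₀ hu s hs x hx
  sep i j hij u _ q hq s hs := h.sep i j hij q hq q₀ hu s hs
  off i u _ q hq s hs x hx := h.off i q hq q₀ hu s hs x hx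

theorem SqOk.mono {Γ : ι → ℝ → ℝ → ℝ → R3} (h : SqOk O ρ Γ) {O' : Set R4} (hO : O' ⊆ O) :
    SqOk O' ρ Γ where
  smooth := h.smooth
  ends := h.ends
  inside := h.inside
  sep := h.sep
  off i u hu q hq s hs x hx := h.off i u hu q hq s hs x (hO hx)

theorem TIso.congr {z0 z1 z0' z1' : ι → ℝ → R3} {φ ψ φ' ψ' : R4 → R4}
    (h : TIso O ρ z0 z1 φ ψ) (h0 : ∀ i s, z0 i s = z0' i s) (h1 : ∀ i s, z1 i s = z1' i s)
    (hφ : ∀ x, φ x = φ' x) (hψ : ∀ x, ψ x = ψ' x) : TIso O ρ z0' z1' φ' ψ' := by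
  obtain rfl : z0 = z0' := by funext i s; exact h0 i s
  obtain rfl : z1 = z1' := by funext i s; exact h1 i s
  obtain rfl : φ = φ' := by funext x; exact hφ x
  obtain rfl : ψ = ψ' := by funext x; exact hψ x
  exact h

end

/-! ### the squares -/

theorem sin_pi_nonneg {q : ℝ} (h : q ∈ Icc (0 : ℝ) 1) : 0 ≤ Real.sin (Real.pi * q) := by
  apply Real.sin_nonneg_of_nonneg_of_le_pi
  · exact mul_nonneg Real.pi_pos.le h.1
  · nlinarith [Real.pi_pos, h.2]

section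
variable {O : Set R4} {ρ : ℝ}

/-- opening up of the path of the barbell map -/
theorem sqOk_one (hρ : 0 < ρ) (hρ' : ρ ≤ 3 / 20)
    (hO : ∀ s x, (s, x) ∈ O → rsq 0 (s, x) ≤ (3 / 20) ^ 2) :
    SqOk O ρ (fun (_ : Unit) u q s =>
      zarc ((1 - u) * Real.sin (Real.pi * q) + u) (chi s) q s) := by
  have hA : ∀ u ∈ Icc (0 : ℝ) 1, ∀ q ∈ Icc (0 : ℝ) 1,
      (1 - u) * Real.sin (Real.pi * q) + u ∈ Icc (0 : ℝ) 1 := by
    rintro u ⟨hu0, hu1⟩ q hq
    have h1 := sin_pi_nonneg hq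
    have h2 := Real.sin_le_one (Real.pi * q)
    constructor <;> nlinarith
  refine sqOk_of_zarc hρ (hρ'.trans (by norm_num)) _ ?_ ?_ ?_ ?_
  · have hq : ContDiff ℝ ∞ (fun p : ℝ × ℝ × ℝ => p.2.1) := contDiff_fst.comp contDiff_snd
    have hs : ContDiff ℝ ∞ (fun p : ℝ × ℝ × ℝ => p.2.2) := contDiff_snd.comp contDiff_snd
    exact contDiff_zarc (((contDiff_const.sub contDiff_fst).mul
      (Real.contDiff_sin.comp (contDiff_const.mul hq))).add contDiff_fst)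
      (contDiff_chi.comp hs) hq hs
  · intro u q s hs
    exact zarc_end _ _ _ hs (chi_end hs)
  · intro u hu q hq s
    exact ⟨_, hA u hu q hq, _, chi_mem s, q, rfl⟩
  · intro u hu q hq s hs x hx
    refine off_rsq hρ hρ' (hO s x hx) ?_
    rw [nsq_zarc_chi]
    have h1 := sin_pi_nonneg hq
    have h2 := Real.sin_le_one (Real.pi * q)
    have h3 : Real.sin (Real.pi * q) ≤ (1 - u) * Real.sin (Real.pi * q) + u := by
      nlinarith [hu.1, hu.2]
    have h4 : Real.sin (Real.pi * q) ^ 2 ≤ ((1 - u) * Real.sin (Real.pi * q) + u) ^ 2 :=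
      pow_le_pow_left₀ h1 h3 2
    have h5 : 0 ≤ Real.sin (phi s) ^ 2 *
        (((1 - u) * Real.sin (Real.pi * q) + u) ^ 2 - Real.sin (Real.pi * q) ^ 2) :=
      mul_nonneg (sq_nonneg _) (by linarith)
    linarith

/-- the lifting of the second arc -/
theorem sqOk_lift (hρ : 0 < ρ) (hρ' : ρ ≤ 3 / 20)
    (hO : ∀ s x, (s, x) ∈ O → rsq 0 (s, x) ≤ (3 / 20) ^ 2) :
    SqOk O ρ (fun (_ : Unit) _ u s => zarc u 0 0 s) := by
  refine sqOk_of_zarc hρ (hρ'.trans (by norm_num)) _ ?_ ?_ ?_ ?_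
  · have hq : ContDiff ℝ ∞ (fun p : ℝ × ℝ × ℝ => p.2.1) := contDiff_fst.comp contDiff_snd
    have hs : ContDiff ℝ ∞ (fun p : ℝ × ℝ × ℝ => p.2.2) := contDiff_snd.comp contDiff_snd
    exact contDiff_zarc hq contDiff_const contDiff_const hs
  · intro u q s hs
    exact zarc_end _ _ _ hs rfl
  · intro u hu q hq s
    exact ⟨_, hq, 0, by simp, 0, rfl⟩
  · intro u hu q hq s hs x hx
    refine off_rsq hρ hρ' (hO s x hx) (le_trans ?_ (nsq_zarc_ge _ _ _ (by simp)))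
    norm_num

/-- the obstacle is near strands, which are passed at the front or at the back -/
def Near (O : Set R4) (ρ : ℝ) (P : ℝ → Prop) : Prop :=
  ∀ s x, (s, x) ∈ O → ∃ x₀ : R3, nsq x₀ < (7 / 50) ^ 2 ∧ nsq (x - x₀) ≤ ρ ^ 2 ∧
    (3 * ρ ≤ |-Real.sin (phi s) - x₀.2.re| ∨ P s)

/-- the change of speed -/
theorem sqOk_two (hρ : 0 < ρ) (hρ' : ρ ≤ 3 / 20) {c : ℝ → ℝ} (hc : ContDiff ℝ ∞ c)
    (hc01 : ∀ s, c s ∈ Icc (0 : ℝ) 1) (hce : ∀ s, (s ≤ 0 ∨ 1 ≤ s) → c s = 0)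
    (hO : Near O ρ (fun s => (99 / 100 ≤ chi s ∧ c s = 1) ∨ (chi s ≤ 1 / 100 ∧ c s = 0))) :
    SqOk O ρ (fun (_ : Unit) u q s => zarc 1 ((1 - u) * chi s + u * c s) q s) := by
  have hA : ∀ u ∈ Icc (0 : ℝ) 1, ∀ s, (1 - u) * chi s + u * c s ∈ Icc (0 : ℝ) 1 := by
    rintro u ⟨hu0, hu1⟩ s
    obtain ⟨h1, h2⟩ := hc01 s
    obtain ⟨h3, h4⟩ := chi_mem s
    constructor <;> nlinarith
  refine sqOk_of_zarc hρ (hρ'.trans (by norm_num)) _ ?_ ?_ ?_ ?_
  · have hq : ContDiff ℝ ∞ (fun p : ℝ × ℝ × ℝ => p.2.1) := contDiff_fst.comp contDiff_snd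
    have hs : ContDiff ℝ ∞ (fun p : ℝ × ℝ × ℝ => p.2.2) := contDiff_snd.comp contDiff_snd
    exact contDiff_zarc contDiff_const (((contDiff_const.sub contDiff_fst).mul
      (contDiff_chi.comp hs)).add (contDiff_fst.mul (hc.comp hs))) hq hs
  · intro u q s hs
    exact zarc_end _ _ _ hs (by rw [chi_end hs, hce s hs]; ring)
  · intro u hu q hq s
    exact ⟨1, by simp, _, hA u hu s, q, rfl⟩
  · intro u hu q hq s hs x hx
    obtain ⟨x₀, hx₀, hxx, h⟩ := hO s x hx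
    refine off_ctube hρ hρ' hx₀ hxx ?_
    rcases h with h | h
    · left
      have e : (zarc 1 ((1 - u) * chi s + u * c s) q s).2.re = -Real.sin (phi s) := by
        simp [zarc]
      rw [e]
      exact h
    · right
      refine le_trans ?_ (nsq_zarc_ge _ _ _ (hA u hu s))
      obtain ⟨h3, h4⟩ := chi_mem s
      have hcc : ((1 - u) * chi s + u * c s) * (1 - ((1 - u) * chi s + u * c s)) ≤ 1 / 100 := by
        have hm := hA u hu s
        rcases h with ⟨h1, h2⟩ | ⟨h1, h2⟩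
        · have h5 : 1 - ((1 - u) * chi s + u * c s) ≤ 1 / 100 := by
            rw [h2]; nlinarith [hu.1, hu.2]
          have h6 : 0 ≤ 1 - ((1 - u) * chi s + u * c s) := by linarith [hm.2]
          calc _ ≤ 1 * (1 - ((1 - u) * chi s + u * c s)) :=
                mul_le_mul_of_nonneg_right hm.2 h6
            _ ≤ 1 / 100 := by linarith
        · have h5 : (1 - u) * chi s + u * c s ≤ 1 / 100 := by
            rw [h2]; nlinarith [hu.1, hu.2]
          have h6 : 1 - ((1 - u) * chi s + u * c s) ≤ 1 := by linarith [hm.1]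
          calc _ ≤ ((1 - u) * chi s + u * c s) * 1 :=
                mul_le_mul_of_nonneg_left h6 hm.1
            _ ≤ 1 / 100 := by linarith
      norm_num
      nlinarith

/-- arcs with two speeds -/
noncomputable def zarc2 (c1 c2 q1 q2 s : ℝ) : R3 :=
  (1 + c1 * (Real.cos (2 * Real.pi * q1) - 1) + c2 * (Real.cos (2 * Real.pi * q2) - 1),
    ⟨-Real.sin (phi s), c1 * Real.sin (2 * Real.pi * q1) + c2 * Real.sin (2 * Real.pi * q2)⟩)

theorem zarc2_left (c2 q1 q2 s : ℝ) : zarc2 0 c2 q1 q2 s = zarc 1 c2 q2 s := by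
  simp [zarc2, zarc]

theorem zarc2_right (c1 q1 q2 s : ℝ) : zarc2 c1 0 q1 q2 s = zarc 1 c1 q1 s := by
  simp [zarc2, zarc]

theorem zarc2_same (c1 c2 q s : ℝ) : zarc2 c1 c2 q q s = zarc 1 (c1 + c2) q s := by
  refine Prod.ext ?_ (Complex.ext ?_ ?_)
  · simp only [zarc2, zarc]; ring
  · simp [zarc2, zarc]
  · simp only [zarc2, zarc]; ring

theorem zarc2_zero_right (c1 c2 q s : ℝ) : zarc2 c1 c2 q 0 s = zarc 1 c1 q s := by
  simp [zarc2, zarc]

theorem zarc2_one_left (c1 c2 q s : ℝ) : zarc2 c1 c2 1 q s = zarc 1 c2 q s := by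
  simp [zarc2, zarc]

theorem zarc2_zero_zero (c1 c2 s : ℝ) : zarc2 c1 c2 0 0 s = zarc 1 0 0 s := by
  simp [zarc2, zarc]

theorem contDiff_zarc2 {F : Type*} [NormedAddCommGroup F] [NormedSpace ℝ F]
    {c1 c2 q1 q2 s : F → ℝ} (hc1 : ContDiff ℝ ∞ c1) (hc2 : ContDiff ℝ ∞ c2)
    (hq1 : ContDiff ℝ ∞ q1) (hq2 : ContDiff ℝ ∞ q2) (hs : ContDiff ℝ ∞ s) :
    ContDiff ℝ ∞ (fun x => zarc2 (c1 x) (c2 x) (q1 x) (q2 x) (s x)) := by
  have hcos : ∀ {q : F → ℝ}, ContDiff ℝ ∞ q →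
      ContDiff ℝ ∞ (fun x => Real.cos (2 * Real.pi * q x)) := fun h =>
    Real.contDiff_cos.comp (contDiff_const.mul h)
  have hsin : ∀ {q : F → ℝ}, ContDiff ℝ ∞ q →
      ContDiff ℝ ∞ (fun x => Real.sin (2 * Real.pi * q x)) := fun h =>
    Real.contDiff_sin.comp (contDiff_const.mul h)
  have h5 : ContDiff ℝ ∞ (fun x => Real.sin (phi (s x))) :=
    Real.contDiff_sin.comp (contDiff_phi.comp hs)
  unfold zarc2
  apply ContDiff.prodMk
  · exact (contDiff_const.add (hc1.mul ((hcos hq1).sub contDiff_const))).add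
      (hc2.mul ((hcos hq2).sub contDiff_const))
  · have : (fun x => (⟨-Real.sin (phi (s x)), c1 x * Real.sin (2 * Real.pi * q1 x) +
          c2 x * Real.sin (2 * Real.pi * q2 x)⟩ : ℂ)) =
        fun x => ((-Real.sin (phi (s x)) : ℝ) : ℂ) +
          ((c1 x * Real.sin (2 * Real.pi * q1 x) +
          c2 x * Real.sin (2 * Real.pi * q2 x) : ℝ) : ℂ) * Complex.I := by
      funext x
      exact Complex.mk_eq_add_mul_I _ _
    rw [this]
    exact (Complex.ofRealCLM.contDiff.comp h5.neg).add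
      ((Complex.ofRealCLM.contDiff.comp ((hc1.mul (hsin hq1)).add (hc2.mul (hsin hq2)))).mul
        contDiff_const)

/-- the splitting of the motion -/
theorem sqOk_three (hρ : 0 < ρ) (hρ' : ρ ≤ 3 / 20) {c1 c2 : ℝ → ℝ} (hc1 : ContDiff ℝ ∞ c1)
    (hc2 : ContDiff ℝ ∞ c2) (hm1 : ∀ s, c1 s ∈ Icc (0 : ℝ) 1) (hm2 : ∀ s, c2 s ∈ Icc (0 : ℝ) 1)
    (he1 : ∀ s, (s ≤ 0 ∨ 1 ≤ s) → c1 s = 0) (he2 : ∀ s, (s ≤ 0 ∨ 1 ≤ s) → c2 s = 0)
    (h12 : ∀ s, c1 s = 0 ∨ c2 s = 0)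
    (hO : Near O ρ (fun s => (c1 s = 0 ∨ c1 s = 1) ∧ (c2 s = 0 ∨ c2 s = 1))) :
    SqOk O ρ (fun (_ : Unit) u q s => zarc2 (c1 s) (c2 s) q (u * q) s) := by
  refine sqOk_of_zarc hρ (hρ'.trans (by norm_num)) _ ?_ ?_ ?_ ?_
  · have hq : ContDiff ℝ ∞ (fun p : ℝ × ℝ × ℝ => p.2.1) := contDiff_fst.comp contDiff_snd
    have hs : ContDiff ℝ ∞ (fun p : ℝ × ℝ × ℝ => p.2.2) := contDiff_snd.comp contDiff_snd
    exact contDiff_zarc2 (hc1.comp hs) (hc2.comp hs) hq (contDiff_fst.mul hq) hs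
  · intro u q s hs
    simp only [he1 s hs, zarc2_left]
    exact zarc_end _ _ _ hs (he2 s hs)
  · intro u hu q hq s
    rcases h12 s with h | h
    · exact ⟨1, by simp, c2 s, hm2 s, u * q, by simp only [h, zarc2_left]⟩
    · exact ⟨1, by simp, c1 s, hm1 s, q, by simp only [h, zarc2_right]⟩
  · intro u hu q hq s hs x hx
    obtain ⟨x₀, hx₀, hxx, h⟩ := hO s x hx
    refine off_ctube hρ hρ' hx₀ hxx ?_
    rcases h with h | ⟨ha, hb⟩
    · left
      have e : (zarc2 (c1 s) (c2 s) q (u * q) s).2.re = -Real.sin (phi s) := by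
        simp [zarc2]
      rw [e]
      exact h
    · right
      have key : ∀ c q', c = 0 ∨ c = 1 → (3 / 4 : ℝ) ^ 2 ≤ nsq (zarc 1 c q' s) := by
        intro c q' hc
        refine le_trans ?_ (nsq_zarc_ge _ _ _ (by rcases hc with rfl | rfl <;> simp))
        rcases hc with rfl | rfl <;> norm_num
      rcases h12 s with h | h
      · simp only [h, zarc2_left]
        exact key _ _ hb
      · simp only [h, zarc2_right]
        exact key _ _ ha

end

end Pool.Agent.Helper27.BI
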