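import Pool.Agent.Helper27.BI.ChDefs

/-!
# Project BI, part (C): formal properties of `TIso` and `IsPush`
-/

set_option autoImplicit false
set_option linter.unusedSectionVars false
set_option linter.unusedVariables false

open scoped Manifold ContDiff Topology ComplexConjugate
open Set Pool.Agent.Helper65.Barb Pool.Agent.Helper18.BI

namespace Pool.Agent.Helper27.BI

theorem SuppB.inv {F : DFam 𝓘(ℝ, R4) R4} (h : SuppB F) : SuppB F.inv := by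
  obtain ⟨K, hK, hK2, h⟩ := h
  exact ⟨K, hK, hK2, fun t x hx => F.support_inv h t hx⟩

theorem SuppB.comp {F G : DFam 𝓘(ℝ, R4) R4} (h : SuppB F) (h' : SuppB G) : SuppB (F.comp G) := by
  obtain ⟨K, hK, hK2, h⟩ := h
  obtain ⟨K', hK', hK2', h'⟩ := h'
  refine ⟨K ∪ K', hK.union hK', union_subset hK2 hK2', fun t x hx => ?_⟩
  have h1 : x ∉ K := fun hx' => hx (Or.inl hx')
  have h2 : x ∉ K' := fun hx' => hx (Or.inr hx')
  change F.f (t, G.f (t, x)) = x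
  rw [h' t x h2, h t x h1]

theorem SuppB.reparam {F : DFam 𝓘(ℝ, R4) R4} (h : SuppB F) (τ : ℝ → ℝ) (hτ : ContDiff ℝ ∞ τ) :
    SuppB (F.reparam τ hτ) := by
  obtain ⟨K, hK, hK2, h⟩ := h
  exact ⟨K, hK, hK2, fun t x hx => h (τ t) x hx⟩

theorem SuppB.freeze {F : DFam 𝓘(ℝ, R4) R4} (h : SuppB F) (t₀ : ℝ) : SuppB (F.freeze t₀) :=
  h.reparam _ _

theorem suppB_one : SuppB DFam.one :=
  ⟨∅, isCompact_empty, empty_subset _, fun _ _ _ => rfl⟩

theorem DFam.g_eq {F : DFam 𝓘(ℝ, R4) R4} {t : ℝ} {p q : R4} (h : F.f (t, p) = q) :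
    F.g (t, q) = p := by rw [← h, F.gf]

section
variable {ι : Type} {O : Set R4} {ρ : ℝ}

theorem TIso.mono {O' : Set R4} {ρ' : ℝ} {z0 z1 : ι → ℝ → R3} {φ ψ : R4 → R4}
    (h : TIso O ρ z0 z1 φ ψ) (hO : O' ⊆ O) (h0 : 0 ≤ ρ') (hρ : ρ' ≤ ρ) :
    TIso O' ρ' z0 z1 φ ψ := by
  obtain ⟨F, h0', h1, hs, hf, ht⟩ := h
  exact ⟨F, h0', h1, hs, fun t x hx => hf t x (hO hx),
    fun t i s y hy => ht t i s y (hy.trans (by nlinarith))⟩

theorem TIso.refl_of {z0 z1 : ι → ℝ → R3} {φ ψ : R4 → R4} (h : TIso O ρ z0 z1 φ ψ) :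
    TIso O ρ z0 z1 φ φ := by
  obtain ⟨F, h0, h1, hs, hf, ht⟩ := h
  exact ⟨F.freeze 0, fun x => h0 x, fun x => h0 x, hs.freeze 0, fun t x hx => hf 0 x hx,
    fun t i s y hy => ht 0 i s y hy⟩

theorem TIso.symm {z0 z1 : ι → ℝ → R3} {φ ψ : R4 → R4} (h : TIso O ρ z0 z1 φ ψ) :
    TIso O ρ z0 z1 ψ φ := by
  obtain ⟨F, h0, h1, hs, hf, ht⟩ := h
  have hτ : ContDiff ℝ ∞ (fun t : ℝ => 1 - t) := contDiff_const.sub contDiff_id
  refine ⟨F.reparam (fun t => 1 - t) hτ, fun x => ?_, fun x => ?_, hs.reparam _ _,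
    fun t x hx => hf _ x hx, fun t i s y hy => ht _ i s y hy⟩
  · change F.f (1 - 0, x) = _
    rw [sub_zero, h1]
  · change F.f (1 - 1, x) = _
    rw [sub_self, h0]

theorem TIso.comp {z0 z1 z2 : ι → ℝ → R3} {φ ψ φ' ψ' : R4 → R4} (h' : TIso O ρ z1 z2 φ' ψ')
    (h : TIso O ρ z0 z1 φ ψ) : TIso O ρ z0 z2 (fun x => φ' (φ x)) (fun x => ψ' (ψ x)) := by
  obtain ⟨F, h0, h1, hs, hf, ht⟩ := h
  obtain ⟨F', h0', h1', hs', hf', ht'⟩ := h'
  refine ⟨F'.comp F, fun x => ?_, fun x => ?_, hs'.comp hs, fun t x hx => ?_,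
    fun t i s y hy => ?_⟩
  · change F'.f (0, F.f (0, x)) = _
    rw [h0, h0']
  · change F'.f (1, F.f (1, x)) = _
    rw [h1, h1']
  · change F'.f (t, F.f (t, x)) = _
    rw [hf t x hx, hf' t x hx]
  · change F'.f (t, F.f (t, _)) = _
    rw [ht t i s y hy, ht' t i s y hy]

theorem TIso.trans {z0 z1 : ι → ℝ → R3} {φ ψ χ : R4 → R4} (h : TIso O ρ z0 z1 φ ψ)
    (h' : TIso O ρ z0 z1 ψ χ) : TIso O ρ z0 z1 φ χ := by
  obtain ⟨F, h0, h1, hs, hf, ht⟩ := h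
  obtain ⟨G, g0, g1, gs, gf, gt⟩ := h'
  refine ⟨G.comp ((F.freeze 1).inv.comp F), fun x => ?_, fun x => ?_,
    gs.comp (((hs.freeze 1).inv).comp hs), fun t x hx => ?_, fun t i s y hy => ?_⟩
  · change G.f (0, F.g (1, F.f (0, x))) = _
    rw [g0, ← h1, F.fg, h0]
  · change G.f (1, F.g (1, F.f (1, x))) = _
    rw [F.gf, g1]
  · change G.f (t, F.g (1, F.f (t, x))) = _
    rw [hf t x hx, DFam.g_eq (hf 1 x hx), gf t x hx]
  · change G.f (t, F.g (1, F.f (t, _))) = _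
    rw [ht t i s y hy, DFam.g_eq (ht 1 i s y hy), gt t i s y hy]

/-- a member of an isotopy has an inverse of the same kind -/
theorem TIso.exists_inv {z0 z1 : ι → ℝ → R3} {φ : R4 → R4} (h : TIso O ρ z0 z1 φ φ) :
    ∃ φ' : R4 → R4, TIso O ρ z1 z0 φ' φ' ∧ (∀ x, φ (φ' x) = x) ∧ ∀ x, φ' (φ x) = x := by
  obtain ⟨F, h0, h1, hs, hf, ht⟩ := h
  refine ⟨fun x => F.g (0, x), ⟨F.inv.freeze 0, fun x => rfl, fun x => rfl,
    (hs.inv).freeze 0, fun t x hx => DFam.g_eq (hf 0 x hx),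
    fun t i s y hy => DFam.g_eq (ht 0 i s y hy)⟩, fun x => ?_, fun x => ?_⟩
  · have := F.fg 0 x
    rwa [h0] at this
  · have := F.gf 0 x
    rwa [h0] at this

theorem TIso.inv {z0 z1 : ι → ℝ → R3} {φ ψ φ' ψ' : R4 → R4} (h : TIso O ρ z0 z1 φ ψ)
    (hφ : ∀ x, φ (φ' x) = x) (hψ : ∀ x, ψ (ψ' x) = x) : TIso O ρ z1 z0 φ' ψ' := by
  obtain ⟨F, h0, h1, hs, hf, ht⟩ := h
  refine ⟨F.inv, fun x => ?_, fun x => ?_, hs.inv, fun t x hx => DFam.g_eq (hf t x hx),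
    fun t i s y hy => DFam.g_eq (ht t i s y hy)⟩
  · have := F.gf 0 (φ' x)
    rw [h0, hφ] at this
    exact this
  · have := F.gf 1 (ψ' x)
    rw [h1, hψ] at this
    exact this

theorem TIso.one (z : ι → ℝ → R3) : TIso O ρ z z (fun x => x) (fun x => x) :=
  ⟨DFam.one, fun _ => rfl, fun _ => rfl, suppB_one, fun _ _ _ => rfl, fun _ _ _ _ _ => rfl⟩

/-! ### pushes -/

theorem step_zero : step 0 = 0 := step_of_nonpos le_rfl

theorem step_one : step 1 = 1 := step_of_one_le le_rfl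

theorem step_symm (t : ℝ) : step (1 - t) = 1 - step t := by
  unfold step Real.smoothTransition
  have h := Real.smoothTransition.pos_denom t
  rw [sub_sub_cancel, eq_sub_iff_add_eq, add_comm (expNegInvGlue (1 - t)) (expNegInvGlue t),
    ← add_div]
  rw [add_comm (expNegInvGlue (1 - t)), div_self h.ne']

theorem IsPush.mono {O' : Set R4} {ρ' : ℝ} {γ : ι → ℝ → ℝ → R3} {Θ : R4 → R4}
    (h : IsPush O ρ γ Θ) (hO : O' ⊆ O) (h0 : 0 ≤ ρ') (hρ : ρ' ≤ ρ) : IsPush O' ρ' γ Θ := by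
  obtain ⟨F, h0', h1, hs, hf, ht⟩ := h
  exact ⟨F, h0', h1, hs, fun t ht x hx => hf t ht x (hO hx),
    fun t ht' i s y hy => ht t ht' i s y (hy.trans (by nlinarith))⟩

/-- A push is a diffeomorphism carrying the initial tubes to the final ones. -/
theorem IsPush.tIso {γ : ι → ℝ → ℝ → R3} {Θ : R4 → R4} (h : IsPush O ρ γ Θ) :
    TIso O ρ (fun i => γ i 0) (fun i => γ i 1) Θ Θ := by
  obtain ⟨F, h0, h1, hs, hf, ht⟩ := h
  have h01 : (1 : ℝ) ∈ Icc (0 : ℝ) 1 := by simp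
  refine ⟨F.freeze 1, fun x => h1 x, fun x => h1 x, hs.freeze 1, fun t x hx => hf 1 h01 x hx,
    fun t i s y hy => ?_⟩
  change F.f (1, _) = _
  rw [ht 1 h01 i s y hy, step_one]

/-- Two pushes along the same path of arcs are isotopic. -/
theorem IsPush.unique {γ : ι → ℝ → ℝ → R3} {Θ Θ' : R4 → R4} (h : IsPush O ρ γ Θ)
    (h' : IsPush O ρ γ Θ') : TIso O ρ (fun i => γ i 0) (fun i => γ i 1) Θ Θ' := by
  obtain ⟨F, h0, h1, hs, hf, ht⟩ := h
  obtain ⟨G, g0, g1, gs, gf, gt⟩ := h'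
  have h01 : (1 : ℝ) ∈ Icc (0 : ℝ) 1 := by simp
  have hst : ∀ t, step t ∈ Icc (0 : ℝ) 1 := step_mem
  refine ⟨(F.freeze 1).comp ((F.reparam step contDiff_step).inv.comp
    (G.reparam step contDiff_step)), fun x => ?_, fun x => ?_,
    (hs.freeze 1).comp (((hs.reparam _ _).inv).comp (gs.reparam _ _)), fun t x hx => ?_,
    fun t i s y hy => ?_⟩
  · change F.f (1, F.g (step 0, G.f (step 0, x))) = _
    rw [step_zero, g0, DFam.g_eq (h0 x), h1]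
  · change F.f (1, F.g (step 1, G.f (step 1, x))) = _
    rw [step_one, F.fg, g1]
  · change F.f (1, F.g (step t, G.f (step t, x))) = _
    rw [gf _ (hst t) x hx, DFam.g_eq (hf _ (hst t) x hx), hf 1 h01 x hx]
  · change F.f (1, F.g (step t, G.f (step t, _))) = _
    rw [gt _ (hst t) i s y hy, DFam.g_eq (ht _ (hst t) i s y hy), ht 1 h01 i s y hy, step_one]

/-- A push along the reversed path. -/
theorem IsPush.reverse {γ : ι → ℝ → ℝ → R3} {Θ Θ' : R4 → R4} (h : IsPush O ρ γ Θ)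
    (hΘ : ∀ x, Θ (Θ' x) = x) : IsPush O ρ (fun i q s => γ i (1 - q) s) Θ' := by
  obtain ⟨F, h0, h1, hs, hf, ht⟩ := h
  have h01 : (1 : ℝ) ∈ Icc (0 : ℝ) 1 := by simp
  have hτ : ContDiff ℝ ∞ (fun t : ℝ => 1 - t) := contDiff_const.sub contDiff_id
  have hΘ' : ∀ x, F.g (1, x) = Θ' x := fun x => DFam.g_eq (by rw [h1, hΘ])
  have hm : ∀ t ∈ Icc (0 : ℝ) 1, 1 - t ∈ Icc (0 : ℝ) 1 := by
    rintro t ⟨h1, h2⟩; constructor <;> linarith
  refine ⟨(F.reparam (fun t => 1 - t) hτ).comp (F.freeze 1).inv, fun x => ?_, fun x => ?_,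
    (hs.reparam _ _).comp (hs.freeze 1).inv, fun t ht' x hx => ?_, fun t ht' i s y hy => ?_⟩
  · change F.f (1 - 0, F.g (1, x)) = _
    rw [sub_zero, F.fg]
  · change F.f (1 - 1, F.g (1, x)) = _
    rw [sub_self, h0, hΘ']
  · change F.f (1 - t, F.g (1, x)) = _
    rw [DFam.g_eq (hf 1 h01 x hx), hf _ (hm t ht') x hx]
  · change F.f (1 - t, F.g (1, (s, γ i (1 - 0) s + y))) = (s, γ i (1 - step t) s + y)
    have e := ht 1 h01 i s y hy
    rw [step_one] at e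
    rw [sub_zero, DFam.g_eq e, ht _ (hm t ht') i s y hy, step_symm]

/-- The push along a constant path. -/
theorem IsPush.const (z : ι → ℝ → R3) : IsPush O ρ (fun i _ => z i) (fun x => x) :=
  ⟨DFam.one, fun _ => rfl, fun _ => rfl, suppB_one, fun _ _ _ _ => rfl,
    fun _ _ _ _ _ _ => rfl⟩

theorem IsPush.congr {γ γ' : ι → ℝ → ℝ → R3} {Θ : R4 → R4} (h : IsPush O ρ γ Θ)
    (hγ : ∀ i, ∀ q ∈ Icc (0 : ℝ) 1, ∀ s, γ i q s = γ' i q s) : IsPush O ρ γ' Θ := by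
  obtain ⟨F, h0, h1, hs, hf, ht⟩ := h
  refine ⟨F, h0, h1, hs, hf, fun t ht' i s y hy => ?_⟩
  have e := ht t ht' i s y hy
  rw [hγ i 0 (by simp) s, hγ i (step t) (step_mem t) s] at e
  exact e

end

end Pool.Agent.Helper27.BI
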