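import Pool.Agent.Helper18.BI.Defs

/-!
# Project BI, part (C): pushing tubes around (definitions)

Everything happens in the model `R4 = ℝ × R3` (`p = (s, x)`, `x = (a, w)` in three-space `R3`), by
level preserving motions.  An arc is a map `z : ℝ → R3` (the arc `s ↦ (s, z s)` of `R4`).
-/

set_option autoImplicit false

open scoped Manifold ContDiff Topology ComplexConjugate
open Set Pool.Agent.Helper65.Barb Pool.Agent.Helper18.BI

namespace Pool.Agent.Helper27.BI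

/-- The family `F` is supported in a compact subset of the interior of the 4-ball. -/
def SuppB (F : DFam 𝓘(ℝ, R4) R4) : Prop :=
  ∃ K : Set R4, IsCompact K ∧ K ⊆ interior ball4 ∧ ∀ t x, x ∉ K → F.f (t, x) = x

/-- `φ` and `ψ` are joined by a smooth isotopy supported in a compact subset of the interior of the
4-ball, fixing the points of `O`, and all whose members translate, level by level, the balls of
radius `ρ` about the points `z0 i s` to the balls of radius `ρ` about the points `z1 i s`. -/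
def TIso {ι : Type} (O : Set R4) (ρ : ℝ) (z0 z1 : ι → ℝ → R3) (φ ψ : R4 → R4) : Prop :=
  ∃ F : DFam 𝓘(ℝ, R4) R4, (∀ x, F.f (0, x) = φ x) ∧ (∀ x, F.f (1, x) = ψ x) ∧ SuppB F ∧
    (∀ t, ∀ x ∈ O, F.f (t, x) = x) ∧
    ∀ t i s y, nsq y ≤ ρ ^ 2 → F.f (t, (s, z0 i s + y)) = (s, z1 i s + y)

/-- `Θ` is the end of a smooth isotopy starting at the identity, supported in a compact subset of
the interior of the 4-ball, fixing the points of `O`, which carries the tubes of radius `ρ` about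
the arcs `γ i 0` along the arcs `γ i (step t)`, by translations in each level. -/
def IsPush {ι : Type} (O : Set R4) (ρ : ℝ) (γ : ι → ℝ → ℝ → R3) (Θ : R4 → R4) : Prop :=
  ∃ F : DFam 𝓘(ℝ, R4) R4, (∀ x, F.f (0, x) = x) ∧ (∀ x, F.f (1, x) = Θ x) ∧ SuppB F ∧
    (∀ t ∈ Icc (0 : ℝ) 1, ∀ x ∈ O, F.f (t, x) = x) ∧
    ∀ t ∈ Icc (0 : ℝ) 1, ∀ i s y, nsq y ≤ ρ ^ 2 →
      F.f (t, (s, γ i 0 s + y)) = (s, γ i (step t) s + y)

/-- A two-parameter family of systems of arcs `Γ i u q`, `(u, q)` in the unit square, constant for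
`s ∉ [0,1]`, inside the ball, off `O` and pairwise disjoint, with room for tubes of radius `2ρ`. -/
structure SqOk {ι : Type} (O : Set R4) (ρ : ℝ) (Γ : ι → ℝ → ℝ → ℝ → R3) : Prop where
  smooth : ∀ i, ContDiff ℝ ∞ (fun p : ℝ × ℝ × ℝ => Γ i p.1 p.2.1 p.2.2)
  ends : ∀ i, ∃ b : R3, ∀ u q s : ℝ, (s ≤ 0 ∨ 1 ≤ s) → Γ i u q s = b
  inside : ∀ i, ∀ u ∈ Icc (0 : ℝ) 1, ∀ q ∈ Icc (0 : ℝ) 1, ∀ s ∈ Icc (0 : ℝ) 1, ∀ x : R3,
    nsq (x - Γ i u q s) ≤ (2 * ρ) ^ 2 → nsq x < (9 / 2) ^ 2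
  sep : ∀ i j, i ≠ j → ∀ u ∈ Icc (0 : ℝ) 1, ∀ q ∈ Icc (0 : ℝ) 1, ∀ s ∈ Icc (0 : ℝ) 1,
    (4 * ρ) ^ 2 ≤ nsq (Γ i u q s - Γ j u q s)
  off : ∀ i, ∀ u ∈ Icc (0 : ℝ) 1, ∀ q ∈ Icc (0 : ℝ) 1, ∀ s ∈ Icc (0 : ℝ) 1, ∀ x : R3,
    (s, x) ∈ O → (2 * ρ) ^ 2 ≤ nsq (x - Γ i u q s)

/-! ### the arcs swept out by the barbell map -/

/-- the angle `2 π step s` -/
noncomputable def phi (s : ℝ) : ℝ := 2 * Real.pi * step s

/-- `(1 - cos φ(s)) / 2` -/
noncomputable def chi (s : ℝ) : ℝ := (1 - Real.cos (phi s)) / 2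

/-- The arc `X = -A sin φ(s)`, `a + i h = 1 + c (exp (2 π i q) - 1)`, where `w = X + i h`. -/
noncomputable def zarc (A c q s : ℝ) : R3 :=
  (1 + c * (Real.cos (2 * Real.pi * q) - 1),
    ⟨-A * Real.sin (phi s), c * Real.sin (2 * Real.pi * q)⟩)

/-- the base arc (the second arc of the model) -/
def e1 : R3 := (1, 0)

end Pool.Agent.Helper27.BI
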