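import Pool.Agent.Helper27.BI.Refl

/-!
# Project BI, part (C): reflections, exchange of the arcs
-/

set_option autoImplicit false
set_option linter.unusedSectionVars false
set_option linter.unusedVariables false

open scoped Manifold ContDiff Topology ComplexConjugate
open Set Pool.Agent.Helper65.Barb Pool.Agent.Helper18.BI

namespace Pool.Agent.Helper27.BI

/-- a smooth involution of `R4` -/
structure Invol (R : R4 → R4) : Prop where
  smooth : ContDiff ℝ ∞ R
  inv : ∀ x, R (R x) = x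

/-- conjugation of a family by an involution -/
noncomputable def conjFam (R : R4 → R4) (hR : Invol R) (F : DFam 𝓘(ℝ, R4) R4) :
    DFam 𝓘(ℝ, R4) R4 where
  f p := R (F.f (p.1, R p.2))
  g p := R (F.g (p.1, R p.2))
  smooth_f := by
    have h1 : ContMDiff 𝓘(ℝ, R4) 𝓘(ℝ, R4) ∞ R := hR.smooth.contMDiff
    exact h1.comp (F.smooth_f.comp (contMDiff_fst.prodMk (h1.comp contMDiff_snd)))
  smooth_g := by
    have h1 : ContMDiff 𝓘(ℝ, R4) 𝓘(ℝ, R4) ∞ R := hR.smooth.contMDiff
    exact h1.comp (F.smooth_g.comp (contMDiff_fst.prodMk (h1.comp contMDiff_snd)))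
  fg t x := by simp only [hR.inv, F.fg]
  gf t x := by simp only [hR.inv, F.gf]

theorem conjFam_f (R : R4 → R4) (hR : Invol R) (F : DFam 𝓘(ℝ, R4) R4) (t : ℝ) (x : R4) :
    (conjFam R hR F).f (t, x) = R (F.f (t, R x)) := rfl

/-- an involution of product form -/
structure LInvol (R : R4 → R4) (σ : ℝ → ℝ) (r r0 : R3 → R3) : Prop extends Invol R where
  prod : ∀ s x, R (s, x) = (σ s, r x)
  add : ∀ x y, r (x + y) = r x + r0 y
  sinv : ∀ s, σ (σ s) = s
  rinv : ∀ y, r0 (r0 y) = y
  rnsq : ∀ y, nsq (r0 y) = nsq y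

/-- Conjugation of a push. -/
theorem conj_push {ι : Type} {ρ : ℝ} {γ : ι → ℝ → ℝ → R3} {R : R4 → R4} {σ : ℝ → ℝ}
    {r r0 : R3 → R3} (hR : LInvol R σ r r0) {F : DFam 𝓘(ℝ, R4) R4} {K : Set R4}
    (hK : IsCompact K) (hKR : R '' K ⊆ interior ball4) (hs : ∀ t x, x ∉ K → F.f (t, x) = x)
    (h0 : ∀ x, F.f (0, x) = x)
    (ht : ∀ t ∈ Icc (0 : ℝ) 1, ∀ i s y, nsq y ≤ ρ ^ 2 →
      F.f (t, (s, γ i 0 s + y)) = (s, γ i (step t) s + y)) :
    IsPush ∅ ρ (fun i q s => r (γ i q (σ s))) (fun x => R (F.f (1, R x))) := by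
  refine ⟨conjFam R hR.toInvol F, fun x => ?_, fun x => rfl, ⟨R '' K,
    hK.image hR.smooth.continuous, hKR, fun t x hx => ?_⟩,
    fun t _ x hx => absurd hx (notMem_empty _), fun t ht' i s y hy => ?_⟩
  · rw [conjFam_f, h0, hR.inv]
  · rw [conjFam_f, hs, hR.inv]
    intro hx'
    exact hx ⟨R x, hx', hR.inv x⟩
  · rw [conjFam_f]
    change R (F.f (t, R (s, r (γ i 0 (σ s)) + y))) = (s, r (γ i (step t) (σ s)) + y)
    have e : r (r (γ i 0 (σ s))) = γ i 0 (σ s) := by
      have := hR.inv (σ s, γ i 0 (σ s))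
      rw [hR.prod, hR.prod] at this
      exact (Prod.ext_iff.1 this).2
    have e2 : R (s, r (γ i 0 (σ s)) + y) = (σ s, γ i 0 (σ s) + r0 y) := by
      rw [hR.prod, hR.add, e]
    rw [e2, ht t ht' i (σ s) (r0 y) (by rw [hR.rnsq]; exact hy), hR.prod, hR.add, hR.rinv,
      hR.sinv]

theorem linvol_refh : LInvol refh (fun s => s) (fun x => (x.1, conj x.2))
    (fun x => (x.1, conj x.2)) where
  smooth := contDiff_fst.prodMk ((contDiff_fst.comp contDiff_snd).prodMk
    (contDiff_conj.comp (contDiff_snd.comp contDiff_snd)))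
  inv x := by simp [refh]
  prod s x := rfl
  add x y := by simp
  sinv s := rfl
  rinv y := by simp
  rnsq y := by simp [nsq]

theorem linvol_refs : LInvol refs (fun s => 1 - s) (fun x => x) (fun x => x) where
  smooth := (contDiff_const.sub contDiff_fst).prodMk ((contDiff_fst.comp contDiff_snd).prodMk
    (contDiff_snd.comp contDiff_snd))
  inv x := by simp [refs]
  prod s x := rfl
  add x y := rfl
  sinv s := by ring
  rinv y := rfl
  rnsq y := rfl

theorem linvol_swp : LInvol swp (fun s => s) (fun x => (1 - x.1, conj x.2))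
    (fun x => (-x.1, conj x.2)) where
  smooth := contDiff_fst.prodMk ((contDiff_const.sub (contDiff_fst.comp contDiff_snd)).prodMk
    (contDiff_conj.comp (contDiff_snd.comp contDiff_snd)))
  inv x := by simp [swp]
  prod s x := rfl
  add x y := by
    refine Prod.ext ?_ ?_
    · simp only [Prod.fst_add]; ring
    · simp
  sinv s := rfl
  rinv y := by simp
  rnsq y := by simp [nsq]

theorem mem_interior_ball4 {p : R4} (h1 : -1 < p.1) (h2 : p.1 < 2)
    (h3 : nsq p.2 < (9 / 2) ^ 2) : p ∈ interior ball4 := by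
  have hr : ∀ q : R4, rsq 0 q = nsq q.2 := fun q => by simp [rsq]
  have hopen : IsOpen {q : R4 | -1 < q.1 ∧ q.1 < 2 ∧ rsq 0 q < (9 / 2) ^ 2} := by
    apply IsOpen.inter (isOpen_lt continuous_const continuous_fst)
    apply IsOpen.inter (isOpen_lt continuous_fst continuous_const)
    exact isOpen_lt (continuous_rsq 0) continuous_const
  refine interior_maximal ?_ hopen ⟨h1, h2, by rw [hr]; exact h3⟩
  rintro q ⟨h1, h2, h3⟩
  exact ⟨h1.le, h2.le, h3.le⟩

theorem of_mem_interior_ball4 {p : R4} (h : p ∈ interior ball4) : -1 < p.1 ∧ p.1 < 2 := by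
  have h1 : ball4 ⊆ Prod.fst ⁻¹' (Icc (-1 : ℝ) 2) := fun q hq => ⟨hq.1, hq.2.1⟩
  have h2 := interior_mono h1 h
  have h3 : interior ((Prod.fst : R4 → ℝ) ⁻¹' (Icc (-1 : ℝ) 2)) = Prod.fst ⁻¹' (Ioo (-1 : ℝ) 2) := by
    rw [← isOpenMap_fst.preimage_interior_eq_interior_preimage continuous_fst, interior_Icc]
  rw [h3] at h2
  exact h2

theorem image_interior {R : R4 → R4} (hR : Invol R) (hb : ∀ p ∈ ball4, R p ∈ ball4) :
    R '' interior ball4 ⊆ interior ball4 := by
  have e : R '' interior ball4 = R ⁻¹' interior ball4 := by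
    ext x
    constructor
    · rintro ⟨y, hy, rfl⟩
      rw [mem_preimage, hR.inv]
      exact hy
    · intro hx
      exact ⟨R x, hx, hR.inv x⟩
  apply interior_maximal
  · rintro _ ⟨y, hy, rfl⟩
    exact hb _ (interior_subset hy)
  · rw [e]
    exact isOpen_interior.preimage hR.smooth.continuous

/-- conjugate of the barbell map by a product involution preserving the ball -/
theorem conj_bar (hspin : StSpin) {R : R4 → R4} {σ : ℝ → ℝ} {r r0 : R3 → R3}
    (hR : LInvol R σ r r0) (hb : ∀ p ∈ ball4, R p ∈ ball4) :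
    IsPush ∅ (1 / 5) (fun i q s => r (pair (fun q s => barPath () q s) i q (σ s)))
      (fun x => R (barMap (R x))) := by
  obtain ⟨F, h0, h1, ⟨K, hK, hKi, hKs⟩, -, ht⟩ := isPush_pair hspin
  have h := conj_push (γ := pair (fun q s => barPath () q s)) hR hK
    ((image_mono hKi).trans (image_interior hR.toInvol hb)) hKs h0 ht
  have e : (fun x => R (barMap (R x))) = fun x => R (F.f (1, R x)) := by
    funext x; rw [h1]
  rw [e]
  exact h

theorem phi_symm (s : ℝ) : phi (1 - s) = 2 * Real.pi - phi s := by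
  rw [phi, phi, step_symm]; ring

theorem m_R1H (hCh : StCh) (hspin : StSpin) : StR1h := by
  have h1 := conj_bar hspin linvol_refh (by
    rintro p ⟨h1, h2, h3⟩
    refine ⟨h1, h2, ?_⟩
    have : rsq 0 (refh p) = rsq 0 p := by simp [rsq, nsq, refh]
    rwa [this])
  have h2 := (isPush_pair hspin).reverse (Θ' := barInv) (fun x => bfam.fg 1 x)
  have h3 := h1.unique (h2.congr (by
    rintro (_ | _) q hq s
    · simp [Prod.ext_iff]
    · change revPath q s = _
      rw [revPath_eq]
      simp only [pair_true, barPath, zarc]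
      refine Prod.ext rfl (Complex.ext ?_ ?_) <;> simp))
  refine h3.congr ?_ ?_ (fun _ => rfl) (fun _ => rfl)
  · rintro (_ | _) s
    · simp [arc2, Prod.ext_iff]
    · simp [arc2, barPath_zero, e1]
  · rintro (_ | _) s
    · simp [arc2, Prod.ext_iff]
    · simp [arc2, barPath_one, e1]

theorem m_R1S (hCh : StCh) (hspin : StSpin) : StR1s := by
  have h1 := conj_bar hspin linvol_refs (by
    rintro p ⟨h1, h2, h3⟩
    refine ⟨?_, ?_, h3⟩
    · change -1 ≤ 1 - p.1; linarith
    · change 1 - p.1 ≤ 2; linarith)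
  apply mir hCh hspin
  refine h1.congr ?_
  rintro (_ | _) q hq s
  · simp
  · have hc : chi (1 - s) = chi s := by
      rw [chi, chi, phi_symm, Real.cos_two_pi_sub]
    simp only [pair_true, barPath, mirPath, zarc, hc]
    rw [phi_symm, Real.sin_two_pi_sub]
    refine Prod.ext rfl (Complex.ext ?_ rfl)
    simp

section
variable {ι : Type} {O : Set R4} {ρ : ℝ}

theorem IsPush.relabel {ι' : Type} {γ : ι → ℝ → ℝ → R3} {Θ : R4 → R4} (h : IsPush O ρ γ Θ)
    (e : ι' → ι) : IsPush O ρ (fun i => γ (e i)) Θ := by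
  obtain ⟨F, h0, h1, hs, hf, ht⟩ := h
  exact ⟨F, h0, h1, hs, hf, fun t ht' i s y hy => ht t ht' (e i) s y hy⟩

/-- Existence of a push family with support in a given round tube. -/
theorem exists_push_supp (hCh : StCh) [inst : Fintype ι] {γ : ι → ℝ → ℝ → R3} (hρ : 0 < ρ)
    (h : SqOk O ρ (fun i _ q s => γ i q s)) {R : ℝ}
    (hR : ∀ i, ∀ q ∈ Icc (0 : ℝ) 1, ∀ s x, nsq (x - γ i q s) < (2 * ρ) ^ 2 → nsq x ≤ R ^ 2) :
    ∃ (F : DFam 𝓘(ℝ, R4) R4) (K : Set R4), IsCompact K ∧
      (∀ p ∈ K, -1 < p.1 ∧ p.1 < 2 ∧ nsq p.2 ≤ R ^ 2) ∧ (∀ t x, x ∉ K → F.f (t, x) = x) ∧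
      (∀ x, F.f (0, x) = x) ∧ (∀ t, ∀ x ∈ O, F.f (t, x) = x) ∧
      ∀ t ∈ Icc (0 : ℝ) 1, ∀ i s y, nsq y ≤ ρ ^ 2 →
        F.f (t, (s, γ i 0 s + y)) = (s, γ i (step t) s + y) := by
  obtain ⟨P, hP, h1⟩ := hCh ι inst O ρ _ hρ h
  obtain ⟨F, hF, ⟨K, hK, hKi, hKs⟩, hf, ht, hx⟩ := h1 (fun _ => (0, 0)) (fun t => (0, step t))
    contDiff_const (contDiff_const.prodMk contDiff_step) (fun t => by simp)
    (fun t => ⟨by simp, step_mem t⟩)
  have hn : Continuous (fun p : R4 => nsq p.2) :=
    (contDiff_nsq (contDiff_snd (𝕜 := ℝ) (E := ℝ) (F := R3))).continuous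
  refine ⟨F, K ∩ {p | nsq p.2 ≤ R ^ 2}, hK.inter_right (isClosed_le hn continuous_const), ?_, ?_,
    fun x => ?_, hf, fun t _ i s y hy => ht t i s y hy⟩
  · rintro p ⟨hp, hp'⟩
    obtain ⟨a, b⟩ := of_mem_interior_ball4 (hKi hp)
    exact ⟨a, b, hp'⟩
  · intro t x hxK
    by_cases hxk : x ∈ K
    · obtain ⟨s, x⟩ := x
      apply hx
      intro i τ hτ
      by_contra hcon
      push Not at hcon
      simp only [sub_zero, zero_add] at hcon
      refine hxK ⟨hxk, hR i (τ * step t) ?_ s x hcon⟩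
      obtain ⟨s1, s2⟩ := step_mem t
      exact ⟨mul_nonneg hτ.1 s1, mul_le_one₀ hτ.2 s1 s2⟩
    · exact hKs t x hxk
  · rw [hF]
    simp only [step_zero]
    exact hP _ _

end

theorem nsq_barPath (q s : ℝ) : nsq (barPath () q s) = 1 := by
  rw [barPath, nsq_zarc_chi]; ring

theorem nsq_mirPath (q s : ℝ) : nsq (mirPath q s) = 1 := by
  rw [mirPath, nsq_zarc_chi]; ring

theorem contDiff_barPath {F : Type*} [NormedAddCommGroup F] [NormedSpace ℝ F] {q s : F → ℝ}
    (hq : ContDiff ℝ ∞ q) (hs : ContDiff ℝ ∞ s) :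
    ContDiff ℝ ∞ (fun x => barPath () (q x) (s x)) :=
  contDiff_zarc (Real.contDiff_sin.comp (contDiff_const.mul hq))
    (contDiff_chi.comp hs) hq hs

theorem contDiff_mirPath {F : Type*} [NormedAddCommGroup F] [NormedSpace ℝ F] {q s : F → ℝ}
    (hq : ContDiff ℝ ∞ q) (hs : ContDiff ℝ ∞ s) :
    ContDiff ℝ ∞ (fun x => mirPath (q x) (s x)) :=
  contDiff_zarc (Real.contDiff_sin.comp (contDiff_const.mul hq)).neg
    (contDiff_chi.comp hs) hq hs

theorem mirPath_end (q : ℝ) {s : ℝ} (hs : s ≤ 0 ∨ 1 ≤ s) : mirPath q s = e1 :=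
  zarc_end _ _ _ hs (chi_end hs)

theorem mirPath_zero (s : ℝ) : mirPath 0 s = e1 := by
  simp [mirPath, zarc_zero, e1]; rfl

theorem mirPath_one (s : ℝ) : mirPath 1 s = e1 := by
  simp [mirPath, zarc_one, e1]; rfl

theorem nsq_e1 : nsq e1 = 1 := by simp [nsq, e1]

theorem nsq_smul (c : ℝ) (x : R3) : nsq (c • x) = c ^ 2 * nsq x := by
  simp only [nsq, Prod.smul_fst, Prod.smul_snd, smul_eq_mul, Complex.smul_re, Complex.smul_im]
  ring

/-- the square exchanging the roles of the two arcs -/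
noncomputable def swpSq (b : Bool) (u q s : ℝ) : R3 :=
  if b then e1 - u • (e1 - mirPath q s) else (1 - u) • (e1 - mirPath q s)

theorem sqOk_swp : SqOk ∅ (1 / 5) swpSq := by
  have hq : ContDiff ℝ ∞ (fun p : ℝ × ℝ × ℝ => p.2.1) := contDiff_fst.comp contDiff_snd
  have hs : ContDiff ℝ ∞ (fun p : ℝ × ℝ × ℝ => p.2.2) := contDiff_snd.comp contDiff_snd
  have hm := contDiff_mirPath hq hs
  have hv : ∀ q s, nsq (e1 - mirPath q s) ≤ 2 ^ 2 := by
    intro q s
    have := nsq_sub_le (x := e1) (y := mirPath q s) (r := 1) (t := 1) (by norm_num) (by norm_num)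
      (by rw [nsq_e1]; norm_num) (by rw [nsq_mirPath]; norm_num)
    exact this.trans (by norm_num)
  have hvc : ∀ c ∈ Icc (0 : ℝ) 1, ∀ q s, nsq (c • (e1 - mirPath q s)) ≤ 2 ^ 2 := by
    intro c hc q s
    rw [nsq_smul]
    have h1 := hv q s
    have h2 := nsq_nonneg (e1 - mirPath q s)
    have h3 : c ^ 2 ≤ 1 := by nlinarith [hc.1, hc.2]
    nlinarith
  refine ⟨?_, ?_, ?_, ?_, fun i u hu q hq s hs x hx => absurd hx (notMem_empty _)⟩
  · rintro (_ | _)
    · exact (contDiff_const.sub contDiff_fst).smul (contDiff_const.sub hm)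
    · exact contDiff_const.sub (contDiff_fst.smul (contDiff_const.sub hm))
  · rintro (_ | _)
    · refine ⟨0, fun u q s h => ?_⟩
      simp [swpSq, mirPath_end q h]
    · refine ⟨e1, fun u q s h => ?_⟩
      simp [swpSq, mirPath_end q h]
  · rintro (_ | _) u hu q hq s hs' x hx
    · have h1 : nsq (x - swpSq false u q s + swpSq false u q s) ≤ (2 * (1 / 5) + 2) ^ 2 :=
        nsq_add_le (by norm_num) (by norm_num) hx
          (hvc (1 - u) ⟨by linarith [hu.2], by linarith [hu.1]⟩ q s)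
      rw [sub_add_cancel] at h1
      exact lt_of_le_of_lt h1 (by norm_num)
    · have h0 : nsq (swpSq true u q s) ≤ (1 + 2) ^ 2 :=
        nsq_sub_le (by norm_num) (by norm_num) (by rw [nsq_e1]; norm_num) (hvc u hu q s)
      have h1 : nsq (x - swpSq true u q s + swpSq true u q s) ≤ (2 * (1 / 5) + (1 + 2)) ^ 2 :=
        nsq_add_le (by norm_num) (by norm_num) hx h0
      rw [sub_add_cancel] at h1
      exact lt_of_le_of_lt h1 (by norm_num)
  · have key : ∀ u q s, (4 * (1 / 5) : ℝ) ^ 2 ≤ nsq (swpSq true u q s - swpSq false u q s) := by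
      intro u q s
      have e : swpSq true u q s - swpSq false u q s = mirPath q s := by
        simp only [swpSq, if_true, Bool.false_eq_true, if_false, sub_smul, one_smul]
        abel
      rw [e, nsq_mirPath]
      norm_num
    rintro (_ | _) (_ | _) hij u hu q hq s hs'
    · exact absurd rfl hij
    · rw [nsq_sub_comm]
      exact key u q s
    · exact key u q s
    · exact absurd rfl hij

theorem m_R2 (hCh : StCh) (hspin : StSpin) : StR2 := by
  have hsq : SqOk ∅ (1 / 5) (fun i (_ : ℝ) q s => pair (fun q s => barPath () q s) i q s) := by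
    refine sqOk_pair (fun _ q s => barPath () q s) ?_ ?_ ?_
    · exact contDiff_barPath (contDiff_fst.comp contDiff_snd) (contDiff_snd.comp contDiff_snd)
    · intro u q s hs
      exact zarc_end _ _ _ hs (chi_end hs)
    · intro u hu q hq s
      rw [nsq_barPath]
      norm_num
  obtain ⟨F, K, hK, hKR, hKs, h0, -, ht⟩ := exists_push_supp hCh (R := 2) (by norm_num) hsq (by
    rintro (_ | _) q hq s x hx
    · rw [pair_false, sub_zero] at hx
      exact hx.le.trans (by norm_num)
    · rw [pair_true] at hx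
      have h1 : nsq (x - barPath () q s + barPath () q s) ≤ (2 * (1 / 5) + 1) ^ 2 :=
        nsq_add_le (by norm_num) (by norm_num) hx.le (by rw [nsq_barPath]; norm_num)
      rw [sub_add_cancel] at h1
      exact h1.trans (by norm_num))
  have hKi : K ⊆ interior ball4 := fun p hp => by
    obtain ⟨a, b, c⟩ := hKR p hp
    exact mem_interior_ball4 a b (lt_of_le_of_lt c (by norm_num))
  have hKi' : swp '' K ⊆ interior ball4 := by
    rintro _ ⟨p, hp, rfl⟩
    obtain ⟨a, b, c⟩ := hKR p hp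
    refine mem_interior_ball4 a b ?_
    have e : (swp p).2 = e1 - (p.2.1, -conj p.2.2) := by
      refine Prod.ext rfl ?_
      simp [swp, e1]
    rw [e]
    have h1 : nsq (p.2.1, -conj p.2.2) = nsq p.2 := by simp [nsq]
    have h2 := nsq_sub_le (x := e1) (y := (p.2.1, -conj p.2.2)) (r := 1) (t := 2)
      (by norm_num) (by norm_num) (by rw [nsq_e1]; norm_num) (by rw [h1]; exact c)
    exact lt_of_le_of_lt h2 (by norm_num)
  have hpF : IsPush ∅ (1 / 5) (pair (fun q s => barPath () q s)) (fun x => F.f (1, x)) :=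
    ⟨F, h0, fun x => rfl, ⟨K, hK, hKi, hKs⟩, fun t _ x hx => absurd hx (notMem_empty _), ht⟩
  refine ⟨fun x => F.f (1, x), ?_, ?_⟩
  · exact ((isPush_pair hspin).unique hpF).congr
      (by rintro (_ | _) s <;> simp [arc2, barPath_zero])
      (by rintro (_ | _) s <;> simp [arc2, barPath_one]) (fun _ => rfl) (fun _ => rfl)
  · have hc := (conj_push (γ := pair (fun q s => barPath () q s)) linvol_swp hK hKi' hKs h0
      ht).relabel (fun b => !b)
    have e0 : ∀ q s : ℝ, (1 - (barPath () q s).1, (starRingEnd ℂ) (barPath () q s).2) =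
        e1 - mirPath q s := by
      intro q s
      simp only [barPath, mirPath, zarc, e1]
      refine Prod.ext ?_ (Complex.ext ?_ ?_)
      · simp
      · simp
      · simp
    obtain ⟨Θ4, h4, -⟩ := exists_push hCh (by norm_num) (sqOk_swp.fixU (u₀ := 1) (by simp))
    have hpair : ∀ i q s, swpSq i 1 q s = pair mirPath i q s := by
      rintro (_ | _) q s <;> simp [swpSq]
    have h := square hCh (by norm_num) sqOk_swp (Θ1 := fun x => swp (F.f (1, swp x)))
      (Θ2 := fun x => x) (Θ3 := fun x => x) (Θ4 := Θ4)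
      (hc.congr (by
        rintro (_ | _) q hq s
        · simp only [Bool.not_false, pair_true, e0]
          simp [swpSq]
        · simp [swpSq, e1]))
      ((IsPush.const arc2).congr (by
        rintro (_ | _) q hq s <;> simp [arc2, swpSq, mirPath_one]))
      ((IsPush.const arc2).congr (by
        rintro (_ | _) q hq s <;> simp [arc2, swpSq, mirPath_zero]))
      h4
    have h5 := mir hCh hspin (h4.congr (fun i q _ s => hpair i q s))
    refine (h.congr ?_ ?_ (fun _ => rfl) (fun _ => rfl)).trans h5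
    · rintro (_ | _) s <;> simp [arc2, swpSq, mirPath_zero]
    · rintro (_ | _) s <;> simp [arc2, swpSq, mirPath_one]

end Pool.Agent.Helper27.BI
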