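import Pool.Agent.Helper27.BI.GAdd
import Pool.Agent.Helper27.BI.Refl2

/-!
# Project BI, part (C): reflections, exchange and vanishing for germs
-/

set_option autoImplicit false
set_option linter.unusedSectionVars false
set_option linter.unusedVariables false

open scoped Manifold ContDiff Topology ComplexConjugate
open Set Pool.Agent.Helper65.Barb Pool.Agent.Helper18.BI

namespace Pool.Agent.Helper27.BI

/-- a symmetric large exterior domain -/
def K6 : Set R4 := {p | (-1 ≤ p.1 ∧ p.1 ≤ 2 ∧ rsq 0 p ≤ 36) ∧ rsq 1 p ≤ 36 ∧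
  (1 / 5) ^ 2 ≤ rsq 0 p ∧ (1 / 5) ^ 2 ≤ rsq 1 p}

theorem isCompact_K6 : IsCompact K6 := by
  refine Metric.isCompact_of_isClosed_isBounded ?_ ((isBounded_of_rsq 0 36 (-1) 2).subset
    (fun p hp => hp.1))
  have h0 := continuous_rsq 0
  have h1 := continuous_rsq 1
  refine IsClosed.inter (IsClosed.inter (isClosed_le continuous_const continuous_fst)
    (IsClosed.inter (isClosed_le continuous_fst continuous_const)
      (isClosed_le h0 continuous_const)))
    (IsClosed.inter (isClosed_le h1 continuous_const)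
      (IsClosed.inter (isClosed_le continuous_const h0) (isClosed_le continuous_const h1)))

theorem K6_compl {p : R4} (hp : p ∉ K6) :
    p ∉ ball4 ∨ rsq 0 p ≤ (1 / 5) ^ 2 ∨ rsq 1 p ≤ (1 / 5) ^ 2 := by
  by_contra hcon
  push Not at hcon
  obtain ⟨⟨h1, h2, h3⟩, h4, h5⟩ := hcon
  refine hp ⟨⟨h1, h2, h3.trans (by norm_num)⟩, ?_, h4.le, h5.le⟩
  rw [rsq_one_eq]
  have := sq_le_rsq p
  nlinarith

theorem bsupp_K6 : bsupp ⊆ K6 := by
  intro p hp
  by_contra h
  have hb : p ∈ ball4 := interior_subset (tsupp_subset_interior hp.1)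
  obtain ⟨h1, h2, h3⟩ := hb
  refine h ⟨⟨h1, h2, h3.trans (by norm_num)⟩, ?_, hp.2.1, hp.2.2⟩
  rw [rsq_one_eq]
  have := sq_le_rsq p
  nlinarith

section
variable {E : Type} [NormedAddCommGroup E] [NormedSpace ℝ E] {H : Type} [TopologicalSpace H]
  {I : ModelWithCorners ℝ E H} {M : Type} [TopologicalSpace M] [ChartedSpace H M] [T2Space M]

theorem tiso2_cisot {φ ψ : R4 → R4} (h : TIso ∅ (1 / 5) arc2 arc2 φ ψ) {G : R4 → M}
    (hG : EmbOn I G K6) : CIsot I (imp G K6 φ) (imp G K6 ψ) := by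
  obtain ⟨Φ, h0, h1, ⟨K, hK, hKi, hKs⟩, -, ht⟩ := h
  have key := imp_isot (I := I) (m_A1) Φ isCompact_K6 hG (fun t p hp => by
    rcases K6_compl hp with h | h | h
    · exact hKs t p (fun hk => h (interior_subset (hKi hk)))
    · rw [rsq_zero_eq] at h
      have e := ht t false p.1 p.2 h
      simpa [arc2] using e
    · rw [← nsq_sub_one] at h
      have e := ht t true p.1 (p.2 - (1, 0)) h
      simp only [arc2, e1, if_true, add_sub_cancel] at e
      exact e)
  have e0 : (fun p => Φ.f (0, p)) = φ := funext h0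
  have e1' : (fun p => Φ.f (1, p)) = ψ := funext h1
  rwa [e0, e1'] at key

theorem tiso2_off {φ : R4 → R4} (h : TIso ∅ (1 / 5) arc2 arc2 φ φ) {p : R4} (hp : p ∉ K6) :
    φ p = p := by
  obtain ⟨Φ, h0, h1, ⟨K, hK, hKi, hKs⟩, -, ht⟩ := h
  rw [← h0 p]
  rcases K6_compl hp with h | h | h
  · exact hKs 0 p (fun hk => h (interior_subset (hKi hk)))
  · rw [rsq_zero_eq] at h
    have e := ht 0 false p.1 p.2 h
    simpa [arc2] using e
  · rw [← nsq_sub_one] at h
    have e := ht 0 true p.1 (p.2 - (1, 0)) h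
    simp only [arc2, e1, if_true, add_sub_cancel] at e
    exact e

/-- The general reflection principle for germs. -/
theorem refl_thin (t6 : StT6) (s4 : StS4) {R : R4 → R4} {σ : ℝ → ℝ} {r r0 : R3 → R3}
    (hR : LInvol R σ r r0) (hRe : EmbOn 𝓘(ℝ, R4) R univ) (hRK : ∀ p ∈ K6, R p ∈ K6)
    (hRS : ∀ p ∈ SP, R p ∈ SP) (hsq : ∀ ε p, sq ε (R p) = R (sq ε p))
    (hβ : ∃ β : R4 → R4, TIso ∅ (1 / 5) arc2 arc2 barMap β ∧
      TIso ∅ (1 / 5) arc2 arc2 (fun p => R (β (R p))) barInv)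
    {F : R4 → M} {φ φ' : M → M} (hF : EmbOn I F SP) (h1 : ∀ x, φ (φ' x) = x)
    (h2 : ∀ x, φ' (φ x) = x) (hT : Thin I F φ) : Thin I (fun p => F (R p)) φ' := by
  obtain ⟨β, b1, b2⟩ := hβ
  obtain ⟨ε0, hε0, H0⟩ := hT
  obtain ⟨ε1, hε1, H1⟩ := t6 E H I M F K6 SP isCompact_K6 (s4.2.2.2.2.2.2.2.2.1) (fun p hp =>
    s4.1 p ⟨hp.2.2.1, hp.2.2.2⟩) hF
  refine ⟨min ε0 ε1, lt_min hε0 hε1, fun ε hε => ?_⟩
  obtain ⟨-, c0⟩ := H0 ε ⟨hε.1, lt_of_lt_of_le hε.2 (min_le_left _ _)⟩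
  obtain ⟨hG, hb⟩ := H1 ε ⟨hε.1, lt_of_lt_of_le hε.2 (min_le_right _ _)⟩
  set G : R4 → M := F ∘ sq ε with hGdef
  have e0 : (fun p => F (R p)) ∘ sq ε = G ∘ R := by
    funext p
    simp only [hGdef, Function.comp, hsq]
  have hGR : EmbOn I (G ∘ R) K6 := EmbOn.comp hG (EmbOn.mono hRe (subset_univ _)) hRK
  rw [e0]
  refine ⟨EmbOn.mono hGR bsupp_K6, ?_⟩
  -- the inverse
  rw [← hb bsupp_K6] at c0
  have hbm : MapsTo barMap K6 K6 := barMap_mapsTo bsupp_K6
  have hbi : ∀ p, barInv (barMap p) = p := fun p => bfam.gf 1 p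
  have hbi' : ∀ p, barMap (barInv p) = p := fun p => bfam.fg 1 p
  have hbo : ∀ p, p ∉ K6 → barInv p = p := by
    intro p hp
    have h := barMap_off (fun h => hp (bsupp_K6 h))
    calc barInv p = barInv (barMap p) := by rw [h]
      _ = p := hbi p
  have hbim : MapsTo barInv K6 K6 := by
    intro p hp
    by_contra h
    have h3 : barMap (barInv p) = barInv p := barMap_off (fun h' => h (bsupp_K6 h'))
    rw [hbi'] at h3
    rw [← h3] at h
    exact h hp
  have hinv : ∀ x, imp G K6 barMap (imp G K6 barInv x) = x := by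
    intro x
    rw [← imp_comp hG.2 hbim]
    simp only [hbi']
    by_cases hx : x ∈ G '' K6
    · obtain ⟨p, hp, rfl⟩ := hx
      rw [imp_image hG.2 hp]
    · rw [imp_off hx]
  have c1 : CIsot I φ' (imp G K6 barInv) := CIsot.inv' c0 h1 hinv
  -- the conjugate
  have c2 := tiso2_cisot (I := I) b1 hGR
  rw [imp_mono hGR.2 bsupp_K6 (fun p hp => barMap_off hp)] at c2
  have hconj : imp (G ∘ R) K6 β = imp G K6 (fun p => R (β (R p))) := by
    symm
    apply imp_eq_of hG.2 hGR.2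
    · intro p hp
      exact ⟨R p, hRK p hp, rfl, by simp only [Function.comp, hR.inv]⟩
    · intro q hq
      exact Or.inl ⟨R q, hRK q hq, by simp only [Function.comp, hR.inv]⟩
  rw [hconj] at c2
  have c3 := tiso2_cisot (I := I) b2 hG
  exact CIsot.trans' c1 (CIsot.symm' (CIsot.trans' c2 c3))

end

/-! ### the three involutions -/

theorem emb_of_invol {R : R4 → R4} (hR : Invol R) : EmbOn 𝓘(ℝ, R4) R univ := by
  refine ⟨fun p _ => ?_, fun p _ q _ e => by rw [← hR.inv p, e, hR.inv]⟩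
  apply (m_A0 R4 _ p).2
  refine ⟨⟨univ, isOpen_univ, mem_univ _, hR.smooth.contDiffOn⟩, fun v hv => ?_⟩
  have hd : Differentiable ℝ R := hR.smooth.differentiable (by simp)
  have h1 : HasFDerivAt (fun x => R (R x)) ((fderiv ℝ R (R p)).comp (fderiv ℝ R p)) p :=
    (hd (R p)).hasFDerivAt.comp p (hd p).hasFDerivAt
  have h2 : (fun x => R (R x)) = fun x => x := funext hR.inv
  rw [h2] at h1
  have h3 := h1.unique (hasFDerivAt_id p)
  have h4 := congrArg (fun L => L v) h3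
  simp only [ContinuousLinearMap.comp_apply, hv, map_zero] at h4
  exact h4.symm

theorem axc_symm (ε a : ℝ) : axc ε (1 - a) = 1 - axc ε a := by
  unfold axc
  have e1 : (1 - a + 1 / 5) ^ 2 = (a - 6 / 5) ^ 2 := by ring
  have e2 : (1 - a - 6 / 5) ^ 2 = (a + 1 / 5) ^ 2 := by ring
  rw [e1, e2]; ring

theorem prof_symm (ε a : ℝ) : prof ε (1 - a) = prof ε a := by
  unfold prof
  have e1 : (1 - a) ^ 2 = (a - 1) ^ 2 := by ring
  have e2 : (1 - a - 1) ^ 2 = a ^ 2 := by ring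
  rw [e1, e2, add_comm]

theorem fac_symm (ε a k : ℝ) : fac ε (1 - a) k = fac ε a k := by
  unfold fac
  rw [prof_symm]

theorem sq_refh (ε : ℝ) (p : R4) : sq ε (refh p) = refh (sq ε p) := by
  simp [Helper18.BI.sq, refh, Complex.normSq_conj]

theorem sq_refs (ε : ℝ) (p : R4) : sq ε (refs p) = refs (sq ε p) := by
  refine Prod.ext ?_ rfl
  simp only [Helper18.BI.sq, refs]; ring

theorem sq_swp (ε : ℝ) (p : R4) : sq ε (swp p) = swp (sq ε p) := by
  simp [Helper18.BI.sq, swp, Complex.normSq_conj, axc_symm, fac_symm]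

theorem rsq_refh (c : ℝ) (p : R4) : rsq c (refh p) = rsq c p := by simp [rsq, nsq, refh]

theorem rsq_refs (c : ℝ) (p : R4) : rsq c (refs p) = rsq c p := rfl

theorem rsq_swp_zero (p : R4) : rsq 0 (swp p) = rsq 1 p := by
  simp only [rsq, nsq, swp, Complex.conj_re, Complex.conj_im]; ring

theorem rsq_swp_one (p : R4) : rsq 1 (swp p) = rsq 0 p := by
  simp only [rsq, nsq, swp, Complex.conj_re, Complex.conj_im]; ring

theorem m_RefH (t6 : StT6) (s4 : StS4) (h : StR1h) (hspin : StSpin) : StRefH := by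
  intro E _ _ H _ I M _ _ _ F φ φ' hF h1 h2
  have hb : ∃ β : R4 → R4, TIso ∅ (1 / 5) arc2 arc2 barMap β ∧
      TIso ∅ (1 / 5) arc2 arc2 (fun p => refh (β (refh p))) barInv :=
    ⟨barMap, (isPush_pair hspin).tIso.congr
      (by rintro (_ | _) s <;> simp [arc2, barPath_zero])
      (by rintro (_ | _) s <;> simp [arc2, barPath_one]) (fun _ => rfl) (fun _ => rfl), h⟩
  have hK : ∀ p ∈ K6, refh p ∈ K6 := by
    rintro p ⟨⟨h1, h2, h3⟩, h4, h5, h6⟩
    exact ⟨⟨h1, h2, by rwa [rsq_refh]⟩, by rwa [rsq_refh], by rwa [rsq_refh], by rwa [rsq_refh]⟩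
  have hS : ∀ p ∈ SP, refh p ∈ SP := by
    rintro p ((⟨h1, h2⟩ | ⟨h1, h2⟩) | ⟨h1, h2, h3, h4⟩)
    · exact Or.inl (Or.inl ⟨h1, by rw [rsq_refh, h2]⟩)
    · exact Or.inl (Or.inr ⟨h1, by rw [rsq_refh, h2]⟩)
    · exact Or.inr ⟨h1, h2, h3, by simp [refh, h4]⟩
  have he := emb_of_invol linvol_refh.toInvol
  refine ⟨fun hT => refl_thin t6 s4 linvol_refh he hK hS sq_refh hb hF h1 h2 hT, fun hT => ?_⟩
  have hF' : EmbOn I (fun p => F (refh p)) SP :=
    EmbOn.comp hF (EmbOn.mono he (subset_univ _)) hS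
  have := refl_thin t6 s4 linvol_refh he hK hS sq_refh hb hF' h2 h1 hT
  simp only [linvol_refh.inv] at this
  exact this

theorem m_RefS (t6 : StT6) (s4 : StS4) (h : StR1s) (hspin : StSpin) : StRefS := by
  intro E _ _ H _ I M _ _ _ F φ φ' hF h1 h2
  have hb : ∃ β : R4 → R4, TIso ∅ (1 / 5) arc2 arc2 barMap β ∧
      TIso ∅ (1 / 5) arc2 arc2 (fun p => refs (β (refs p))) barInv :=
    ⟨barMap, (isPush_pair hspin).tIso.congr
      (by rintro (_ | _) s <;> simp [arc2, barPath_zero])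
      (by rintro (_ | _) s <;> simp [arc2, barPath_one]) (fun _ => rfl) (fun _ => rfl), h⟩
  have hK : ∀ p ∈ K6, refs p ∈ K6 := by
    rintro p ⟨⟨h1, h2, h3⟩, h4, h5, h6⟩
    refine ⟨⟨?_, ?_, h3⟩, h4, h5, h6⟩
    · change -1 ≤ 1 - p.1; linarith
    · change 1 - p.1 ≤ 2; linarith
  have hh : ∀ x : ℝ, x = 1 / 2 → 1 - x = 1 / 2 := by intro x hx; rw [hx]; norm_num
  have hS : ∀ p ∈ SP, refs p ∈ SP := by
    rintro p ((⟨h1, h2⟩ | ⟨h1, h2⟩) | ⟨h1, h2, h3, h4⟩)
    · exact Or.inl (Or.inl ⟨hh _ h1, h2⟩)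
    · exact Or.inl (Or.inr ⟨hh _ h1, h2⟩)
    · exact Or.inr ⟨hh _ h1, h2, h3, h4⟩
  have he := emb_of_invol linvol_refs.toInvol
  refine ⟨fun hT => refl_thin t6 s4 linvol_refs he hK hS sq_refs hb hF h1 h2 hT, fun hT => ?_⟩
  have hF' : EmbOn I (fun p => F (refs p)) SP :=
    EmbOn.comp hF (EmbOn.mono he (subset_univ _)) hS
  have := refl_thin t6 s4 linvol_refs he hK hS sq_refs hb hF' h2 h1 hT
  simp only [linvol_refs.inv] at this
  exact this

theorem m_R2sw (t6 : StT6) (s4 : StS4) (h : StR2) : StR2sw := by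
  intro E _ _ H _ I M _ _ _ F φ φ' hF h1 h2
  have hK : ∀ p ∈ K6, swp p ∈ K6 := by
    rintro p ⟨⟨h1, h2, h3⟩, h4, h5, h6⟩
    exact ⟨⟨h1, h2, by rwa [rsq_swp_zero]⟩, by rwa [rsq_swp_one], by rwa [rsq_swp_zero],
      by rwa [rsq_swp_one]⟩
  have hS : ∀ p ∈ SP, swp p ∈ SP := by
    rintro p ((⟨h1, h2⟩ | ⟨h1, h2⟩) | ⟨h1, h2, h3, h4⟩)
    · exact Or.inl (Or.inr ⟨h1, by rw [rsq_swp_one, h2]⟩)
    · exact Or.inl (Or.inl ⟨h1, by rw [rsq_swp_zero, h2]⟩)
    · refine Or.inr ⟨h1, ?_, ?_, by simp [swp, h4]⟩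
      · change 1 / 5 ≤ 1 - p.2.1; linarith
      · change 1 - p.2.1 ≤ 4 / 5; linarith
  have he := emb_of_invol linvol_swp.toInvol
  refine ⟨fun hT => refl_thin t6 s4 linvol_swp he hK hS sq_swp h hF h1 h2 hT, fun hT => ?_⟩
  have hF' : EmbOn I (fun p => F (swp p)) SP :=
    EmbOn.comp hF (EmbOn.mono he (subset_univ _)) hS
  have := refl_thin t6 s4 linvol_swp he hK hS sq_swp h hF' h2 h1 hT
  simp only [linvol_swp.inv] at this
  exact this

/-! ### vanishing -/

/-- the domain without the first hole -/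
def K7 : Set R4 := {p | p ∈ ball4 ∧ (1 / 5) ^ 2 ≤ rsq 1 p}

theorem m_VanT (t6 : StT6) (s4 : StS4) (h : StVan) : StVanT := by
  intro E _ _ H _ I M _ _ _ F hF
  have hKc : IsCompact K7 :=
    isCompact_ball4.inter_right (isClosed_le continuous_const (continuous_rsq 1))
  have hLc : IsCompact (flat 0 ∪ sph 1 ∪ neck) := by
    have hFB := s4.2.2.2.2.2.2.2.2.2.1
    have hsp : IsClosed {p : R4 | p ∈ flat 0 ∪ sph 1 ∪ neck} := by
      have h0 := continuous_rsq 0
      have h1 := continuous_rsq 1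
      have hf : Continuous (fun p : R4 => p.1) := continuous_fst
      have ha : Continuous (fun p : R4 => p.2.1) := continuous_fst.comp continuous_snd
      have hw : Continuous (fun p : R4 => p.2.2) := continuous_snd.comp continuous_snd
      refine IsClosed.union (IsClosed.union ?_ ?_) ?_
      · exact (isClosed_eq hf continuous_const).inter (isClosed_le h0 continuous_const)
      · exact (isClosed_eq hf continuous_const).inter (isClosed_eq h1 continuous_const)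
      · exact (isClosed_eq hf continuous_const).inter ((isClosed_le continuous_const ha).inter
          ((isClosed_le ha continuous_const).inter (isClosed_eq hw continuous_const)))
    refine hFB.of_isClosed_subset hsp ?_
    rintro p ((h | h) | h)
    · exact Or.inl (Or.inl h)
    · exact Or.inl (Or.inr ⟨h.1, h.2.le⟩)
    · exact Or.inr h
  obtain ⟨ε1, hε1, H1⟩ := t6 E H I M F K7 (flat 0 ∪ sph 1 ∪ neck) hKc hLc (fun p hp => by
    rcases le_or_gt (rsq 0 p) (1 / 25) with h0 | h0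
    · rw [s4.2.2.1 p (Or.inl h0)]
      exact Or.inl (Or.inl ⟨rfl, h0⟩)
    · have := s4.1 p ⟨by norm_num at h0 ⊢; linarith, hp.2⟩
      rcases this with (h | h) | h
      · exact Or.inl (Or.inl ⟨h.1, h.2.le⟩)
      · exact Or.inl (Or.inr h)
      · exact Or.inr h) hF
  have hbK : bsupp ⊆ K7 := fun p hp => ⟨interior_subset (tsupp_subset_interior hp.1), hp.2.2⟩
  refine ⟨ε1, hε1, fun ε hε => ?_⟩
  obtain ⟨hG, hb⟩ := H1 ε hε
  refine ⟨EmbOn.mono hG hbK, ?_⟩
  rw [← hb hbK]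
  have hc := tiso_cisot (I := I) h hKc (fun p hp => by
    by_contra hcon
    push Not at hcon
    obtain ⟨h1, h2, h3⟩ := hcon
    refine hp ⟨h1, ?_⟩
    have h4 : ¬ nsq (p.2 - (1, 0)) < (1 / 5) ^ 2 := h3
    rw [nsq_sub_one] at h4
    exact not_lt.1 h4) hG
  have e : imp (F ∘ sq ε) K7 (fun p => p) = fun x => x := by
    funext x
    by_cases hx : x ∈ (F ∘ sq ε) '' K7
    · obtain ⟨p, hp, rfl⟩ := hx
      rw [imp_image hG.2 hp]
    · rw [imp_off hx]
  rw [e] at hc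
  exact CIsot.symm' hc

end Pool.Agent.Helper27.BI
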