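import Pool.Agent.Helper27.BI.AddM

/-!
# Project BI, part (C): vanishing, reflections, exchange of the arcs
-/

set_option autoImplicit false
set_option linter.unusedSectionVars false
set_option linter.unusedVariables false

open scoped Manifold ContDiff Topology ComplexConjugate
open Set Pool.Agent.Helper65.Barb Pool.Agent.Helper18.BI

namespace Pool.Agent.Helper27.BI

/-! ### vanishing -/

theorem sqOk_van : SqOk ∅ (1 / 5) (fun (_ : Unit) u q s =>
    zarc ((1 - u) * Real.sin (Real.pi * q)) ((1 - u) * chi s) q s) := by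
  refine sqOk_of_zarc (by norm_num) le_rfl _ ?_ ?_ ?_ ?_
  · have hq : ContDiff ℝ ∞ (fun p : ℝ × ℝ × ℝ => p.2.1) := contDiff_fst.comp contDiff_snd
    have hs : ContDiff ℝ ∞ (fun p : ℝ × ℝ × ℝ => p.2.2) := contDiff_snd.comp contDiff_snd
    exact contDiff_zarc ((contDiff_const.sub contDiff_fst).mul
      (Real.contDiff_sin.comp (contDiff_const.mul hq)))
      ((contDiff_const.sub contDiff_fst).mul (contDiff_chi.comp hs)) hq hs
  · intro u q s hs
    exact zarc_end _ _ _ hs (by rw [chi_end hs]; ring)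
  · intro u hu q hq s
    have h1 := sin_pi_nonneg hq
    have h2 := Real.sin_le_one (Real.pi * q)
    obtain ⟨h3, h4⟩ := chi_mem s
    exact ⟨_, ⟨mul_nonneg (by linarith [hu.2]) h1, by nlinarith [hu.1, hu.2]⟩, _,
      ⟨mul_nonneg (by linarith [hu.2]) h3, by nlinarith [hu.1, hu.2]⟩, q, rfl⟩
  · intro u hu q hq s hs x hx
    exact absurd hx (notMem_empty _)

theorem zarc_zero_zero (q s : ℝ) : zarc 0 0 q s = e1 := by
  simp [zarc, e1]; rfl

theorem m_VAN (hCh : StCh) (hspin : StSpin) : StVan := by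
  have hB : IsPush ∅ (1 / 5) barPath barMap :=
    (isPush_barMap hspin).mono (empty_subset _) (by norm_num) le_rfl
  have h := square hCh (by norm_num) sqOk_van (Θ1 := barMap) (Θ2 := fun x => x)
    (Θ3 := fun x => x) (Θ4 := fun x => x)
    (hB.congr (by intro i q hq s; simp [barPath]))
    ((IsPush.const (fun _ _ => e1)).congr (by
      intro i q hq s; simp [zarc_one, e1]; rfl))
    ((IsPush.const (fun _ _ => e1)).congr (by
      intro i q hq s; simp [zarc_zero, e1]; rfl))
    ((IsPush.const (fun _ _ => e1)).congr (by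
      intro i q hq s; simp [zarc_zero_zero]))
  exact h.congr (by intro i s; simp [zarc_zero, e1]; rfl)
    (by intro i s; simp [zarc_zero_zero]) (fun _ => rfl) (fun _ => rfl)

/-! ### two tubes -/

/-- a path of the second arc, the first arc being at rest -/
noncomputable def pair (γ : ℝ → ℝ → R3) : Bool → ℝ → ℝ → R3 :=
  fun b q s => if b then γ q s else 0

@[simp] theorem pair_true (γ : ℝ → ℝ → R3) (q s : ℝ) : pair γ true q s = γ q s := rfl
@[simp] theorem pair_false (γ : ℝ → ℝ → R3) (q s : ℝ) : pair γ false q s = 0 := rfl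

theorem isPush_pair (hspin : StSpin) :
    IsPush ∅ (1 / 5) (pair (fun q s => barPath () q s)) barMap := by
  refine ⟨bfam, bfam_zero, fun _ => rfl, ⟨tsupp 0 2, isCompact_tsupp 0 2,
    tsupp_subset_interior, fun t p hp => bfam_support t p hp⟩, fun t _ x hx =>
    absurd hx (notMem_empty _), ?_⟩
  rintro t ht (_ | _) s y hy
  · rw [pair_false, pair_false, zero_add]
    apply bfam_near_zero t
    have : rsq 0 (s, y) = nsq y := by simp [rsq]
    rwa [this]
  · rw [pair_true, pair_true, barPath_zero]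
    have e := bfam_near_one t s y hy
    rw [hspin] at e
    exact e

theorem nsq_zero : nsq (0 : R3) = 0 := by simp [nsq]

/-- Admissibility of a square of second arcs, the first arc being at rest. -/
theorem sqOk_pair (Γ : ℝ → ℝ → ℝ → R3)
    (hs : ContDiff ℝ ∞ (fun p : ℝ × ℝ × ℝ => Γ p.1 p.2.1 p.2.2))
    (he : ∀ u q s : ℝ, (s ≤ 0 ∨ 1 ≤ s) → Γ u q s = e1)
    (hz : ∀ u ∈ Icc (0 : ℝ) 1, ∀ q ∈ Icc (0 : ℝ) 1, ∀ s,
      (4 / 5) ^ 2 ≤ nsq (Γ u q s) ∧ nsq (Γ u q s) ≤ (3 / 2) ^ 2) :
    SqOk ∅ (1 / 5) (fun b u q s => pair (Γ u) b q s) := by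
  refine ⟨?_, ?_, ?_, ?_, fun i u hu q hq s hs x hx => absurd hx (notMem_empty _)⟩
  · rintro (_ | _)
    · exact contDiff_const
    · exact hs
  · rintro (_ | _)
    · exact ⟨0, fun u q s h => rfl⟩
    · exact ⟨e1, he⟩
  · rintro (_ | _) u hu q hq s hs' x hx
    · simp only [pair_false, sub_zero] at hx
      exact lt_of_le_of_lt hx (by norm_num)
    · simp only [pair_true] at hx
      have h1 : nsq (x - Γ u q s + Γ u q s) ≤ (2 * (1 / 5) + 3 / 2) ^ 2 :=
        nsq_add_le (by norm_num) (by norm_num) hx (hz u hu q hq s).2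
      rw [sub_add_cancel] at h1
      exact lt_of_le_of_lt h1 (by norm_num)
  · have key : ∀ u ∈ Icc (0 : ℝ) 1, ∀ q ∈ Icc (0 : ℝ) 1, ∀ s,
        (4 * (1 / 5) : ℝ) ^ 2 ≤ nsq (Γ u q s) := fun u hu q hq s =>
      le_trans (by norm_num) (hz u hu q hq s).1
    rintro (_ | _) (_ | _) hij u hu q hq s hs'
    · exact absurd rfl hij
    · simp only [pair_true, pair_false, zero_sub, nsq_neg]
      exact key u hu q hq s
    · simp only [pair_true, pair_false, sub_zero]
      exact key u hu q hq s
    · exact absurd rfl hij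

/-- rotation about the axis `w = 0` -/
noncomputable def rotw (θ : ℝ) (x : R3) : R3 := (x.1, Complex.exp (θ * Complex.I) * x.2)

theorem nsq_rotw (θ : ℝ) (x : R3) : nsq (rotw θ x) = nsq x := by
  have h : ∀ z : ℂ, z.re ^ 2 + z.im ^ 2 = Complex.normSq z := fun z => by
    rw [Complex.normSq_apply]; ring
  have h2 : Complex.normSq (Complex.exp (θ * Complex.I)) = 1 := by
    rw [Complex.normSq_eq_norm_sq, Complex.norm_exp_ofReal_mul_I, one_pow]
  simp only [nsq, rotw, add_assoc, h, map_mul, h2, one_mul]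

theorem rotw_zero (x : R3) : rotw 0 x = x := by simp [rotw]

theorem rotw_pi (x : R3) : rotw Real.pi x = (x.1, -x.2) := by
  simp [rotw, Complex.exp_pi_mul_I]

theorem rotw_e1 (θ : ℝ) : rotw θ e1 = e1 := by simp [rotw, e1]

theorem contDiff_rotw {F : Type*} [NormedAddCommGroup F] [NormedSpace ℝ F] {θ : F → ℝ}
    {x : F → R3} (hθ : ContDiff ℝ ∞ θ) (hx : ContDiff ℝ ∞ x) :
    ContDiff ℝ ∞ (fun y => rotw (θ y) (x y)) := by
  have h1 : ContDiff ℝ ∞ (fun z : ℂ => Complex.exp z) :=
    Complex.contDiff_exp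
  exact (contDiff_fst.comp hx).prodMk
    ((h1.comp ((Complex.ofRealCLM.contDiff.comp hθ).mul contDiff_const)).mul
      (contDiff_snd.comp hx))

/-- the reversed path of the barbell map -/
noncomputable def revPath (q s : ℝ) : R3 := barPath () (1 - q) s

/-- the mirror image of the path of the barbell map -/
noncomputable def mirPath (q s : ℝ) : R3 := zarc (-Real.sin (Real.pi * q)) (chi s) q s

theorem revPath_eq (q s : ℝ) :
    revPath q s = (1 + chi s * (Real.cos (2 * Real.pi * q) - 1),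
      ⟨-Real.sin (Real.pi * q) * Real.sin (phi s), -(chi s * Real.sin (2 * Real.pi * q))⟩) := by
  have h1 : Real.sin (Real.pi * (1 - q)) = Real.sin (Real.pi * q) := by
    rw [show Real.pi * (1 - q) = Real.pi - Real.pi * q by ring, Real.sin_pi_sub]
  have h2 : Real.cos (2 * Real.pi * (1 - q)) = Real.cos (2 * Real.pi * q) := by
    rw [show 2 * Real.pi * (1 - q) = 2 * Real.pi - 2 * Real.pi * q by ring,
      Real.cos_two_pi_sub]
  have h3 : Real.sin (2 * Real.pi * (1 - q)) = -Real.sin (2 * Real.pi * q) := by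
    rw [show 2 * Real.pi * (1 - q) = 2 * Real.pi - 2 * Real.pi * q by ring,
      Real.sin_two_pi_sub]
  simp only [revPath, barPath, zarc, h1, h2, h3, mul_neg]

theorem mirPath_eq (q s : ℝ) : mirPath q s = rotw Real.pi (revPath q s) := by
  rw [rotw_pi, revPath_eq, mirPath, zarc]
  refine Prod.ext rfl (Complex.ext ?_ ?_)
  · simp
  · simp

theorem nsq_revPath (q s : ℝ) : nsq (revPath q s) = 1 := by
  rw [revPath, barPath, nsq_zarc_chi]; ring

theorem contDiff_revPath {F : Type*} [NormedAddCommGroup F] [NormedSpace ℝ F] {q s : F → ℝ}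
    (hq : ContDiff ℝ ∞ q) (hs : ContDiff ℝ ∞ s) :
    ContDiff ℝ ∞ (fun x => revPath (q x) (s x)) :=
  contDiff_zarc (Real.contDiff_sin.comp (contDiff_const.mul (contDiff_const.sub hq)))
    (contDiff_chi.comp hs) (contDiff_const.sub hq) hs

theorem revPath_end (q : ℝ) {s : ℝ} (hs : s ≤ 0 ∨ 1 ≤ s) : revPath q s = e1 :=
  zarc_end _ _ _ hs (chi_end hs)

theorem revPath_zero (s : ℝ) : revPath 0 s = e1 := by
  rw [revPath, sub_zero, barPath_one]

theorem revPath_one (s : ℝ) : revPath 1 s = e1 := by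
  rw [revPath, sub_self, barPath_zero]

/-- rotation of the mirror path to the reversed path -/
theorem mir (hCh : StCh) (hspin : StSpin) {Θ : R4 → R4}
    (hΘ : IsPush ∅ (1 / 5) (pair mirPath) Θ) : TIso ∅ (1 / 5) arc2 arc2 Θ barInv := by
  have hinv : IsPush ∅ (1 / 5) (pair revPath) barInv := by
    have h := (isPush_pair hspin).reverse (Θ' := barInv) (fun x => bfam.fg 1 x)
    exact h.congr (by rintro (_ | _) q hq s <;> rfl)
  have hsq : SqOk ∅ (1 / 5)
      (fun b u q s => pair (fun q s => rotw (Real.pi * (1 - u)) (revPath q s)) b q s) := by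
    refine sqOk_pair _ ?_ ?_ ?_
    · have hq : ContDiff ℝ ∞ (fun p : ℝ × ℝ × ℝ => p.2.1) := contDiff_fst.comp contDiff_snd
      have hs : ContDiff ℝ ∞ (fun p : ℝ × ℝ × ℝ => p.2.2) := contDiff_snd.comp contDiff_snd
      exact contDiff_rotw (contDiff_const.mul (contDiff_const.sub contDiff_fst))
        (contDiff_revPath hq hs)
    · intro u q s hs
      rw [revPath_end q hs, rotw_e1]
    · intro u hu q hq s
      rw [nsq_rotw, nsq_revPath]
      norm_num
  have h := square hCh (by norm_num) hsq (Θ1 := Θ) (Θ2 := fun x => x)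
    (Θ3 := fun x => x) (Θ4 := barInv)
    (hΘ.congr (by rintro (_ | _) q hq s <;> simp [mirPath_eq]))
    ((IsPush.const arc2).congr (by
      rintro (_ | _) q hq s <;> simp [arc2, revPath_one, rotw_e1]))
    ((IsPush.const arc2).congr (by
      rintro (_ | _) q hq s <;> simp [arc2, revPath_zero, rotw_e1]))
    (hinv.congr (by rintro (_ | _) q hq s <;> simp [rotw_zero]))
  exact h.congr (by rintro (_ | _) s <;> simp [arc2, revPath_zero, rotw_e1])
    (by rintro (_ | _) s <;> simp [arc2, revPath_one, rotw_zero])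
    (fun _ => rfl) (fun _ => rfl)

end Pool.Agent.Helper27.BI
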