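import Pool.Agent.Helper27.BI.StM2
import Pool.Agent.Helper18.BI.StF

/-!
# Project BI, part (C): the statements at the level of germs
-/

set_option autoImplicit false

open scoped Manifold ContDiff Topology ComplexConjugate
open Set Pool.Agent.Helper65.Barb Pool.Agent.Helper18.BI

namespace Pool.Agent.Helper27.BI

/-- `k` pushes the ball off the vertical tube of radius `r` over `x₀`, in the direction of
increasing `a`. -/
structure IsKap (x₀ : R3) (δ r : ℝ) (k : R4 → R4) : Prop where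
  emb : EmbOn 𝓘(ℝ, R4) k univ
  smooth : ContDiff ℝ ∞ k
  fst : ∀ p, (k p).1 = p.1
  keep : ∀ p, (k p).2.2 = p.2.2
  mono : ∀ p, p.2.1 ≤ (k p).2.1
  off_w : ∀ p, δ ≤ ‖p.2.2 - x₀.2‖ → k p = p
  off_a : ∀ p, x₀.1 + 1 / 50 ≤ p.2.1 → k p = p
  away : ∀ p ∈ ball4, k p ∉ tube x₀ r
  ball : ∀ p ∈ ball4, k p ∈ ball4
  small : ∀ p, rsq 0 p ≤ 1 / 25 → rsq 0 (k p) ≤ 1 / 25

/-- Existence of the pushing maps. -/
def StKap : Prop :=
  ∀ x₀ : R3, nsq x₀ < (7 / 50) ^ 2 → ∀ δ r : ℝ, 0 < r → r ≤ δ / 2 → r ≤ 1 / 100 → δ ≤ 1 / 25 →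
    ∃ k, IsKap x₀ δ r k

/-- **ADD** for germs.  Two strands `x1`, `x2` inside the first hole: the implantation is the
product of the implantation relative to the first strand only (`F ∘ k1`, `k1` pushes everything
off the second strand) and of the one relative to the second strand only (`F ∘ k2`). -/
def StAddG : Prop :=
  ∀ (E : Type) [NormedAddCommGroup E] [NormedSpace ℝ E] (H : Type) [TopologicalSpace H]
    (I : ModelWithCorners ℝ E H) (M : Type) [TopologicalSpace M] [ChartedSpace H M] [T2Space M]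
    (x1 x2 : R3), nsq x1 < (7 / 50) ^ 2 → nsq x2 < (7 / 50) ^ 2 → x1.2.re ≠ x2.2.re →
    ∀ g ρ : ℝ, g = |x1.2.re - x2.2.re| → ρ = g / 40 → ∀ k1 k2 : R4 → R4,
      IsKap x2 (g / 8) ρ k1 → IsKap x1 (g / 8) ρ k2 →
      ∀ F : R4 → M, EmbOn I F {p | p ∈ ball4 ∧ p ∉ tube (1, 0) (3 / 20) ∧ p ∉ tube x1 ρ ∧
        p ∉ tube x2 ρ} →
        CIsot I (imp F bsupp barMap)
          (fun y => imp (F ∘ k2) bsupp barMap (imp (F ∘ k1) bsupp barMap y))

/-- **ADD2** (the form used in part (D)): the strands over `0` and `x2`. -/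
def StADD2 : Prop :=
  ∀ x2 : R3, nsq x2 < (7 / 50) ^ 2 → x2.2.re ≠ 0 → ∃ (r : ℝ) (k1 k2 : R4 → R4), 0 < r ∧
    r ≤ 1 / 200 ∧ 8 * r ≤ |x2.2.re| ∧
    IsKap x2 (|x2.2.re| / 8) r k1 ∧ IsKap 0 (|x2.2.re| / 8) r k2 ∧
    (∀ p, 17 / 100 ≤ p.2.1 → k1 p = p ∧ k2 p = p) ∧
    (∀ p : R4, ‖p.2.2‖ ≤ |x2.2.re| / 2 → k1 p = p) ∧
    (∀ p, k1 p ∈ tube 0 r → p ∈ tube 0 r) ∧ (∀ p, k2 p ∈ tube x2 r → p ∈ tube x2 r) ∧
    ∀ (E : Type) [NormedAddCommGroup E] [NormedSpace ℝ E] (H : Type) [TopologicalSpace H]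
      (I : ModelWithCorners ℝ E H) (M : Type) [TopologicalSpace M] [ChartedSpace H M] [T2Space M]
      (F : R4 → M), EmbOn I F (ball4 \ (tube (1, 0) (3 / 20) ∪ tube 0 r ∪ tube x2 r)) →
        CIsot I (imp F bsupp barMap)
          (fun y => imp (F ∘ k2) bsupp barMap (imp (F ∘ k1) bsupp barMap y))

/-- **VAN** for germs: a germ extending over the first flat ball has trivial class. -/
def StVanT : Prop :=
  ∀ (E : Type) [NormedAddCommGroup E] [NormedSpace ℝ E] (H : Type) [TopologicalSpace H]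
    (I : ModelWithCorners ℝ E H) (M : Type) [TopologicalSpace M] [ChartedSpace H M] [T2Space M]
    (F : R4 → M), EmbOn I F (flat 0 ∪ sph 1 ∪ neck) → Thin I F (fun x => x)

/-- **R1** for germs: reflection `h ↦ -h`. -/
def StRefH : Prop :=
  ∀ (E : Type) [NormedAddCommGroup E] [NormedSpace ℝ E] (H : Type) [TopologicalSpace H]
    (I : ModelWithCorners ℝ E H) (M : Type) [TopologicalSpace M] [ChartedSpace H M] [T2Space M]
    (F : R4 → M) (φ φ' : M → M), EmbOn I F SP → (∀ x, φ (φ' x) = x) → (∀ x, φ' (φ x) = x) →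
    (Thin I F φ ↔ Thin I (fun p => F (refh p)) φ')

/-- **R1** for germs: reversal of the levels. -/
def StRefS : Prop :=
  ∀ (E : Type) [NormedAddCommGroup E] [NormedSpace ℝ E] (H : Type) [TopologicalSpace H]
    (I : ModelWithCorners ℝ E H) (M : Type) [TopologicalSpace M] [ChartedSpace H M] [T2Space M]
    (F : R4 → M) (φ φ' : M → M), EmbOn I F SP → (∀ x, φ (φ' x) = x) → (∀ x, φ' (φ x) = x) →
    (Thin I F φ ↔ Thin I (fun p => F (refs p)) φ')

/-- **R2** for germs: exchange of the two cuffs. -/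
def StR2sw : Prop :=
  ∀ (E : Type) [NormedAddCommGroup E] [NormedSpace ℝ E] (H : Type) [TopologicalSpace H]
    (I : ModelWithCorners ℝ E H) (M : Type) [TopologicalSpace M] [ChartedSpace H M] [T2Space M]
    (F : R4 → M) (φ φ' : M → M), EmbOn I F SP → (∀ x, φ (φ' x) = x) → (∀ x, φ' (φ x) = x) →
    (Thin I F φ ↔ Thin I (fun p => F (swp p)) φ')

end Pool.Agent.Helper27.BI
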