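import Pool.Agent.Helper27.BI.ChBasic

/-!
# Project BI, part (C): the two analytic statements (displacements)
-/

set_option autoImplicit false

open scoped Manifold ContDiff Topology ComplexConjugate
open Set Pool.Agent.Helper65.Barb Pool.Agent.Helper18.BI

namespace Pool.Agent.Helper27.BI

/-- MODULE PERT (perturbation of the identity).  Level preserving form.

Proof.  `G (t, (s, x)) = (t, (s, x + g (t, (s, x))))` on `ℝ × R4`.  For fixed `(t, s)` the map
`x ↦ x + g` is a bijection of `R3` (`ApproximatesLinearOn` with the identity on `univ` with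
constant `1/2 < 1`, `ApproximatesLinearOn.toHomeomorph`, or the contraction principle), so `G` is
bijective.  Its derivative is bijective at every point: it is block triangular with diagonal
blocks `1`, `1`, `1 + ∂g/∂x` and `‖∂g/∂x‖ ≤ 1/2` (`ContinuousLinearMap` of the Lipschitz bound:
`‖fderiv‖ ≤ 1/2`, e.g. `norm_fderiv_le_of_lip'`), injective in finite dimension hence bijective.
By the inverse function theorem the inverse of `G` is smooth (`ContDiffAt.to_localInverse`, or
`OpenPartialHomeomorph.contDiffAt_symm`, the local inverse agrees with the global inverse). -/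
def StPert : Prop :=
  ∀ g : ℝ × R4 → R3, ContDiff ℝ ∞ g →
    (∀ t s x y, ‖g (t, (s, x)) - g (t, (s, y))‖ ≤ 1 / 2 * ‖x - y‖) →
    ∃ F : DFam 𝓘(ℝ, R4) R4, ∀ t s x, F.f (t, (s, x)) = (s, x + g (t, (s, x)))

/-- MODULE CH (chains of displacements).  For an admissible two-parameter family of systems of
arcs there are diffeomorphisms `P a b`, depending smoothly on the two parameter values `a, b` in
the unit square, which carry the tubes about the arcs of parameter `a` to those of parameter `b`
by translations, with `P a a = 1`, fixing `O`, and moving only points within distance `2ρ` of the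
arcs with parameters on the segment from `a` to `b`.

Proof (from `StPert`).  `disp p v x = x + ∑ i, cut (nsq (x - p i) / ρ ^ 2) • v i`
(`Barb.cut` is `1` for `u ≤ 1`, `0` for `u ≥ 4`).  There is `L` (depending on `ρ`) with
`|cut (nsq (x - p) / ρ ^ 2) - cut (nsq (y - p) / ρ ^ 2)| ≤ L ‖x - y‖` (a smooth compactly
supported function of `x - p` is Lipschitz: `ContDiff.lipschitzWith_of_hasCompactSupport`).  Choose
`N ≥ 1` such that for all `a, b` in the square, `k < N`, `s ∈ [0,1]` and `i` the step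
`v = Γ i (c (k+1)) s - Γ i (c k) s`, `c k = a + (k / N) (b - a)`, has
`‖v‖ ≤ 1 / (2 L (card ι + 1))` (uniform continuity of `Γ i` on the compact
`[0,1] × [0,1] × [0,1]`; for `s ∉ [0,1]` the step is `0` by `ends`).  Put
`P a b = disp_(N-1) ∘ ... ∘ disp_0`, `disp_k` the level preserving map
`(s, x) ↦ (s, disp (Γ · (c k) s) (v · s) x)`.
* For smooth `a b : ℝ → ℝ × ℝ` with values in the square each factor is a DFam by `StPert`;
  compose them (`DFam.comp`, induction on `k`).
* `P a a = 1`: all steps are `0`.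
* Tubes: `disp_k (Γ i (c k) s + y) = Γ i (c (k+1)) s + y` if `nsq y ≤ ρ ^ 2`: the `i`-th cut is `1`,
  the `j`-th is `0` since by `sep` (and the triangle inequality for `√ nsq`)
  `|Γ i + y - Γ j| ≥ 4ρ - ρ ≥ 2ρ`; for `s ∉ [0,1]` nothing moves.
* Points `x` with `(2ρ)^2 ≤ nsq (x - Γ i (c k) s)` for all `i, k` do not move at any step; this
  gives the last property (`c k` lies on the segment) and, by `off`, that `O` is fixed; (points
  with `s ∉ [0,1]` do not move at all).
* Support: `K = {(s, x) | s ∈ [0,1], ∃ i, ∃ (u, q) ∈ [0,1]², nsq (x - Γ i u q s) ≤ (2ρ)^2}` is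
  compact (image of a compact set) and in the interior of `ball4` by `inside`. -/
def StCh : Prop :=
  ∀ (ι : Type) (_ : Fintype ι) (O : Set R4) (ρ : ℝ) (Γ : ι → ℝ → ℝ → ℝ → R3), 0 < ρ →
    SqOk O ρ Γ →
    ∃ P : ℝ × ℝ → ℝ × ℝ → R4 → R4, (∀ q x, P q q x = x) ∧
      ∀ a b : ℝ → ℝ × ℝ, ContDiff ℝ ∞ a → ContDiff ℝ ∞ b →
        (∀ t, a t ∈ Icc (0 : ℝ) 1 ×ˢ Icc (0 : ℝ) 1) →
        (∀ t, b t ∈ Icc (0 : ℝ) 1 ×ˢ Icc (0 : ℝ) 1) →
        ∃ F : DFam 𝓘(ℝ, R4) R4, (∀ t x, F.f (t, x) = P (a t) (b t) x) ∧ SuppB F ∧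
          (∀ t, ∀ x ∈ O, F.f (t, x) = x) ∧
          (∀ t i s y, nsq y ≤ ρ ^ 2 →
            F.f (t, (s, Γ i (a t).1 (a t).2 s + y)) = (s, Γ i (b t).1 (b t).2 s + y)) ∧
          ∀ t s x, (∀ i, ∀ τ ∈ Icc (0 : ℝ) 1, (2 * ρ) ^ 2 ≤
              nsq (x - Γ i ((a t).1 + τ * ((b t).1 - (a t).1))
                ((a t).2 + τ * ((b t).2 - (a t).2)) s)) →
            F.f (t, (s, x)) = (s, x)

end Pool.Agent.Helper27.BI
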